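import Pool.Agent.R920.GR.Mot

/-!
# The antisymmetrizer in a graded realisation, and the pairing theorem for the heart
-/

set_option autoImplicit false
set_option linter.unusedSectionVars false
set_option backward.isDefEq.respectTransparency false
set_option backward.defeqAttrib.useBackward true

open CategoryTheory Limits MonoidalCategory Pretriangulated Triangulated TensorProduct
open Pool.Agent.Y116.MT

namespace Pool.Agent.R920

universe v u w

open Functor.LaxMonoidal

section

variable {C : Type u} [Category.{v} C] [Preadditive C] [HasZeroObject C] [HasShift C ℤ]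
  [∀ n : ℤ, (shiftFunctor C n).Additive] [Pretriangulated C] [MonoidalCategory C]
  [SymmetricCategory C] {E : Type w} [Field E] (R : GReal C E)

namespace GReal

/-- The pure tensors. -/
noncomputable def ten (Z : C) : ∀ (n : ℕ) (_ : Fin n → R.V.obj Z), R.V.obj (pw (𝟙_ C) Z n)
  | 0, _ => one R.V
  | n + 1, v => mul R.V (ten Z n (Fin.init v)) (v (Fin.last n))

lemma nop_mul {X Y : C} (i : ℤ) (x : R.V.obj X) (y : R.V.obj Y) :
    mul R.V x (i.negOnePow • y) = i.negOnePow • mul R.V x y := by
  rcases Int.even_or_odd i with h | h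
  · rw [Int.negOnePow_even i h, one_smul, one_smul]
  · rw [Int.negOnePow_odd i h]
    simp [mul_neg']

lemma nop_mul' {X Y : C} (i : ℤ) (x : R.V.obj X) (y : R.V.obj Y) :
    mul R.V (i.negOnePow • x) y = i.negOnePow • mul R.V x y := by
  rcases Int.even_or_odd i with h | h
  · rw [Int.negOnePow_even i h, one_smul, one_smul]
  · rw [Int.negOnePow_odd i h]
    simp [neg_mul']

lemma ap_exch {W Z P : C} {m n : ℤ} (a : R.V.obj W) {b : R.V.obj Z} {c : R.V.obj P}
    (hb : b ∈ R.gr Z m) (hc : c ∈ R.gr P n) :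
    R.ap (exch W Z P).hom (mul R.V (mul R.V a b) c) =
      (m * n).negOnePow • mul R.V (mul R.V a c) b := by
  simp only [exch, Iso.trans_hom, whiskerLeftIso_hom, Iso.symm_hom, ap_comp]
  rw [ap_assoc, ap_wl, R.ap_braid hb hc, nop_mul, nop_smul_map, ap_assoc_inv]

lemma init_removeNth' {V : Type*} (n : ℕ) (j : Fin (n + 1)) (v : Fin (n + 2) → V) :
    Fin.init (j.castSucc.removeNth v) = j.removeNth (Fin.init v) := by
  funext k
  simp [Fin.init, Fin.removeNth]

lemma removeNth_last'' {V : Type*} (n : ℕ) (j : Fin (n + 1)) (v : Fin (n + 2) → V) :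
    (j.castSucc.removeNth v) (Fin.last n) = v (Fin.last (n + 1)) := by
  simp [Fin.removeNth]

/-- The action of the moves on pure tensors of homogeneous elements of degree `d`. -/
lemma mv_ap {Z : C} {d : ℤ} (n : ℕ) : ∀ (i : Fin (n + 1)) (v : Fin (n + 1) → R.V.obj Z),
    (∀ k, v k ∈ R.gr Z d) → R.ap (mv (𝟙_ C) Z n i) (R.ten Z (n + 1) v) =
      ((d * (n - i.val) : ℤ)).negOnePow • mul R.V (R.ten Z n (i.removeNth v)) (v i) := by
  induction n with
  | zero =>
    intro i v _
    obtain rfl : i = 0 := Subsingleton.elim (α := Fin 1) _ _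
    simp only [mv, ap_id, Fin.val_zero, Nat.cast_zero, sub_zero, mul_zero, Int.negOnePow_zero,
      one_smul]
    rfl
  | succ n ih =>
    intro i
    refine Fin.lastCases ?_ (fun j => ?_) i
    · intro v _
      rw [mv_last, Fin.removeNth_last, ap_id]
      simp only [Fin.val_last, sub_self, mul_zero, Int.negOnePow_zero, one_smul]
      rfl
    · intro v hv
      rw [mv_castSucc, ap_comp]
      have h1 : R.ten Z (n + 1 + 1) v = mul R.V (R.ten Z (n + 1) (Fin.init v))
        (v (Fin.last (n + 1))) := rfl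
      rw [h1, ap_wr, ih j (Fin.init v) (fun k => hv _), nop_mul', nop_smul_map,
        R.ap_exch (m := d) (n := d) _ (show Fin.init v j ∈ R.gr Z d from hv _) (hv _), smul_smul,
        ← Int.negOnePow_add]
      have h2 : R.ten Z (n + 1) (j.castSucc.removeNth v) = mul R.V
          (R.ten Z n (Fin.init (j.castSucc.removeNth v)))
          ((j.castSucc.removeNth v) (Fin.last n)) := rfl
      rw [h2, init_removeNth', removeNth_last'']
      have h3 : (d * (n - j.val) + d * d : ℤ).negOnePow =
          (d * ((n + 1 : ℕ) - j.castSucc.val) : ℤ).negOnePow := by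
        rw [Int.negOnePow_eq_iff]
        have : (d * (n - j.val) + d * d : ℤ) - (d * ((n + 1 : ℕ) - j.castSucc.val) : ℤ) =
          d * (d - 1) := by
          simp only [Fin.val_castSucc]
          push_cast
          ring
        rw [this]
        exact Int.even_mul_pred_self d
      rw [h3]
      rfl

lemma ap_zsmul {X Y : C} (k : ℤ) (f : X ⟶ Y) (x : R.V.obj X) : R.ap (k • f) x = k • R.ap f x := by
  simp [ap, Functor.map_zsmul]

lemma ap_sum {X Y : C} {ι : Type*} (s : Finset ι) (f : ι → (X ⟶ Y)) (x : R.V.obj X) :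
    R.ap (∑ i ∈ s, f i) x = ∑ i ∈ s, R.ap (f i) x := by
  classical
  induction s using Finset.induction_on with
  | empty => rw [Finset.sum_empty, Finset.sum_empty, ap_zero]
  | insert a s ha ih => rw [Finset.sum_insert ha, Finset.sum_insert ha, ap_add, ih]

/-- The antisymmetrizer on pure tensors of elements of degree zero is alternating. -/
lemma alt_ten0 {Z : C} (h0 : ∀ x : R.V.obj Z, x ∈ R.gr Z 0) (n : ℕ) :
    ∃ G : (R.V.obj Z) [⋀^Fin n]→ₗ[E] (R.V.obj (pw (𝟙_ C) Z n)),
    ∀ v : Fin n → R.V.obj Z, R.ap (alt (𝟙_ C) Z n) (R.ten Z n v) = G v := by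
  induction n with
  | zero =>
    refine ⟨AlternatingMap.constOfIsEmpty E (R.V.obj Z) (Fin 0) (one R.V), fun v => ?_⟩
    simp only [alt, ap_id]
    rfl
  | succ n ih =>
    obtain ⟨G, hG⟩ := ih
    let mulR : R.V.obj Z → R.V.obj (pw (𝟙_ C) Z n) →ₗ[E] R.V.obj (pw (𝟙_ C) Z (n + 1)) := fun m =>
      { toFun := fun y => mul R.V y m
        map_add' := fun a b => add_mul' _ _ _ _
        map_smul' := fun a b => smul_mul' _ _ _ _ }
    let L : R.V.obj Z →ₗ[E] (R.V.obj Z) [⋀^Fin n]→ₗ[E] (R.V.obj (pw (𝟙_ C) Z (n + 1))) :=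
      { toFun := fun m => (mulR m).compAlternatingMap G
        map_add' := fun a b => by
          ext v
          exact mul_add' _ _ _ _
        map_smul' := fun a b => by
          ext v
          exact mul_smul' _ _ _ _ }
    refine ⟨((-1 : ℤ) ^ n) • AlternatingMap.alternatizeUncurryFin L, fun v => ?_⟩
    rw [AlternatingMap.smul_apply, AlternatingMap.alternatizeUncurryFin_apply, Finset.smul_sum]
    simp only [alt]
    rw [ap_sum]
    refine Finset.sum_congr rfl (fun i _ => ?_)
    rw [ap_zsmul, ap_comp, R.mv_ap n i v (fun k => h0 _), zero_mul, Int.negOnePow_zero, one_smul,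
      ap_wr, hG, smul_smul, ← pow_add]
    rfl

/-- The pure tensors span. -/
lemma ten_span' (Z : C) (n : ℕ) : ∀ y : R.V.obj (pw (𝟙_ C) Z n),
    y ∈ Submodule.span E (Set.range fun q : (Fin n → R.V.obj Z) => R.ten Z n q) := by
  induction n with
  | zero =>
    intro y
    obtain ⟨c, rfl⟩ := eq_smul_one R.V y
    exact Submodule.smul_mem _ _ (Submodule.subset_span ⟨Fin.elim0, rfl⟩)
  | succ n ih =>
    intro y
    refine R.mul_induction (p := fun y => y ∈ Submodule.span E (Set.range
      fun q : (Fin (n + 1) → R.V.obj Z) => R.ten Z (n + 1) q)) y ?_ ?_ ?_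
    · intro _ _ a b ha _
      have h1 := ih a
      clear ha
      induction h1 using Submodule.span_induction with
      | mem z hz =>
        obtain ⟨v, rfl⟩ := hz
        refine Submodule.subset_span ⟨Fin.snoc v b, ?_⟩
        simp only [ten, Fin.init_snoc, Fin.snoc_last]
      | zero => rw [zero_mul']; exact Submodule.zero_mem _
      | add p q _ _ hp hq => rw [add_mul']; exact Submodule.add_mem _ hp hq
      | smul c p _ hp => rw [smul_mul']; exact Submodule.smul_mem _ c hp
    · exact Submodule.zero_mem _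
    · exact fun a b ha hb => Submodule.add_mem _ ha hb

/-- The antisymmetrizer is zero on high powers of an object in degree zero. -/
theorem map_alt_zero {Z : C} (h0 : ∀ x : R.V.obj Z, x ∈ R.gr Z 0) (n : ℕ)
    (hn : Module.finrank E (R.V.obj Z) < n) : R.V.map (alt (𝟙_ C) Z n) = 0 := by
  rw [map_eq_zero_iff]
  intro y
  have hy := R.ten_span' Z n y
  induction hy using Submodule.span_induction with
  | mem z hz =>
    obtain ⟨v, rfl⟩ := hz
    obtain ⟨G, hG⟩ := R.alt_ten0 h0 n
    have h1 : G v = 0 := by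
      apply AlternatingMap.map_linearDependent
      intro hv
      have := hv.fintype_card_le_finrank
      rw [Fintype.card_fin] at this
      omega
    rw [hG v, h1]
  | zero => simp
  | add p q _ _ hp hq => rw [map_add, hp, hq, add_zero]
  | smul c p _ hp => rw [map_smul, hp, smul_zero]

end GReal

end

section

variable {C : Type u} [Category.{v} C] [Preadditive C] [HasZeroObject C] [HasShift C ℤ]
  [∀ n : ℤ, (shiftFunctor C n).Additive] [Pretriangulated C] [MonoidalCategory C]
  [SymmetricCategory C] [TensorTriangulated C] [MonoidalPreadditive C] [RightRigidCategory C]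
  {E : Type w} [Field E] {t : TStructure C} {R : GReal C E}

variable (ht : TensorCompat t) (he : Ex t R) (hu : Hrt t (𝟙_ C))
  (hid : ∀ e : 𝟙_ C ⟶ 𝟙_ C, e ≫ e = e → e = 0 ∨ e = 𝟙 _)

include ht he hu hid

/-- The antisymmetrizer vanishes for large `n` on an object of the heart. -/
lemma alt_hrt_zero [IsTriangulated C] {Z : C} (hZ : Hrt t Z) :
    ∃ n : ℕ, alt (𝟙_ C) Z n = 0 := by
  refine ⟨Module.finrank E (R.V.obj Z) + 1, ?_⟩
  have h0 := fun n => pw_hrt ht hu hZ n
  apply faithful_hrt ht he hu hid (h0 _) (h0 _)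
  exact R.map_alt_zero (fun x => R.mem_of_conc (fun i hi => he.deg hZ hi) x) _ (Nat.lt_succ_self _)

/-- Non zero maps from the unit to a pure object of the heart are detected by maps to the unit. -/
theorem hrt_pairing [IsTriangulated C] [Linear ℚ C] {Q : C} (hQ : Hrt t Q)
    (Pr : ObjectProperty C) (hPu : Pr (𝟙_ C)) (hPQ : ∀ X, Pr X → Pr (X ⊗ Q))
    (hP0 : ∀ X, Pr X → ∀ (m : ℤ), 0 < m → ∀ f : X ⟶ (𝟙_ C)⟦m⟧, f = 0)
    (s : 𝟙_ C ⟶ Q) (hs : s ≠ 0) : ∃ r : Q ⟶ 𝟙_ C, s ≫ r ≠ 0 := by
  by_contra hcon
  push Not at hcon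
  obtain ⟨Z, q, δ, hT⟩ := distinguished_cocone_triangle s
  have hZ := unit_simple ht hu hid hT hQ hs
  obtain ⟨n, hn⟩ := alt_hrt_zero ht he hu hid hZ
  have h1 := starN_ne_zero δ s q hT Pr hPQ (fun X hX m f => un_zero (hP0 X hX) m f) hPu hcon
    R.not_isZero_unit n
  apply h1
  have h2 := alt_star δ (𝟙 (𝟙_ C)) n
  rw [hn, zero_comp] at h2
  exact zero_of_zsmul _ _ (by exact_mod_cast Nat.factorial_ne_zero n) h2.symm

end

end Pool.Agent.R920
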