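import Pool.Agent.R920.GR.Slice

/-!
# Extensions of the base field
-/

set_option autoImplicit false
set_option linter.unusedSectionVars false
set_option backward.isDefEq.respectTransparency false
set_option backward.defeqAttrib.useBackward true

open CategoryTheory Limits MonoidalCategory Pretriangulated Triangulated TensorProduct
open Pool.Agent.Y116.MT ObjectProperty

namespace Pool.Agent.R920

universe v u w v' u'

section

variable {C₀ : Type u} [Category.{v} C₀] [Preadditive C₀] [HasZeroObject C₀] [HasShift C₀ ℤ]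
  [∀ n : ℤ, (shiftFunctor C₀ n).Additive] [Pretriangulated C₀]
  [MonoidalCategory C₀] [SymmetricCategory C₀]
  {C : Type u'} [Category.{v'} C] [Preadditive C] [HasZeroObject C] [HasShift C ℤ]
  [∀ n : ℤ, (shiftFunctor C n).Additive] [Pretriangulated C]
  [MonoidalCategory C] [SymmetricCategory C] {E : Type w} [Field E]

/-- The functor `a` is compatible with the graded realisations. -/
structure GReal.Cmp (R₀ : GReal C₀ E) (R : GReal C E) (a : C₀ ⥤ C) where
  /-- the comparison isomorphism -/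
  iso : R₀.V ≅ a ⋙ R.V
  mem (X : C₀) (n : ℤ) (x : R₀.V.obj X) :
    x ∈ R₀.gr X n ↔ (iso.hom.app X).hom x ∈ R.gr (a.obj X) n

end

section

variable {C₀ : Type u} [Category.{v} C₀] [Preadditive C₀] [HasZeroObject C₀] [HasShift C₀ ℤ]
  [∀ n : ℤ, (shiftFunctor C₀ n).Additive] [Pretriangulated C₀]
  [MonoidalCategory C₀] [SymmetricCategory C₀] [RightRigidCategory C₀]
  {C : Type u'} [Category.{v'} C] [Preadditive C] [HasZeroObject C] [HasShift C ℤ]
  [∀ n : ℤ, (shiftFunctor C n).Additive] [Pretriangulated C]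
  [MonoidalCategory C] [SymmetricCategory C] [RightRigidCategory C]
  {Λ : Type*} {E : Λ → Type w} [∀ l, Field (E l)]
  {R₀ : ∀ l, GReal C₀ (E l)} {R : ∀ l, GReal C (E l)}

/-- The base change functor `a` of an extension of fields `k/k₀`, with its known properties. -/
structure BaseChange (M₀ : ChowMotives R₀) (M : ChowMotives R) where
  /-- the base change functor -/
  a : C₀ ⥤ C
  [additive : a.Additive]
  [faithful : a.Faithful]
  /-- it preserves the unit -/
  unit : a.obj (𝟙_ C₀) ≅ 𝟙_ C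
  /-- it is compatible with the realisations -/
  cmp (l : Λ) : GReal.Cmp (R₀ l) (R l) a
  /-- it preserves Chow motives -/
  chow {P : C₀} : M₀.Chow P → M.Chow (a.obj P)
  /-- spreading out over a variety `U` over `k₀` on which the realisations of `W` are lisse, and
  direct image to `k₀` -/
  push (W : C) (ξ : W ⟶ W) (s : 𝟙_ C ⟶ W) :
    ∃ (K : C₀) (ξ₀ : K ⟶ K) (s₀ : 𝟙_ C₀ ⟶ K) (κ : a.obj K ⟶ W),
      s = unit.inv ≫ a.map s₀ ≫ κ ∧ κ ≫ ξ = a.map ξ₀ ≫ κ ∧ ∀ l,
        ((R l).Ge W 0 → (R l).Kills s → (R₀ l).Ge K 0 ∧ (R₀ l).Kills s₀) ∧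
        ((R l).Kills ξ → ∃ n : ℕ, (R₀ l).Kills (End.of ξ₀ ^ n : End K))
  /-- the theorem on global invariant cycles, and specialisation: a homologically non-trivial
  cycle `s` over `k` stays homologically non-trivial in a constant Chow motive, and its image is
  there homologous to a cycle `s₀` over `k₀` (up to a norm) -/
  num_up {P : C} (hP : M.Chow P) (s : 𝟙_ C ⟶ P) (l : Λ) (hs : ¬ (R l).Kills s) :
    ∃ (P₀ : C₀) (_ : M₀.Chow P₀) (ψ : P ⟶ a.obj P₀) (s₀ : 𝟙_ C₀ ⟶ P₀),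
      ¬ (R₀ l).Kills s₀ ∧
        ∀ r₀ : P₀ ⟶ 𝟙_ C₀, a.map (s₀ ≫ r₀) = unit.hom ≫ s ≫ ψ ≫ a.map r₀
  /-- specialisation of cycles, and invariance of intersection numbers -/
  num_down {P₀ : C₀} (hP : M₀.Chow P₀) (r : a.obj P₀ ⟶ 𝟙_ C) :
    ∃ r₀ : P₀ ⟶ 𝟙_ C₀, ∀ s₀ : 𝟙_ C₀ ⟶ P₀, a.map (s₀ ≫ r₀) = a.map s₀ ≫ r ≫ unit.inv

attribute [instance] BaseChange.additive BaseChange.faithful

end

section

variable {C₀ : Type u} [Category.{v} C₀] [Preadditive C₀] [HasZeroObject C₀] [HasShift C₀ ℤ]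
  [∀ n : ℤ, (shiftFunctor C₀ n).Additive] [Pretriangulated C₀]
  [MonoidalCategory C₀] [SymmetricCategory C₀] [RightRigidCategory C₀]
  {C : Type u'} [Category.{v'} C] [Preadditive C] [HasZeroObject C] [HasShift C ℤ]
  [∀ n : ℤ, (shiftFunctor C n).Additive] [Pretriangulated C]
  [MonoidalCategory C] [SymmetricCategory C] [TensorTriangulated C] [MonoidalPreadditive C]
  [RightRigidCategory C]
  {Λ : Type*} {E : Λ → Type w} [∀ l, Field (E l)]
  {R₀ : ∀ l, GReal C₀ (E l)} {R : ∀ l, GReal C (E l)}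
  {M₀ : ChowMotives R₀} {M : ChowMotives R} (B : BaseChange M₀ M)

namespace BaseChange

lemma cmp_ap (l : Λ) {X Y : C₀} (f : X ⟶ Y) (x : (R₀ l).V.obj X) :
    ((B.cmp l).iso.hom.app Y).hom ((R₀ l).ap f x) =
      (R l).ap (B.a.map f) (((B.cmp l).iso.hom.app X).hom x) := by
  have h := LinearMap.congr_fun (congrArg ModuleCat.Hom.hom ((B.cmp l).iso.hom.naturality f)) x
  exact h

lemma cmp_inj (l : Λ) {X : C₀} {x : (R₀ l).V.obj X} (h : ((B.cmp l).iso.hom.app X).hom x = 0) :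
    x = 0 := by
  have h1 := LinearMap.congr_fun (congrArg ModuleCat.Hom.hom
    (Iso.hom_inv_id_app (B.cmp l).iso X)) x
  change ((B.cmp l).iso.inv.app X).hom (((B.cmp l).iso.hom.app X).hom x) = x at h1
  rw [← h1, h, map_zero]

lemma cmp_surj (l : Λ) {X : C₀} (y : (R l).V.obj (B.a.obj X)) :
    ∃ x : (R₀ l).V.obj X, ((B.cmp l).iso.hom.app X).hom x = y := by
  have h1 := LinearMap.congr_fun (congrArg ModuleCat.Hom.hom
    (Iso.inv_hom_id_app (B.cmp l).iso X)) y
  exact ⟨((B.cmp l).iso.inv.app X).hom y, h1⟩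

lemma map_zero_iff (l : Λ) {X Y : C₀} (f : X ⟶ Y) :
    (R l).V.map (B.a.map f) = 0 ↔ (R₀ l).V.map f = 0 := by
  rw [GReal.map_eq_zero_iff, GReal.map_eq_zero_iff]
  constructor
  · intro h x
    apply B.cmp_inj l
    rw [cmp_ap, h]
  · intro h y
    obtain ⟨x, rfl⟩ := B.cmp_surj l y
    rw [← cmp_ap, h, map_zero]

lemma bot_iff (l : Λ) (X : C₀) (n : ℤ) : (R l).gr (B.a.obj X) n = ⊥ ↔ (R₀ l).gr X n = ⊥ := by
  rw [Submodule.eq_bot_iff, Submodule.eq_bot_iff]
  constructor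
  · intro h x hx
    exact B.cmp_inj l (h _ (((B.cmp l).mem X n x).1 hx))
  · intro h y hy
    obtain ⟨x, rfl⟩ := B.cmp_surj l y
    rw [h x (((B.cmp l).mem X n x).2 hy), map_zero]

lemma wr_pow (W Y : C) (ξ : W ⟶ W) (n : ℕ) :
    (((End.of (ξ ▷ Y)) ^ n : End (W ⊗ Y)) : W ⊗ Y ⟶ W ⊗ Y) =
      (((End.of ξ) ^ n : End W) : W ⟶ W) ▷ Y := by
  induction n with
  | zero =>
    rw [pow_zero, pow_zero]
    exact (id_whiskerRight _ _).symm
  | succ n ih =>
    rw [pow_succ, pow_succ]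
    exact (congrArg (fun f => (ξ ▷ Y) ≫ f) ih).trans (comp_whiskerRight _ _ _).symm

include B in
/-- The properties of `k₀` imply those of `k`. -/
theorem good_up (h₀ : Good R₀ M₀.Chow) : Good R M.Chow where
  inj l W s hW hs := by
    obtain ⟨K, ξ₀, s₀, κ, h1, h2, h3⟩ := B.push W (𝟙 W) s
    obtain ⟨h4, h5⟩ := (h3 l).1 hW hs
    have h6 := h₀.inj l K s₀ h4 h5
    rw [h1, h6, Functor.map_zero, zero_comp, comp_zero]
  nil l W ξ hξ := by
    obtain ⟨K, ξ₀, s₀, κ, h1, h2, h3⟩ := B.push (W ⊗ (Wᘁ : C)) (ξ ▷ (Wᘁ : C)) (η_ W Wᘁ)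
    obtain ⟨n, h4⟩ := (h3 l).2 ((R l).map_wr_zero ξ hξ _)
    obtain ⟨m, hm⟩ := h₀.nil l K _ h4
    have hm' : (End.of ξ₀) ^ (n * m) = 0 := by
      rw [pow_mul]
      exact hm
    refine ⟨n * m, ?_⟩
    have h6 : η_ W Wᘁ ≫ (((End.of (ξ ▷ (Wᘁ : C))) ^ (n * m) : End (W ⊗ (Wᘁ : C))) :
        W ⊗ (Wᘁ : C) ⟶ W ⊗ (Wᘁ : C)) = 0 := by
      have h7 := comm_pow κ (End.of (B.a.map ξ₀)) (End.of (ξ ▷ (Wᘁ : C))) h2 (n * m)
      have h8 : (((End.of (B.a.map ξ₀)) ^ (n * m) : End (B.a.obj K)) : B.a.obj K ⟶ B.a.obj K) =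
          0 := by
        have h9 : (End.of (B.a.map ξ₀)) ^ (n * m) = B.a.mapEnd K ((End.of ξ₀) ^ (n * m)) := by
          rw [map_pow]
          rfl
        rw [h9, hm']
        exact B.a.map_zero _ _
      rw [h1, Category.assoc, Category.assoc, h7, h8, zero_comp, comp_zero, comp_zero]
    rw [wr_pow] at h6
    exact eq_zero_of_nm _ h6
  num l P hP s hs := by
    obtain ⟨P₀, hP₀, ψ, s₀, h1, h2⟩ := B.num_up hP s l hs
    obtain ⟨r₀, hr₀⟩ := h₀.num l P₀ hP₀ s₀ h1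
    refine ⟨ψ ≫ B.a.map r₀ ≫ B.unit.hom, fun h0 => hr₀ ?_⟩
    apply B.a.map_injective
    rw [h2, Functor.map_zero, ← cancel_mono B.unit.hom, zero_comp]
    simp only [Category.assoc]
    rw [h0, comp_zero]

include B in
/-- The properties of `k` imply those of `k₀`. -/
theorem good_down (h : Good R M.Chow) : Good R₀ M₀.Chow where
  inj l W s hW hs := by
    have h1 : (R l).Ge (B.a.obj W) 0 := fun i hi => (B.bot_iff l W i).2 (hW i hi)
    have h2 := h.inj l _ (B.unit.inv ≫ B.a.map s) h1 (by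
      rw [Functor.map_comp, (B.map_zero_iff l s).2 hs, comp_zero])
    apply B.a.map_injective
    rw [← cancel_epi B.unit.inv, h2, Functor.map_zero, comp_zero]
  nil l W ξ hξ := by
    obtain ⟨n, hn⟩ := h.nil l _ (B.a.map ξ) ((B.map_zero_iff l ξ).2 hξ)
    refine ⟨n, ?_⟩
    apply B.a.map_injective
    have h9 : (End.of (B.a.map ξ)) ^ n = B.a.mapEnd W ((End.of ξ) ^ n) := by
      rw [map_pow]
      rfl
    rw [h9] at hn
    exact hn.trans (B.a.map_zero _ _).symm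
  num l P hP s hs := by
    have h1 : (R l).V.map (B.unit.inv ≫ B.a.map s) ≠ 0 := by
      intro h0
      apply hs
      rw [← B.map_zero_iff l]
      rw [Functor.map_comp] at h0
      rwa [← cancel_epi ((R l).V.map B.unit.inv), comp_zero]
    obtain ⟨r, hr⟩ := h.num l _ (B.chow hP) _ h1
    obtain ⟨r₀, hr₀⟩ := B.num_down hP r
    refine ⟨r₀, fun h0 => hr ?_⟩
    have h2 := hr₀ s
    rw [h0, Functor.map_zero] at h2
    have h3 : B.a.map s ≫ r = 0 := by
      rw [← cancel_mono B.unit.inv, Category.assoc, ← h2, zero_comp]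
    rw [Category.assoc, h3, comp_zero]

end BaseChange

end

end Pool.Agent.R920
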