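import Pool.Agent.R920.GR.Defs

/-!
# Basic properties of graded realisations
-/

set_option autoImplicit false
set_option linter.unusedSectionVars false
set_option backward.isDefEq.respectTransparency false
set_option backward.defeqAttrib.useBackward true

open CategoryTheory Limits MonoidalCategory Pretriangulated Triangulated TensorProduct
open Pool.Agent.Y116.MT (TensorTriangulated rotD)

namespace Pool.Agent.R920

universe v u w

section

variable {C : Type u} [Category.{v} C] [Preadditive C] [HasZeroObject C] [HasShift C ℤ]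
  [∀ n : ℤ, (shiftFunctor C n).Additive] [Pretriangulated C] [MonoidalCategory C]
  [SymmetricCategory C] {E : Type w} [Field E] (R : GReal C E)

namespace GReal

/-- The linear map induced by a morphism. -/
noncomputable abbrev ap {X Y : C} (f : X ⟶ Y) : R.V.obj X →ₗ[E] R.V.obj Y := (R.V.map f).hom

lemma ap_comp {X Y Z : C} (f : X ⟶ Y) (g : Y ⟶ Z) (x : R.V.obj X) :
    R.ap (f ≫ g) x = R.ap g (R.ap f x) := by
  simp [ap]

lemma ap_id (X : C) (x : R.V.obj X) : R.ap (𝟙 X) x = x := by simp [ap]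

lemma ap_zero {X Y : C} (x : R.V.obj X) : R.ap (0 : X ⟶ Y) x = 0 := by simp [ap]

lemma ap_neg {X Y : C} (f : X ⟶ Y) (x : R.V.obj X) : R.ap (-f) x = -R.ap f x := by
  simp [ap, Functor.map_neg]

lemma ap_add {X Y : C} (f g : X ⟶ Y) (x : R.V.obj X) : R.ap (f + g) x = R.ap f x + R.ap g x := by
  simp [ap, Functor.map_add]

lemma ap_sub {X Y : C} (f g : X ⟶ Y) (x : R.V.obj X) : R.ap (f - g) x = R.ap f x - R.ap g x := by
  simp [ap, Functor.map_sub]

lemma map_eq_zero_iff {X Y : C} (f : X ⟶ Y) : R.V.map f = 0 ↔ ∀ x, R.ap f x = 0 := by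
  constructor
  · intro h x
    simp [ap, h]
  · intro h
    ext x
    exact h x

/-- The decomposition into homogeneous parts. -/
noncomputable def dec (X : C) : (DirectSum ℤ fun i => R.gr X i) ≃ₗ[E] R.V.obj X :=
  LinearEquiv.ofBijective (DirectSum.coeLinearMap (R.gr X)) (R.internal X)

/-- The homogeneous part of degree `i`. -/
noncomputable def pr (X : C) (i : ℤ) : R.V.obj X →ₗ[E] R.V.obj X :=
  (R.gr X i).subtype ∘ₗ DirectSum.component E ℤ (fun i => R.gr X i) i ∘ₗ (R.dec X).symm.toLinearMap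

lemma pr_mem (X : C) (i : ℤ) (x : R.V.obj X) : R.pr X i x ∈ R.gr X i := by
  simp [pr]

lemma dec_lof (X : C) (i : ℤ) (x : R.gr X i) :
    R.dec X (DirectSum.lof E ℤ (fun i => R.gr X i) i x) = x := by
  simp [dec, DirectSum.coeLinearMap_lof]

lemma pr_of_mem {X : C} {i : ℤ} {x : R.V.obj X} (hx : x ∈ R.gr X i) : R.pr X i x = x := by
  have h : (R.dec X).symm x = DirectSum.lof E ℤ (fun i => R.gr X i) i ⟨x, hx⟩ := by
    rw [LinearEquiv.symm_apply_eq, dec_lof]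
  simp only [pr, LinearMap.comp_apply, LinearEquiv.coe_coe, h, DirectSum.component.lof_self,
    Submodule.subtype_apply]

lemma pr_of_mem_ne {X : C} {i j : ℤ} {x : R.V.obj X} (hx : x ∈ R.gr X j) (hij : j ≠ i) :
    R.pr X i x = 0 := by
  have h : (R.dec X).symm x = DirectSum.lof E ℤ (fun i => R.gr X i) j ⟨x, hx⟩ := by
    rw [LinearEquiv.symm_apply_eq, dec_lof]
  simp only [pr, LinearMap.comp_apply, LinearEquiv.coe_coe, h]
  rw [DirectSum.component.of, dif_neg hij]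
  simp

lemma ext_pr {X : C} {x y : R.V.obj X} (h : ∀ i, R.pr X i x = R.pr X i y) : x = y := by
  apply (R.dec X).symm.injective
  apply DFinsupp.ext
  intro i
  have := h i
  simp only [pr, LinearMap.comp_apply, LinearEquiv.coe_coe, Submodule.subtype_apply] at this
  exact Subtype.ext this

/-- Induction on homogeneous elements. -/
lemma hom_induction {X : C} {p : R.V.obj X → Prop} (x : R.V.obj X)
    (h0 : ∀ (i : ℤ) (y : R.V.obj X), y ∈ R.gr X i → p y)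
    (hz : p 0) (ha : ∀ y z, p y → p z → p (y + z)) : p x := by
  have h1 : x ∈ ⨆ i, R.gr X i := by
    rw [(R.internal X).submodule_iSup_eq_top]
    trivial
  exact Submodule.iSup_induction (R.gr X) (motive := p) h1 h0 hz ha

lemma pr_natural {X Y : C} (f : X ⟶ Y) (i : ℤ) (x : R.V.obj X) :
    R.pr Y i (R.ap f x) = R.ap f (R.pr X i x) := by
  refine R.hom_induction (p := fun x => R.pr Y i (R.ap f x) = R.ap f (R.pr X i x)) x ?_ ?_ ?_
  · intro j y hy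
    by_cases h : j = i
    · subst h
      rw [R.pr_of_mem hy, R.pr_of_mem (R.map_mem f hy)]
    · rw [R.pr_of_mem_ne hy h, R.pr_of_mem_ne (R.map_mem f hy) h, map_zero]
  · simp
  · intro y z hy hz
    simp only [map_add, hy, hz]

lemma pr_pr (X : C) (i : ℤ) (x : R.V.obj X) : R.pr X i (R.pr X i x) = R.pr X i x :=
  R.pr_of_mem (R.pr_mem X i x)

lemma pr_pr_ne (X : C) {i j : ℤ} (h : j ≠ i) (x : R.V.obj X) : R.pr X i (R.pr X j x) = 0 :=
  R.pr_of_mem_ne (R.pr_mem X j x) h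

lemma eq_zero_of_mem_ne {X : C} {i j : ℤ} {x : R.V.obj X} (hi : x ∈ R.gr X i)
    (hj : x ∈ R.gr X j) (hij : i ≠ j) : x = 0 := by
  rw [← R.pr_of_mem hj, R.pr_of_mem_ne hi hij]

lemma eq_zero_of_bot {X : C} (h : ∀ i, R.gr X i = ⊥) (x : R.V.obj X) : x = 0 := by
  apply R.ext_pr
  intro i
  have := R.pr_mem X i x
  rw [h i, Submodule.mem_bot] at this
  rw [this, map_zero]

/-- If all homogeneous parts but one vanish, every element is homogeneous. -/
lemma mem_of_conc {X : C} {n : ℤ} (h : ∀ i, i ≠ n → R.gr X i = ⊥) (x : R.V.obj X) :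
    x ∈ R.gr X n := by
  have : x = R.pr X n x := by
    apply R.ext_pr
    intro i
    by_cases hi : i = n
    · subst hi
      rw [pr_pr]
    · have h1 := R.pr_mem X i x
      rw [h i hi, Submodule.mem_bot] at h1
      rw [h1, R.pr_pr_ne X (Ne.symm hi)]
  rw [this]
  exact R.pr_mem X n x

section iso

lemma ap_iso_hom_inv {X Y : C} (e : X ≅ Y) (x : R.V.obj X) : R.ap e.inv (R.ap e.hom x) = x := by
  rw [← ap_comp, e.hom_inv_id, ap_id]

lemma ap_iso_inv_hom {X Y : C} (e : X ≅ Y) (x : R.V.obj Y) : R.ap e.hom (R.ap e.inv x) = x := by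
  rw [← ap_comp, e.inv_hom_id, ap_id]

/-- A retract of an object inherits the vanishing of homogeneous parts. -/
lemma bot_of_retract {X Y : C} (i : Y ⟶ X) (r : X ⟶ Y) (h : i ≫ r = 𝟙 Y) {n : ℤ}
    (hX : R.gr X n = ⊥) : R.gr Y n = ⊥ := by
  rw [eq_bot_iff]
  intro y hy
  have h1 : R.ap i y = 0 := by
    have := R.map_mem i hy
    rwa [hX, Submodule.mem_bot] at this
  have h2 : R.ap r (R.ap i y) = y := by rw [← ap_comp, h, ap_id]
  rw [h1, map_zero] at h2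
  simp [← h2]

lemma bot_of_iso {X Y : C} (e : X ≅ Y) {n : ℤ} (hX : R.gr X n = ⊥) : R.gr Y n = ⊥ :=
  R.bot_of_retract e.inv e.hom e.inv_hom_id hX

lemma bot_of_isZero {X : C} (h : IsZero X) (n : ℤ) : R.gr X n = ⊥ := by
  rw [eq_bot_iff]
  intro x _
  have h1 : R.ap (𝟙 X) x = x := R.ap_id X x
  rw [h.eq_of_src (𝟙 X) 0, ap_zero] at h1
  simp [← h1]

end iso

section tri

variable {X Y Z : C} {f : X ⟶ Y} {g : Y ⟶ Z} {h : Z ⟶ X⟦(1 : ℤ)⟧}
  (hT : Triangle.mk f g h ∈ distTriang C)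

include hT

/-- Exactness in each degree. -/
lemma ex2 {n : ℤ} {y : R.V.obj Y} (hy : y ∈ R.gr Y n) (h0 : R.ap g y = 0) :
    ∃ x ∈ R.gr X n, R.ap f x = y := by
  obtain ⟨x, hx⟩ := (R.exact _ hT y).1 h0
  refine ⟨R.pr X n x, R.pr_mem X n x, ?_⟩
  rw [← pr_natural]
  have : R.ap f x = y := hx
  rw [this, R.pr_of_mem hy]

lemma ex3 {n : ℤ} {z : R.V.obj Z} (hz : z ∈ R.gr Z n) (h0 : R.ap h z = 0) :
    ∃ y ∈ R.gr Y n, R.ap g y = z :=
  R.ex2 (rotD hT) hz h0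

lemma ex1 {n : ℤ} {x : R.V.obj X} (hx : x ∈ R.gr X (n + 1)) (h0 : R.ap f x = 0) :
    ∃ z ∈ R.gr Z n, R.sh X (R.ap h z) = x := by
  have h1 : (R.sh X).symm x ∈ R.gr (X⟦(1 : ℤ)⟧) n := by
    rw [R.sh_mem, LinearEquiv.apply_symm_apply]
    exact hx
  have h2 : R.ap (-f⟦(1 : ℤ)⟧') ((R.sh X).symm x) = 0 := by
    rw [ap_neg, neg_eq_zero]
    apply (R.sh Y).injective
    rw [R.sh_natural, LinearEquiv.apply_symm_apply, map_zero]
    exact h0
  obtain ⟨z, hz, h3⟩ := R.ex2 (rotD (rotD hT)) h1 h2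
  refine ⟨z, hz, ?_⟩
  rw [h3, LinearEquiv.apply_symm_apply]

/-- Injectivity of the first map. -/
lemma inj1 {n : ℤ} (hZ : R.gr Z n = ⊥) {x : R.V.obj X} (hx : x ∈ R.gr X (n + 1))
    (h0 : R.ap f x = 0) : x = 0 := by
  obtain ⟨z, hz, h1⟩ := R.ex1 hT hx h0
  rw [hZ, Submodule.mem_bot] at hz
  rw [← h1, hz, map_zero, map_zero]

lemma surj1 {n : ℤ} (hZ : R.gr Z n = ⊥) {y : R.V.obj Y} (hy : y ∈ R.gr Y n) :
    ∃ x ∈ R.gr X n, R.ap f x = y := by
  apply R.ex2 hT hy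
  have := R.map_mem g hy
  rwa [hZ, Submodule.mem_bot] at this

lemma inj2 {n : ℤ} (hX : R.gr X n = ⊥) {y : R.V.obj Y} (hy : y ∈ R.gr Y n)
    (h0 : R.ap g y = 0) : y = 0 := by
  obtain ⟨x, hx, h1⟩ := R.ex2 hT hy h0
  rw [hX, Submodule.mem_bot] at hx
  rw [← h1, hx, map_zero]

lemma surj2 {n : ℤ} (hX : R.gr X (n + 1) = ⊥) {z : R.V.obj Z} (hz : z ∈ R.gr Z n) :
    ∃ y ∈ R.gr Y n, R.ap g y = z := by
  apply R.ex3 hT hz
  have h1 := R.map_mem h hz
  rw [R.sh_mem, hX, Submodule.mem_bot] at h1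
  exact (R.sh X).map_eq_zero_iff.1 h1

lemma bot2 {n : ℤ} (hX : R.gr X n = ⊥) (hZ : R.gr Z n = ⊥) : R.gr Y n = ⊥ := by
  rw [eq_bot_iff]
  intro y hy
  obtain ⟨x, hx, h1⟩ := R.surj1 hT hZ hy
  rw [hX, Submodule.mem_bot] at hx
  simp [← h1, hx]

lemma bot3 {n : ℤ} (hY : R.gr Y n = ⊥) (hX : R.gr X (n + 1) = ⊥) : R.gr Z n = ⊥ := by
  rw [eq_bot_iff]
  intro z hz
  obtain ⟨y, hy, h1⟩ := R.surj2 hT hX hz
  rw [hY, Submodule.mem_bot] at hy
  simp [← h1, hy]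

lemma bot1 {n : ℤ} (hY : R.gr Y (n + 1) = ⊥) (hZ : R.gr Z n = ⊥) : R.gr X (n + 1) = ⊥ := by
  rw [eq_bot_iff]
  intro x hx
  have h1 := R.map_mem f hx
  rw [hY, Submodule.mem_bot] at h1
  simp [R.inj1 hT hZ hx h1]

end tri

section shift

lemma bot_shift_one {X : C} {n : ℤ} (h : R.gr X (n + 1) = ⊥) : R.gr (X⟦(1 : ℤ)⟧) n = ⊥ := by
  rw [eq_bot_iff]
  intro x hx
  rw [R.sh_mem, h, Submodule.mem_bot] at hx
  simp [(R.sh X).map_eq_zero_iff.1 hx]

lemma bot_of_shift_one {X : C} {n : ℤ} (h : R.gr (X⟦(1 : ℤ)⟧) n = ⊥) : R.gr X (n + 1) = ⊥ := by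
  rw [eq_bot_iff]
  intro x hx
  have h1 : (R.sh X).symm x ∈ R.gr (X⟦(1 : ℤ)⟧) n := by
    rw [R.sh_mem, LinearEquiv.apply_symm_apply]
    exact hx
  rw [h, Submodule.mem_bot] at h1
  simpa using h1

lemma bot_shift_nat {X : C} (k : ℕ) : ∀ {n : ℤ}, R.gr X (n + k) = ⊥ ↔ R.gr (X⟦(k : ℤ)⟧) n = ⊥ := by
  induction k with
  | zero =>
    intro n
    have e : X⟦((0 : ℕ) : ℤ)⟧ ≅ X := (shiftFunctorZero' C ((0 : ℕ) : ℤ) (by simp)).app X
    have h : n + ((0 : ℕ) : ℤ) = n := by simp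
    rw [h]
    exact ⟨R.bot_of_iso e.symm, R.bot_of_iso e⟩
  | succ k ih =>
    intro n
    have e : X⟦((k + 1 : ℕ) : ℤ)⟧ ≅ (X⟦(k : ℤ)⟧)⟦(1 : ℤ)⟧ :=
      (shiftFunctorAdd' C (k : ℤ) 1 ((k + 1 : ℕ) : ℤ) (by push_cast; ring)).app X
    have h : n + ((k + 1 : ℕ) : ℤ) = (n + 1) + k := by push_cast; ring
    rw [h, ih]
    exact ⟨fun h1 => R.bot_of_iso e.symm (R.bot_shift_one h1),
      fun h1 => R.bot_of_shift_one (R.bot_of_iso e h1)⟩

/-- The shift of the grading. -/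
lemma bot_shift {X : C} (k : ℤ) {n : ℤ} : R.gr (X⟦k⟧) n = ⊥ ↔ R.gr X (n + k) = ⊥ := by
  obtain ⟨m, rfl | rfl⟩ := Int.eq_nat_or_neg k
  · exact (R.bot_shift_nat m).symm
  · have e : (X⟦(-(m : ℤ))⟧)⟦(m : ℤ)⟧ ≅ X := shiftNegShift X (m : ℤ)
    have h1 := R.bot_shift_nat (X := X⟦(-(m : ℤ))⟧) m (n := n + -(m : ℤ))
    rw [show n + -(m : ℤ) + m = n by ring] at h1
    rw [h1]
    exact ⟨R.bot_of_iso e, R.bot_of_iso e.symm⟩

end shift

end GReal

end

end Pool.Agent.R920
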