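import Pool.Agent.R920.GR.Alt

/-!
# Chow motives with the hard Lefschetz theorem
-/

set_option autoImplicit false
set_option linter.unusedSectionVars false
set_option backward.isDefEq.respectTransparency false
set_option backward.defeqAttrib.useBackward true

open CategoryTheory Limits MonoidalCategory Pretriangulated Triangulated TensorProduct

namespace Pool.Agent.R920

universe v u w

section

variable {C : Type u} [Category.{v} C] [Preadditive C] [HasZeroObject C] [HasShift C ℤ]
  [∀ n : ℤ, (shiftFunctor C n).Additive] [Pretriangulated C] [MonoidalCategory C]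
  [SymmetricCategory C] {E : Type w} [Field E]

/-- The cohomology of `X` vanishes in degree `n`. -/
abbrev GReal.Van (R : GReal C E) (X : C) (n : ℤ) : Prop := R.gr X n = ⊥

/-- The morphism `f` is homologically trivial. -/
abbrev GReal.Kills (R : GReal C E) {X Y : C} (f : X ⟶ Y) : Prop := R.V.map f = 0

/-- The morphism `f` is zero on the cohomology in degree `n`. -/
abbrev GReal.KillsOn (R : GReal C E) {X Y : C} (f : X ⟶ Y) (n : ℤ) : Prop :=
  ∀ x ∈ R.gr X n, R.ap f x = 0

/-- The Betti number of `X` in degree `n`. -/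
noncomputable abbrev GReal.bet (R : GReal C E) (X : C) (n : ℤ) : ℕ := Module.finrank E (R.gr X n)

/-- The morphism `f` is bijective on the cohomology in degree `n`. -/
abbrev GReal.Bij (R : GReal C E) {X Y : C} (f : X ⟶ Y) (n : ℤ) : Prop :=
  (∀ x ∈ R.gr X n, R.ap f x = 0 → x = 0) ∧ (∀ y ∈ R.gr Y n, ∃ x ∈ R.gr X n, R.ap f x = y)

end

section

variable {C : Type u} [Category.{v} C] [Preadditive C] [HasZeroObject C] [HasShift C ℤ]
  [∀ n : ℤ, (shiftFunctor C n).Additive] [Pretriangulated C] [MonoidalCategory C]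
  [SymmetricCategory C] {Λ : Type*} {E : Λ → Type w} [∀ l, Field (E l)]

/-- The hard Lefschetz theorem for the object `Q`, with centre of symmetry `e`: the cohomology of
`Q` is bounded uniformly in `l`, and for every `k` there is a morphism `L : Q ⟶ Q ⊗ T k` which
induces isomorphisms `H^(e-k)(Q) ≅ H^(e-k)(Q ⊗ T k)` (which is `H^(e+k)(Q)`, up to a twist) for
all `l`. -/
structure HL (R : ∀ l, GReal C (E l)) (T : ℤ → C) (Q : C) (e : ℤ) : Prop where
  bdd : ∃ N : ℕ, ∀ l, (R l).Le Q (e + N) ∧ (R l).Ge Q (e - N)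
  lef (k : ℕ) : ∃ L : Q ⟶ Q ⊗ T k, ∀ l, (R l).Bij L (e - k)

/-- The Chow motives in a tensor triangulated category with realisations `R l`, and their known
properties. The object `T k` is the Tate object `𝟙(k)[2k]`. -/
structure ChowMotives [RightRigidCategory C] (R : ∀ l, GReal C (E l)) where
  /-- the property of being a Chow motive -/
  Chow : ObjectProperty C
  /-- the Tate objects `𝟙(k)[2k]` -/
  T : ℤ → C
  retract {X Y : C} (i : Y ⟶ X) (r : X ⟶ Y) : i ≫ r = 𝟙 Y → Chow X → Chow Y
  tensor {X Y : C} : Chow X → Chow Y → Chow (X ⊗ Y)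
  dual {X : C} : Chow X → Chow (Xᘁ : C)
  sum {X Y : C} : Chow X → Chow Y → Chow (X ⊞ Y)
  tate (k : ℤ) : Chow (T k)
  tate_inv (k : ℤ) : Nonempty (T k ⊗ T (-k) ≅ 𝟙_ C)
  tate_deg (l : Λ) (k i : ℤ) : i ≠ -2 * k → (R l).Van (T k) i
  /-- Chow motives have no positive extensions -/
  weight {X Y : C} : Chow X → Chow Y → ∀ m : ℤ, 0 < m → ∀ f : X ⟶ Y⟦m⟧, f = 0
  /-- by weights, a class in `H^n` of a Chow motive is not motivic for `n ≠ 0` -/
  pure {X : C} : Chow X → ∀ n : ℤ, n ≠ 0 → ∀ (s : 𝟙_ C ⟶ X⟦n⟧) (l : Λ), (R l).Kills s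
  /-- the Betti numbers of a Chow motive are independent of `l` -/
  betti {X : C} : Chow X → ∀ (l l' : Λ) (n : ℤ), (R l).bet X n = (R l').bet X n
  /-- every Chow motive is a direct summand of one which satisfies hard Lefschetz -/
  lefschetz {X : C} : Chow X → ∃ (Q : C) (i : X ⟶ Q) (r : Q ⟶ X) (e : ℤ),
    i ≫ r = 𝟙 X ∧ Chow Q ∧ HL R T Q e
  /-- the Chow motives generate the triangulated category -/
  generate (S : ObjectProperty C) : (∀ X Y : C, Nonempty (X ≅ Y) → S X → S Y) →
    (∀ X, S X → S (X⟦(1 : ℤ)⟧)) → (∀ X, S X → S (X⟦(-1 : ℤ)⟧)) →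
    (∀ T : Triangle C, T ∈ distTriang C → S T.obj₁ → S T.obj₃ → S T.obj₂) →
    (∀ X, Chow X → S X) → ∀ X, S X

end

end Pool.Agent.R920
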