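import Pool.Agent.Y116.MT.HomNum

/-!
# Graded realisations of rigid tensor triangulated categories

The definitions used in the statements about categories of constructible Voevodsky motives: a
realisation is a tensor functor to graded vector spaces (total cohomology with its grading), with
the Koszul sign in the symmetry, exact on distinguished triangles.
-/

set_option autoImplicit false
set_option backward.isDefEq.respectTransparency false
set_option backward.defeqAttrib.useBackward true

open CategoryTheory Limits MonoidalCategory Pretriangulated Triangulated TensorProduct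
open Pool.Agent.Y116.MT (TensorTriangulated)

namespace Pool.Agent.R920

universe v u w

section

variable {C : Type u} [Category.{v} C] [MonoidalCategory C] {E : Type w} [Field E]

/-- The product of `x` and `y` under a lax monoidal functor to vector spaces. -/
noncomputable def mul (V : C ⥤ ModuleCat.{w} E) [V.LaxMonoidal] {X Y : C} (x : V.obj X)
    (y : V.obj Y) : V.obj (X ⊗ Y) :=
  (Functor.LaxMonoidal.μ V X Y).hom (x ⊗ₜ[E] y)

/-- The unit element of `V (𝟙)`. -/
noncomputable def one (V : C ⥤ ModuleCat.{w} E) [V.LaxMonoidal] : V.obj (𝟙_ C) :=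
  (Functor.LaxMonoidal.ε V).hom (1 : E)

end

section

variable (C : Type u) [Category.{v} C] [Preadditive C] [HasZeroObject C] [HasShift C ℤ]
  [∀ n : ℤ, (shiftFunctor C n).Additive] [Pretriangulated C] [MonoidalCategory C]
  [SymmetricCategory C]

/-- A graded realisation of a tensor triangulated category `C` with coefficients in the field `E`:
`V X` is the total cohomology of `X`, and `gr X n` is its part of degree `n`. It is a monoidal
functor to finite dimensional graded vector spaces, the symmetry is realised with the Koszul sign,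
distinguished triangles are sent to exact sequences, and the shift of `C` is the shift of the
grading. -/
structure GReal (E : Type w) [Field E] where
  /-- the total cohomology -/
  V : C ⥤ ModuleCat.{w} E
  [additive : V.Additive]
  [monoidal : V.Monoidal]
  finite (X : C) : Module.Finite E (V.obj X)
  /-- the part of degree `n` -/
  gr (X : C) (n : ℤ) : Submodule E (V.obj X)
  internal (X : C) : DirectSum.IsInternal (gr X)
  map_mem {X Y : C} (f : X ⟶ Y) {n : ℤ} {x : V.obj X} : x ∈ gr X n → (V.map f).hom x ∈ gr Y n
  one_mem : one V ∈ gr (𝟙_ C) 0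
  mul_mem {X Y : C} {m n : ℤ} {x : V.obj X} {y : V.obj Y} : x ∈ gr X m → y ∈ gr Y n →
    mul V x y ∈ gr (X ⊗ Y) (m + n)
  braid {X Y : C} {m n : ℤ} {x : V.obj X} {y : V.obj Y} : x ∈ gr X m → y ∈ gr Y n →
    (V.map (β_ X Y).hom).hom (mul V x y) = (m * n).negOnePow • mul V y x
  exact (T : Triangle C) : T ∈ distTriang C →
    Function.Exact (V.map T.mor₁).hom (V.map T.mor₂).hom
  /-- the comparison of the cohomology of `X⟦1⟧` and of `X` -/
  sh (X : C) : V.obj (X⟦(1 : ℤ)⟧) ≃ₗ[E] V.obj X
  sh_natural {X Y : C} (f : X ⟶ Y) (x : V.obj (X⟦(1 : ℤ)⟧)) :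
    sh Y ((V.map (f⟦(1 : ℤ)⟧')).hom x) = (V.map f).hom (sh X x)
  sh_mem (X : C) (n : ℤ) (x : V.obj (X⟦(1 : ℤ)⟧)) :
    x ∈ gr (X⟦(1 : ℤ)⟧) n ↔ sh X x ∈ gr X (n + 1)

attribute [instance] GReal.additive GReal.monoidal GReal.finite

variable {C}

/-- The realisation of `X` is concentrated in degrees `≤ n`. -/
def GReal.Le {E : Type w} [Field E] (R : GReal C E) (X : C) (n : ℤ) : Prop :=
  ∀ i : ℤ, n < i → R.gr X i = ⊥

/-- The realisation of `X` is concentrated in degrees `≥ n`. -/
def GReal.Ge {E : Type w} [Field E] (R : GReal C E) (X : C) (n : ℤ) : Prop :=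
  ∀ i : ℤ, i < n → R.gr X i = ⊥

/-- A t-structure is motivic for the realisations `R l` if it is non-degenerate, compatible with
the tensor product, and all `R l` are t-exact. -/
structure IsMotivic (t : TStructure C) {Λ : Type*} {E : Λ → Type w} [∀ l, Field (E l)]
    (R : ∀ l, GReal C (E l)) : Prop where
  nondeg_le (X : C) : (∀ n : ℤ, t.le n X) → IsZero X
  nondeg_ge (X : C) : (∀ n : ℤ, t.ge n X) → IsZero X
  tensor_le (X Y : C) : t.le 0 X → t.le 0 Y → t.le 0 (X ⊗ Y)
  tensor_ge (X Y : C) : t.ge 0 X → t.ge 0 Y → t.ge 0 (X ⊗ Y)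
  exact_le (l : Λ) (X : C) : t.le 0 X → (R l).Le X 0
  exact_ge (l : Λ) (X : C) : t.ge 0 X → (R l).Ge X 0

end

end Pool.Agent.R920
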