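import Pool.Agent.R920.GR.Mul
import Pool.Agent.Y116.MT.Trace

/-!
# Duals, names and the supertrace formula
-/

set_option autoImplicit false
set_option linter.unusedSectionVars false
set_option backward.isDefEq.respectTransparency false
set_option backward.defeqAttrib.useBackward true

open CategoryTheory Limits MonoidalCategory Pretriangulated Triangulated TensorProduct
open Pool.Agent.Y116.MT (TensorTriangulated rotD nm nm_recover tr exists_tr opr opr_tmul opr_comp
  opr_trace)

namespace Pool.Agent.R920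

universe v u w

open Functor.LaxMonoidal

section

variable {C : Type u} [Category.{v} C] [Preadditive C] [HasZeroObject C] [HasShift C ℤ]
  [∀ n : ℤ, (shiftFunctor C n).Additive] [Pretriangulated C] [MonoidalCategory C]
  [SymmetricCategory C] {E : Type w} [Field E] (R : GReal C E)

namespace GReal

/-- The parity operator. -/
noncomputable def par (X : C) : R.V.obj X →ₗ[E] R.V.obj X :=
  (DirectSum.toModule E ℤ (R.V.obj X) fun i => i.negOnePow • (R.gr X i).subtype) ∘ₗ
    (R.dec X).symm.toLinearMap

lemma par_of_mem {X : C} {i : ℤ} {x : R.V.obj X} (hx : x ∈ R.gr X i) :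
    R.par X x = i.negOnePow • x := by
  have h : (R.dec X).symm x = DirectSum.lof E ℤ (fun i => R.gr X i) i ⟨x, hx⟩ := by
    rw [LinearEquiv.symm_apply_eq, dec_lof]
  simp only [par, LinearMap.comp_apply, LinearEquiv.coe_coe, h, DirectSum.toModule_lof]
  rfl

lemma nop_smul_smul {M : Type*} [AddCommGroup M] [Module E M] (i : ℤ) (x : M) :
    i.negOnePow • (i.negOnePow • x) = x := by
  rcases Int.even_or_odd i with h | h
  · rw [Int.negOnePow_even i h, one_smul, one_smul]
  · rw [Int.negOnePow_odd i h]
    simp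

lemma par_natural {X Y : C} (f : X ⟶ Y) (x : R.V.obj X) :
    R.par Y (R.ap f x) = R.ap f (R.par X x) := by
  refine R.hom_induction (p := fun x => R.par Y (R.ap f x) = R.ap f (R.par X x)) x ?_ ?_ ?_
  · intro j y hy
    rw [R.par_of_mem hy, R.par_of_mem (R.map_mem f hy)]
    rcases Int.even_or_odd j with h | h
    · rw [Int.negOnePow_even j h, one_smul, one_smul]
    · rw [Int.negOnePow_odd j h]
      simp
  · simp
  · intro y z hy hz
    simp only [map_add, hy, hz]

lemma nop_smul_map {M N : Type*} [AddCommGroup M] [Module E M] [AddCommGroup N] [Module E N]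
    (f : M →ₗ[E] N) (i : ℤ) (x : M) : f (i.negOnePow • x) = i.negOnePow • f x := by
  rcases Int.even_or_odd i with h | h
  · rw [Int.negOnePow_even i h, one_smul, one_smul]
  · rw [Int.negOnePow_odd i h]
    simp

section

variable [RightRigidCategory C]

/-- The grading of the dual. -/
lemma bot_dual {X : C} {n : ℤ} (h : R.gr X (-n) = ⊥) : R.gr (Xᘁ : C) n = ⊥ := by
  rw [eq_bot_iff]
  intro w hw
  have hz := ExactPairing.coevaluation_evaluation X Xᘁ
  have h1 : R.ap (Xᘁ ◁ η_ X Xᘁ ≫ (α_ Xᘁ X Xᘁ).inv ≫ ε_ X Xᘁ ▷ Xᘁ) (mul R.V w (one R.V)) = 0 := by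
    rw [ap_comp, ap_comp, ap_wl]
    generalize R.ap (η_ X Xᘁ) (one R.V) = ξ
    refine R.mul_induction (p := fun ξ => R.ap (ε_ X Xᘁ ▷ Xᘁ) (R.ap (α_ Xᘁ X Xᘁ).inv
      (mul R.V w ξ)) = 0) ξ ?_ ?_ ?_
    · intro a b x y hx hy
      rw [ap_assoc_inv, ap_wr]
      have h2 := R.map_mem (ε_ X Xᘁ) (R.mul_mem hw hx)
      by_cases hab : n + a = 0
      · obtain rfl : a = -n := by omega
        rw [h, Submodule.mem_bot] at hx
        rw [hx, mul_zero', map_zero, zero_mul']
      · rw [R.gr_unit hab, Submodule.mem_bot] at h2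
        rw [h2, zero_mul']
    · rw [mul_zero', map_zero, map_zero]
    · intro a b ha hb
      rw [mul_add', map_add, map_add, ha, hb, add_zero]
  rw [hz, ap_comp, ap_right, ap_left_inv] at h1
  have h2 := congrArg (R.ap (λ_ (Xᘁ : C)).hom) h1
  rw [ap_left, map_zero] at h2
  simp [h2]

lemma Le.dual {X : C} {a : ℤ} (hX : R.Le X a) : R.Ge (Xᘁ : C) (-a) := fun i hi =>
  R.bot_dual (hX (-i) (by omega))

lemma Ge.dual {X : C} {a : ℤ} (hX : R.Ge X a) : R.Le (Xᘁ : C) (-a) := fun i hi =>
  R.bot_dual (hX (-i) (by omega))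

lemma nm_zero {M N : C} (f : M ⟶ N) (hf : R.V.map f = 0) : R.V.map (nm f) = 0 := by
  rw [nm, Functor.map_comp, R.map_wr_zero f hf, comp_zero]

lemma zero_of_nm {M N : C} (f : M ⟶ N) (hf : R.V.map (nm f) = 0) : R.V.map f = 0 := by
  rw [nm_recover f]
  simp only [Functor.map_comp]
  rw [R.map_wr_zero _ hf, zero_comp, comp_zero]

/-- The evaluation pairing. -/
noncomputable def pai (X : C) : R.V.obj (Xᘁ : C) ⊗[E] R.V.obj X →ₗ[E] E :=
  (epE R.V).symm.toLinearMap ∘ₗ R.ap (ε_ X Xᘁ) ∘ₗ (muE R.V (Xᘁ : C) X).toLinearMap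

lemma pai_smul (X : C) (w : R.V.obj (Xᘁ : C)) (x : R.V.obj X) :
    R.pai X (w ⊗ₜ x) • one R.V = R.ap (ε_ X Xᘁ) (mul R.V w x) := by
  rw [← epE_one, ← map_smul, smul_eq_mul, mul_one]
  simp only [pai, LinearMap.comp_apply, LinearEquiv.coe_coe, LinearEquiv.apply_symm_apply,
    muE_tmul]

/-- The coevaluation tensor. -/
noncomputable def coe (X : C) : R.V.obj X ⊗[E] R.V.obj (Xᘁ : C) :=
  (muE R.V X (Xᘁ : C)).symm (R.ap (η_ X Xᘁ) (one R.V))

lemma opr_coe (X : C) : opr (R.pai X) LinearMap.id (R.coe X) = LinearMap.id := by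
  ext x
  have hz := ExactPairing.evaluation_coevaluation X Xᘁ
  have key : ∀ t : R.V.obj X ⊗[E] R.V.obj (Xᘁ : C),
      R.ap (X ◁ ε_ X Xᘁ) (R.ap (α_ X Xᘁ X).hom (mul R.V (muE R.V X (Xᘁ : C) t) x)) =
        mul R.V (opr (R.pai X) LinearMap.id t x) (one R.V) := by
    intro t
    induction t using TensorProduct.induction_on with
    | zero => simp [zero_mul']
    | add a b ha hb =>
      rw [map_add, add_mul', map_add, map_add, ha, hb, map_add, LinearMap.add_apply, add_mul']
    | tmul v w =>
      rw [muE_tmul, ap_assoc, ap_wl, opr_tmul, ← pai_smul, mul_smul']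
      simp only [LinearMap.smulRight_apply, LinearMap.comp_apply, TensorProduct.mk_apply,
        LinearMap.id_apply]
      rw [smul_mul']
  have h1 := key (R.coe X)
  have h2 : muE R.V X (Xᘁ : C) (R.coe X) = R.ap (η_ X Xᘁ) (one R.V) := by
    simp [coe]
  rw [h2, ← ap_wr, ← ap_comp, ← ap_comp, hz, ap_comp, ap_left, ap_right_inv] at h1
  have h3 := congrArg (R.ap (ρ_ X).hom) h1
  rw [ap_right, ap_right] at h3
  simpa using h3.symm

/-- The supertrace formula. -/
theorem ap_tr {X : C} (a : X ⟶ X) :
    R.ap (tr a) (one R.V) = LinearMap.trace E (R.V.obj X) (R.par X ∘ₗ R.ap a) • one R.V := by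
  have key : ∀ t : R.V.obj X ⊗[E] R.V.obj (Xᘁ : C),
      R.ap (ε_ X Xᘁ) (R.ap (β_ X Xᘁ).hom (R.ap (a ▷ Xᘁ) (muE R.V X (Xᘁ : C) t))) =
        R.pai X (TensorProduct.comm E (R.V.obj X) (R.V.obj (Xᘁ : C)) (TensorProduct.map
          (R.par X ∘ₗ R.ap a) LinearMap.id t)) • one R.V := by
    intro t
    induction t using TensorProduct.induction_on with
    | zero => simp
    | add a b ha hb => simp only [map_add, ha, hb, add_smul]
    | tmul x w =>
      rw [muE_tmul, ap_wr, TensorProduct.map_tmul, TensorProduct.comm_tmul, pai_smul]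
      simp only [LinearMap.comp_apply, LinearMap.id_apply]
      generalize R.ap a x = y
      refine R.hom_induction (p := fun y => R.ap (ε_ X Xᘁ) (R.ap (β_ X Xᘁ).hom (mul R.V y w)) =
        R.ap (ε_ X Xᘁ) (mul R.V w (R.par X y))) y ?_ ?_ ?_
      · intro i y hy
        refine R.hom_induction (p := fun w => R.ap (ε_ X Xᘁ) (R.ap (β_ X Xᘁ).hom (mul R.V y w)) =
          R.ap (ε_ X Xᘁ) (mul R.V w (R.par X y))) w ?_ ?_ ?_
        · intro j w hw
          have h2 := R.map_mem (ε_ X Xᘁ) (R.mul_mem hw hy)
          rw [R.ap_braid hy hw, R.par_of_mem hy, nop_smul_map]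
          by_cases hij : j + i = 0
          · obtain rfl : j = -i := by omega
            have h3 : (i * (-i)).negOnePow = i.negOnePow := by
              rw [Int.negOnePow_eq_iff]
              have : i * -i - i = -(i * (i + 1)) := by ring
              rw [this]
              exact (Int.even_mul_succ_self i).neg
            rw [h3]
            have h4 : mul R.V w (i.negOnePow • y) = i.negOnePow • mul R.V w y := by
              rcases Int.even_or_odd i with h | h
              · rw [Int.negOnePow_even i h, one_smul, one_smul]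
              · rw [Int.negOnePow_odd i h]
                simp [mul_neg']
            rw [h4, nop_smul_map]
          · rw [R.gr_unit hij, Submodule.mem_bot] at h2
            have h4 : mul R.V w (i.negOnePow • y) = i.negOnePow • mul R.V w y := by
              rcases Int.even_or_odd i with h | h
              · rw [Int.negOnePow_even i h, one_smul, one_smul]
              · rw [Int.negOnePow_odd i h]
                simp [mul_neg']
            rw [h4, nop_smul_map, h2, smul_zero, smul_zero]
        · rw [mul_zero', map_zero, map_zero, zero_mul', map_zero]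
        · intro a b ha hb
          rw [mul_add', map_add, map_add, ha, hb, add_mul', map_add]
      · rw [zero_mul', map_zero, map_zero, map_zero, mul_zero', map_zero]
      · intro a b ha hb
        rw [add_mul', map_add, map_add, ha, hb, map_add, mul_add', map_add]
  have h1 := key (R.coe X)
  have h2 : muE R.V X (Xᘁ : C) (R.coe X) = R.ap (η_ X Xᘁ) (one R.V) := by
    simp [coe]
  rw [h2, ← opr_trace, opr_comp, opr_coe, LinearMap.comp_id] at h1
  rw [← h1, tr]
  simp only [ap_comp]

end

end GReal

end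

end Pool.Agent.R920
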