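import Pool.Agent.R920.GR.Base

/-!
# Finite fields
-/

set_option autoImplicit false
set_option linter.unusedSectionVars false
set_option backward.isDefEq.respectTransparency false
set_option backward.defeqAttrib.useBackward true

open CategoryTheory Limits MonoidalCategory Pretriangulated Triangulated TensorProduct
open Pool.Agent.Y116.MT ObjectProperty

namespace Pool.Agent.R920

universe v u w

section

variable {C : Type u} [Category.{v} C] [Preadditive C] [HasZeroObject C] [HasShift C ℤ]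
  [∀ n : ℤ, (shiftFunctor C n).Additive] [Pretriangulated C]
  [MonoidalCategory C] [SymmetricCategory C] [RightRigidCategory C] [Linear ℚ C]
  {Λ : Type*} {E : Λ → Type w} [∀ l, Field (E l)] {R : ∀ l, GReal C (E l)}

/-- The Frobenius of a category of motives over a finite field: an endomorphism of every object,
natural, equal to the identity on the shifts of the unit, and such that on the cohomology of degree
`n ≠ 0` of a Chow motive it satisfies a polynomial equation with rational coefficients which does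
not have the root `1` (by the Weil conjectures). -/
structure FrobeniusEndo (M : ChowMotives R) where
  /-- the Frobenius -/
  F (X : C) : End X
  natural {X Y : C} (f : X ⟶ Y) : f ≫ (F Y : Y ⟶ Y) = (F X : X ⟶ X) ≫ f
  unit (n : ℤ) : (F ((𝟙_ C)⟦n⟧) : (𝟙_ C)⟦n⟧ ⟶ (𝟙_ C)⟦n⟧) = 𝟙 _
  weil {P : C} (hP : M.Chow P) (n : ℤ) (hn : n ≠ 0) : ∃ χ : Polynomial ℚ, χ.eval 1 ≠ 0 ∧
    ∀ l, (R l).KillsOn (Polynomial.aeval (R := ℚ) (F P) χ : End P) n

/-- Parshin's conjecture: the motivic cohomology of smooth projective varieties over a finite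
field is torsion outside of the Chow groups. -/
def Parshin (M : ChowMotives R) : Prop :=
  ∀ P : C, M.Chow P → ∀ n : ℤ, n ≠ 0 → ∀ s : 𝟙_ C ⟶ P⟦n⟧, s = 0

/-- Rational and numerical equivalence coincide (up to torsion). -/
def RatNum (M : ChowMotives R) : Prop :=
  ∀ P : C, M.Chow P → ∀ s : 𝟙_ C ⟶ P, s ≠ 0 → ∃ r : P ⟶ 𝟙_ C, s ≫ r ≠ 0

end

section

variable {C : Type u} [Category.{v} C] [Preadditive C] [HasZeroObject C] [HasShift C ℤ]
  [∀ n : ℤ, (shiftFunctor C n).Additive] [Pretriangulated C] [IsTriangulated C]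
  [MonoidalCategory C] [SymmetricCategory C] [TensorTriangulated C] [MonoidalPreadditive C]
  [RightRigidCategory C] [Linear ℚ C] [IsIdempotentComplete C]
  {Λ : Type*} [Nonempty Λ] {E : Λ → Type w} [∀ l, Field (E l)] [∀ l, CharZero (E l)]
  {R : ∀ l, GReal C (E l)}

omit [HasZeroObject C] [HasShift C ℤ] [∀ n : ℤ, (shiftFunctor C n).Additive] [Pretriangulated C]
  [IsTriangulated C] [MonoidalCategory C] [SymmetricCategory C] [TensorTriangulated C]
  [MonoidalPreadditive C] [RightRigidCategory C] [IsIdempotentComplete C] in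
/-- A morphism from an object on which `F` is the identity. -/
lemma comp_aeval {X Y : C} (F : End X) (s : Y ⟶ X) (h : s ≫ (F : X ⟶ X) = s)
    (p : Polynomial ℚ) : s ≫ (Polynomial.aeval (R := ℚ) F p : End X) = p.eval 1 • s := by
  induction p using Polynomial.induction_on' with
  | add p q hp hq =>
    rw [map_add, Polynomial.eval_add, add_smul, ← hp, ← hq]
    exact Preadditive.comp_add _ _ _ _ _ _
  | monomial n c =>
    rw [Polynomial.aeval_monomial, Polynomial.eval_monomial, one_pow, mul_one]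
    have h1 : ∀ n : ℕ, s ≫ (F ^ n : End X) = s := by
      intro n
      induction n with
      | zero => rw [pow_zero]; exact Category.comp_id s
      | succ n ih =>
        rw [pow_succ]
        have h2 : (F ^ n * F : End X) = (F : X ⟶ X) ≫ (F ^ n : End X) := rfl
        rw [h2, ← Category.assoc, h, ih]
    rw [Algebra.algebraMap_eq_smul_one, smul_mul_assoc, one_mul]
    have h3 : s ≫ (c • F ^ n : End X) = c • (s ≫ (F ^ n : End X)) :=
      Linear.comp_smul _ _ _ _ _ _
    rw [h3, h1]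

variable (M : ChowMotives R) (Fr : FrobeniusEndo M) (hg : Crit M)
  (hE : ∀ e : 𝟙_ C ⟶ 𝟙_ C, ∃ q : ℚ, e = q • 𝟙 (𝟙_ C))

include hg Fr

/-- Vanishing for Chow motives with cohomology in a non-zero degree. -/
lemma frob_vanish {X : C} (hX : M.Chow X) {b : ℤ} (hb : b ≠ 0)
    (hd : ∀ l n, n ≠ b → (R l).gr X n = ⊥) (n : ℤ) (s : (𝟙_ C)⟦n⟧ ⟶ X) : s = 0 := by
  obtain ⟨l0⟩ := ‹Nonempty Λ›
  obtain ⟨χ, h1, h2⟩ := Fr.weil hX b hb
  have h3 : (Polynomial.aeval (R := ℚ) (Fr.F X) χ : End X) = 0 := by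
    apply hg.hom_eq_zero M l0 ((Crit.chow_zero M).2 hX) ((Crit.chow_zero M).2 hX) hd hd le_rfl
    rw [GReal.map_eq_zero_iff]
    intro x
    exact h2 l0 x ((R l0).mem_of_conc (fun i hi => hd l0 i hi) x)
  have h4 : s ≫ (Fr.F X : X ⟶ X) = s := by
    rw [Fr.natural s, Fr.unit, Category.id_comp]
  have h5 := comp_aeval (Fr.F X) s h4 χ
  rw [h3] at h5
  have h5' : (0 : (𝟙_ C)⟦n⟧ ⟶ X) = χ.eval 1 • s := comp_zero.symm.trans h5
  clear h5
  have h5 := h5'
  have h6 : (χ.eval 1)⁻¹ • (χ.eval 1 • s) = 0 := by rw [← h5, smul_zero]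
  rwa [smul_smul, inv_mul_cancel₀ h1, one_smul] at h6

/-- Vanishing and faithfulness for Chow motives with cohomology in one degree. -/
lemma frob_one {X : C} (hX : M.Chow X) {b : ℤ} (hd : ∀ l n, n ≠ b → (R l).gr X n = ⊥) :
    (∀ n : ℤ, n ≠ 0 → ∀ s : 𝟙_ C ⟶ X⟦n⟧, s = 0) ∧
      (∀ l, ∀ s : 𝟙_ C ⟶ X, (R l).V.map s = 0 → s = 0) := by
  obtain ⟨l0⟩ := ‹Nonempty Λ›
  have : Nonempty Λ := ⟨l0⟩
  have h1C : M.Chow (𝟙_ C) := by
    obtain ⟨φ⟩ := M.tate_inv 0
    exact M.retract φ.inv φ.hom φ.inv_hom_id (M.tensor (M.tate 0) (M.tate (-0)))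
  by_cases hb : b = 0
  · subst hb
    constructor
    · intro n hn s
      rcases lt_or_gt_of_ne hn with h | h
      · exact hg.van l0 X hX 0 hd n h.le s (M.pure hX n hn s l0)
      · exact M.weight h1C hX n h s
    · intro l s hs
      have e : X⟦(0 : ℤ)⟧ ≅ X := (shiftFunctorZero C ℤ).app X
      have h1 := hg.van l X hX 0 hd 0 le_rfl (s ≫ e.inv) (by
        rw [Functor.map_comp, hs, zero_comp])
      rwa [← cancel_mono e.inv, zero_comp]
  · constructor
    · intro n _ s
      have h1 : (shiftFunctor C (-n)).map s ≫ ((shiftFunctorCompIsoId C n (-n) (by ring)).app X).hom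
          = 0 := frob_vanish M Fr hg hX hb hd (-n) _
      have h2 : (shiftFunctor C (-n)).map s = 0 := by
        rwa [← cancel_mono ((shiftFunctorCompIsoId C n (-n) (by ring)).app X).hom, zero_comp]
      exact (shiftFunctor C (-n)).map_injective (by rw [h2, Functor.map_zero])
    · intro l s _
      have e : (𝟙_ C)⟦(0 : ℤ)⟧ ≅ 𝟙_ C := (shiftFunctorZero C ℤ).app _
      have h1 := frob_vanish M Fr hg hX hb hd 0 (e.hom ≫ s)
      rwa [← cancel_epi e.hom, comp_zero]

include hE in
/-- The same for Chow motives. -/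
lemma frob_chow (k : ℕ) : ∀ (X : C) (m n : ℤ), n - m + 1 ≤ k → M.Chow X →
    (∀ l, (R l).Ge X m) → (∀ l, (R l).Le X n) →
    (∀ n : ℤ, n ≠ 0 → ∀ s : 𝟙_ C ⟶ X⟦n⟧, s = 0) ∧
      (∀ l, ∀ s : 𝟙_ C ⟶ X, (R l).V.map s = 0 → s = 0) := by
  obtain ⟨l0⟩ := ‹Nonempty Λ›
  have : Nonempty Λ := ⟨l0⟩
  induction k with
  | zero =>
    intro X m n hmn hX hge hle
    have h0 : ∀ l i, (R l).gr X i = ⊥ := by
      intro l i
      by_cases hi : i < m
      · exact hge l i hi
      · exact hle l i (by push_cast at hmn; omega)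
    have hz : IsZero X := by
      rw [IsZero.iff_id_eq_zero]
      exact hg.hom_eq_zero' M l0 ((Crit.chow_zero M).2 hX) ((Crit.chow_zero M).2 hX) (d := 0)
        (d' := 1) (fun l i _ => h0 l i) (fun l i _ => h0 l i) (by norm_num) _
    exact ⟨fun n _ s => (isZero_shift hz n).eq_of_tgt _ _, fun l s _ => hz.eq_of_tgt _ _⟩
  | succ k ih =>
    intro X m n hmn hX hge hle
    obtain ⟨A, i, r, hir, hA, hr⟩ := hg.split_chow M hE X hX m
    obtain ⟨Z, j, q, h1, h2, h3, h4⟩ := exists_complement i r hir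
    have hZC : M.Chow Z := M.retract j q h1 hX
    have hZge : ∀ l, (R l).Ge Z (m + 1) := by
      intro l b hb
      by_cases hbm : b < m
      · exact (R l).bot_of_retract j q h1 (hge l b hbm)
      · obtain rfl : b = m := by omega
        rw [eq_bot_iff]
        intro x hx
        have h5 : (R l).ap r ((R l).ap j x) = 0 := by rw [← GReal.ap_comp, h3, GReal.ap_zero]
        have h6 := hr l _ ((R l).map_mem j hx) h5
        change (R l).ap j x = 0 at h6
        have h7 : (R l).ap q ((R l).ap j x) = x := by rw [← GReal.ap_comp, h1, GReal.ap_id]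
        rw [← h7, h6, map_zero]
        exact Submodule.zero_mem _
    have hZle : ∀ l, (R l).Le Z n := fun l b hb => (R l).bot_of_retract j q h1 (hle l b hb)
    obtain ⟨hZ1, hZ2⟩ := ih Z (m + 1) n (by push_cast at hmn; omega) hZC hZge hZle
    obtain ⟨hA1, hA2⟩ := frob_one M Fr hg (M.retract i r hir hX) hA
    constructor
    · intro n hn s
      have h5 := hA1 n hn (s ≫ r⟦n⟧')
      have h6 := hZ1 n hn (s ≫ q⟦n⟧')
      have h7 : s ≫ (r ≫ i + q ≫ j)⟦n⟧' = 0 := by
        rw [Functor.map_add, Functor.map_comp, Functor.map_comp, Preadditive.comp_add,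
          reassoc_of% h5, reassoc_of% h6, zero_comp, zero_comp, add_zero]
      rwa [h4, CategoryTheory.Functor.map_id, Category.comp_id] at h7
    · intro l s hs
      have h5 := hA2 l (s ≫ r) (by rw [Functor.map_comp, hs, zero_comp])
      have h6 := hZ2 l (s ≫ q) (by rw [Functor.map_comp, hs, zero_comp])
      have h7 : s ≫ (r ≫ i + q ≫ j) = 0 := by
        rw [Preadditive.comp_add, reassoc_of% h5, reassoc_of% h6, zero_comp, zero_comp, add_zero]
      rwa [h4, Category.comp_id] at h7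

include hE in
/-- A motivic t-structure over a finite field implies Parshin's conjecture, and the equality of
rational and numerical equivalence. -/
theorem parshin_of_crit : Parshin M ∧ RatNum M := by
  have key : ∀ X : C, M.Chow X → (∀ n : ℤ, n ≠ 0 → ∀ s : 𝟙_ C ⟶ X⟦n⟧, s = 0) ∧
      (∀ l, ∀ s : 𝟙_ C ⟶ X, (R l).V.map s = 0 → s = 0) := by
    intro X hX
    obtain ⟨Q, i, r, e, hir, hQ, hHL⟩ := M.lefschetz hX
    obtain ⟨N, hN⟩ := hHL.bdd
    exact frob_chow M Fr hg hE (2 * N + 1) X (e - N) (e + N) (by push_cast; omega) hX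
      (fun l b hb => (R l).bot_of_retract i r hir ((hN l).2 b hb))
      (fun l b hb => (R l).bot_of_retract i r hir ((hN l).1 b hb))
  refine ⟨fun P hP => (key P hP).1, fun P hP s hs => ?_⟩
  obtain ⟨l0⟩ := ‹Nonempty Λ›
  exact hg.num l0 P hP s fun h0 => hs ((key P hP).2 l0 s h0)

end

section

variable {C : Type u} [Category.{v} C] [Preadditive C] [HasZeroObject C] [HasShift C ℤ]
  [∀ n : ℤ, (shiftFunctor C n).Additive] [Pretriangulated C] [IsTriangulated C]
  [MonoidalCategory C] [SymmetricCategory C] [TensorTriangulated C] [MonoidalPreadditive C]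
  [RightRigidCategory C] [Linear ℚ C] [IsIdempotentComplete C]
  {Λ : Type*} [Nonempty Λ] {E : Λ → Type w} [∀ l, Field (E l)] [∀ l, CharZero (E l)]
  {R : ∀ l, GReal C (E l)} (M : ChowMotives R)

variable (hN : RatNum M)
  (hE : ∀ e : 𝟙_ C ⟶ 𝟙_ C, ∃ q : ℚ, e = q • 𝟙 (𝟙_ C))

include hN hE

lemma nondeg' {X : C} (hX : M.Chow X) (a : X ⟶ X) (ha : a ≠ 0) :
    ∃ (b : X ⟶ X) (q : ℚ), q ≠ 0 ∧ tr (a ≫ b) = q • 𝟙 _ := by
  have h1 : nm a ≠ 0 := fun h => ha (eq_zero_of_nm a h)
  obtain ⟨r, hr⟩ := hN _ (M.tensor hX (M.dual hX)) (nm a) h1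
  obtain ⟨b, hb⟩ := exists_tr r
  obtain ⟨q, hq⟩ := hE (tr (a ≫ b))
  refine ⟨b, q, ?_, hq⟩
  rintro rfl
  rw [zero_smul] at hq
  rw [hb, hq] at hr
  exact hr rfl

/-- The realisations are faithful on Chow motives. -/
lemma faithful_end (l : Λ) {X : C} (hX : M.Chow X) (a : X ⟶ X) (ha : (R l).V.map a = 0) :
    a = 0 := by
  by_contra h
  obtain ⟨b, q, hq, hb⟩ := nondeg' M hN hE hX a h
  have h1 := (R l).strace_eq (a ≫ b) q hb
  have h2 : (R l).rho X (a ≫ b : X ⟶ X) = 0 := by
    ext x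
    change (R l).ap (a ≫ b) x = 0
    rw [GReal.ap_comp, ((R l).map_eq_zero_iff a).1 ha, map_zero]
  rw [h2, mul_zero, map_zero] at h1
  exact hq (by exact_mod_cast h1.symm)

lemma faithful_hom (l : Λ) {X Y : C} (hX : M.Chow X) (hY : M.Chow Y) (f : X ⟶ Y)
    (hf : (R l).V.map f = 0) : f = 0 := by
  have h1 := faithful_end M hN hE l (M.sum hX hY) (biprod.fst ≫ f ≫ biprod.inr) (by
    rw [Functor.map_comp, Functor.map_comp, hf, zero_comp, comp_zero])
  have h2 : (biprod.inl : X ⟶ X ⊞ Y) ≫ (biprod.fst ≫ f ≫ biprod.inr) ≫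
    (biprod.snd : X ⊞ Y ⟶ Y) = f := by simp
  rw [← h2, h1, zero_comp, comp_zero]

/-- Parshin's conjecture and the equality of rational and numerical equivalence imply the three
properties. -/
theorem crit_of_parshin (hP : Parshin M) : Crit M where
  nil l X hX ξ hξ := by
    have h1 : ξ = 0 := faithful_end M hN hE l hX ξ hξ
    exact ⟨1, by rw [pow_one]; exact h1⟩
  num l X hX s hs := hN X hX s (by
    rintro rfl
    exact hs (Functor.map_zero _ _ _))
  van l X hX b hb n hn s hs := by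
    by_cases h0 : n = 0
    · subst h0
      have h1C : M.Chow (𝟙_ C) := by
        obtain ⟨φ⟩ := M.tate_inv 0
        exact M.retract φ.inv φ.hom φ.inv_hom_id (M.tensor (M.tate 0) (M.tate (-0)))
      exact faithful_hom M hN hE l h1C ((Crit.chow_zero M).2 hX) s hs
    · exact hP X hX n h0 s

end

end Pool.Agent.R920
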