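import Pool.Agent.R920.GR.Fin

/-!
# The equivalences
-/

set_option autoImplicit false
set_option linter.unusedSectionVars false
set_option backward.isDefEq.respectTransparency false
set_option backward.defeqAttrib.useBackward true

open CategoryTheory Limits MonoidalCategory Pretriangulated Triangulated TensorProduct
open Pool.Agent.Y116.MT ObjectProperty

namespace Pool.Agent.R920

universe v u w v' u'

section

variable {C : Type u} [Category.{v} C] [Preadditive C] [HasZeroObject C] [HasShift C ℤ]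
  [∀ n : ℤ, (shiftFunctor C n).Additive] [Pretriangulated C] [IsTriangulated C]
  [MonoidalCategory C] [SymmetricCategory C] [TensorTriangulated C] [MonoidalPreadditive C]
  [RightRigidCategory C] [Linear ℚ C] [IsIdempotentComplete C]
  {Λ : Type*} [Nonempty Λ] {E : Λ → Type w} [∀ l, Field (E l)] [∀ l, CharZero (E l)]
  {R : ∀ l, GReal C (E l)}

/-- The three properties are equivalent to the existence of a motivic t-structure. -/
theorem exists_t_iff_good (M : ChowMotives R)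
    (hE : ∀ e : 𝟙_ C ⟶ 𝟙_ C, ∃ q : ℚ, e = q • 𝟙 (𝟙_ C)) :
    (∃ t : TStructure C, IsMotivic t R) ↔ Good R M.Chow := by
  constructor
  · rintro ⟨t, ht⟩
    exact ht.good (hid_of_hE hE) M
  · intro h
    obtain ⟨l⟩ := ‹Nonempty Λ›
    have h1 : Good (Λ := Unit) (E := fun _ => E l) (fun _ => R l) (M.single l).Chow :=
      ⟨fun _ => h.inj l, fun _ => h.nil l, fun _ => h.num l⟩
    exact h1.crit.exists_t M l hE

/-- The criterion for all `l`. -/
theorem exists_t_iff_crit (M : ChowMotives R)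
    (hE : ∀ e : 𝟙_ C ⟶ 𝟙_ C, ∃ q : ℚ, e = q • 𝟙 (𝟙_ C)) :
    (∃ t : TStructure C, IsMotivic t R) ↔ Crit M := by
  constructor
  · intro h
    exact ((exists_t_iff_good M hE).1 h).crit
  · intro h
    obtain ⟨l⟩ := ‹Nonempty Λ›
    refine Crit.exists_t M l ⟨fun _ => h.nil l, fun _ => h.num l, ?_⟩ hE
    intro _ X hX b hb n hn s hs
    refine h.van l X hX b (fun l' i hi => ?_) n hn s hs
    have h2 := M.betti hX l' l i
    unfold GReal.bet at h2
    rw [hb () i hi, finrank_bot] at h2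
    exact Submodule.finrank_eq_zero.1 h2

end

section

variable {C₀ : Type u} [Category.{v} C₀] [Preadditive C₀] [HasZeroObject C₀] [HasShift C₀ ℤ]
  [∀ n : ℤ, (shiftFunctor C₀ n).Additive] [Pretriangulated C₀] [IsTriangulated C₀]
  [MonoidalCategory C₀] [SymmetricCategory C₀] [TensorTriangulated C₀] [MonoidalPreadditive C₀]
  [RightRigidCategory C₀] [Linear ℚ C₀] [IsIdempotentComplete C₀]
  {C : Type u'} [Category.{v'} C] [Preadditive C] [HasZeroObject C] [HasShift C ℤ]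
  [∀ n : ℤ, (shiftFunctor C n).Additive] [Pretriangulated C] [IsTriangulated C]
  [MonoidalCategory C] [SymmetricCategory C] [TensorTriangulated C] [MonoidalPreadditive C]
  [RightRigidCategory C] [Linear ℚ C] [IsIdempotentComplete C]
  {Λ : Type*} [Nonempty Λ] {E : Λ → Type w} [∀ l, Field (E l)] [∀ l, CharZero (E l)]
  {R₀ : ∀ l, GReal C₀ (E l)} {R : ∀ l, GReal C (E l)}
  {M₀ : ChowMotives R₀} {M : ChowMotives R} (B : BaseChange M₀ M)

omit [IsTriangulated C₀] [TensorTriangulated C₀] [MonoidalPreadditive C₀]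
  [IsIdempotentComplete C₀] [IsTriangulated C] [TensorTriangulated C] [MonoidalPreadditive C]
  [IsIdempotentComplete C] [Nonempty Λ] [∀ l, CharZero (E l)] in
include B in
/-- The endomorphisms of the unit over `k₀`. -/
lemma BaseChange.unit_down (hE : ∀ e : 𝟙_ C ⟶ 𝟙_ C, ∃ q : ℚ, e = q • 𝟙 (𝟙_ C)) :
    ∀ e : 𝟙_ C₀ ⟶ 𝟙_ C₀, ∃ q : ℚ, e = q • 𝟙 (𝟙_ C₀) := by
  intro e
  obtain ⟨q, hq⟩ := hE (B.unit.inv ≫ B.a.map e ≫ B.unit.hom)
  refine ⟨q, B.a.map_injective ?_⟩
  have h1 : B.a.map e = q • 𝟙 _ := by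
    have h2 := congrArg (fun f => B.unit.hom ≫ f ≫ B.unit.inv) hq
    simpa using h2
  have h3 : (q.den : ℤ) • (B.a.map e) = (q.den : ℤ) • (B.a.map (q • 𝟙 (𝟙_ C₀))) := by
    have h4 : (q.den : ℤ) • (q • 𝟙 (𝟙_ C₀)) = q.num • 𝟙 (𝟙_ C₀) := by
      rw [← Int.cast_smul_eq_zsmul ℚ, ← Int.cast_smul_eq_zsmul ℚ q.num, smul_smul]
      congr 1
      push_cast
      rw [mul_comm]
      exact Rat.mul_den_eq_num q
    rw [← Functor.map_zsmul, ← Functor.map_zsmul, h4, Functor.map_zsmul, h1,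
      Functor.map_zsmul, CategoryTheory.Functor.map_id, ← Int.cast_smul_eq_zsmul ℚ,
      ← Int.cast_smul_eq_zsmul ℚ q.num, smul_smul]
    congr 1
    push_cast
    rw [mul_comm]
    exact Rat.mul_den_eq_num q
  have h5 : ((q.den : ℚ))⁻¹ • ((q.den : ℤ) • (B.a.map e)) =
      ((q.den : ℚ))⁻¹ • ((q.den : ℤ) • (B.a.map (q • 𝟙 (𝟙_ C₀)))) := by rw [h3]
  have h6 : ((q.den : ℚ))⁻¹ * ((q.den : ℤ) : ℚ) = 1 := by
    push_cast
    exact inv_mul_cancel₀ (by exact_mod_cast q.den_ne_zero)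
  rwa [← Int.cast_smul_eq_zsmul ℚ, ← Int.cast_smul_eq_zsmul ℚ, smul_smul, smul_smul, h6,
    one_smul, one_smul] at h5

include B in
/-- Independence of the base field. -/
theorem BaseChange.exists_t_iff (hE : ∀ e : 𝟙_ C ⟶ 𝟙_ C, ∃ q : ℚ, e = q • 𝟙 (𝟙_ C)) :
    (∃ t₀ : TStructure C₀, IsMotivic t₀ R₀) ↔ ∃ t : TStructure C, IsMotivic t R := by
  rw [exists_t_iff_good M₀ (B.unit_down hE), exists_t_iff_good M hE]
  exact ⟨B.good_up, B.good_down⟩

include B in
/-- Positive characteristic. -/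
theorem BaseChange.exists_t_iff_parshin (Fr : FrobeniusEndo M₀)
    (hE : ∀ e : 𝟙_ C ⟶ 𝟙_ C, ∃ q : ℚ, e = q • 𝟙 (𝟙_ C)) :
    (∃ t : TStructure C, IsMotivic t R) ↔ Parshin M₀ ∧ RatNum M₀ := by
  rw [← B.exists_t_iff hE, exists_t_iff_crit M₀ (B.unit_down hE)]
  exact ⟨fun h => parshin_of_crit M₀ Fr h (B.unit_down hE),
    fun h => crit_of_parshin M₀ h.2 (B.unit_down hE) h.1⟩

end

end Pool.Agent.R920
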