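import Pool.Agent.R920.GR.Dual

/-!
# t-exact graded realisations are faithful on the heart and conservative
-/

set_option autoImplicit false
set_option linter.unusedSectionVars false
set_option backward.isDefEq.respectTransparency false
set_option backward.defeqAttrib.useBackward true

open CategoryTheory Limits MonoidalCategory Pretriangulated Triangulated TensorProduct
open Pool.Agent.Y116.MT

namespace Pool.Agent.R920

universe v u w

open Functor.LaxMonoidal

section

variable {C : Type u} [Category.{v} C] [Preadditive C] [HasZeroObject C] [HasShift C ℤ]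
  [∀ n : ℤ, (shiftFunctor C n).Additive] [Pretriangulated C] [MonoidalCategory C]
  [SymmetricCategory C] [TensorTriangulated C] [MonoidalPreadditive C] [RightRigidCategory C]
  {E : Type w} [Field E] {t : TStructure C} {R : GReal C E}

/-- t-exactness of a graded realisation. -/
structure Ex (t : TStructure C) (R : GReal C E) : Prop where
  le (X : C) : t.le 0 X → R.Le X 0
  ge (X : C) : t.ge 0 X → R.Ge X 0

lemma Ex.isLE (he : Ex t R) {X : C} {n : ℤ} (h : t.IsLE X n) : R.Le X n := by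
  intro i hi
  have h1 : t.IsLE (X⟦n⟧) 0 := t.isLE_shift X n n 0
  have h2 := he.le _ h1.le (i - n) (by omega)
  rw [R.bot_shift n] at h2
  rwa [show i - n + n = i by ring] at h2

lemma Ex.isGE (he : Ex t R) {X : C} {n : ℤ} (h : t.IsGE X n) : R.Ge X n := by
  intro i hi
  have h1 : t.IsGE (X⟦n⟧) 0 := t.isGE_shift X n n 0
  have h2 := he.ge _ h1.ge (i - n) (by omega)
  rw [R.bot_shift n] at h2
  rwa [show i - n + n = i by ring] at h2

lemma Ex.deg (he : Ex t R) {X : C} (h : Hrt t X) {i : ℤ} (hi : i ≠ 0) : R.gr X i = ⊥ := by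
  rcases lt_or_gt_of_ne hi with h1 | h1
  · exact he.isGE h.2 i h1
  · exact he.isLE h.1 i h1

variable (ht : TensorCompat t) (he : Ex t R) (hu : Hrt t (𝟙_ C))
  (hid : ∀ e : 𝟙_ C ⟶ 𝟙_ C, e ≫ e = e → e = 0 ∨ e = 𝟙 _)

include ht he hu hid

lemma ap_ne_zero [IsTriangulated C] {Q : C} (s : 𝟙_ C ⟶ Q) (hQ : Hrt t Q) (hs : s ≠ 0) :
    R.ap s (one R.V) ≠ 0 := by
  obtain ⟨Z, q, δ, hT⟩ := distinguished_cocone_triangle s
  have hZ := unit_simple ht hu hid hT hQ hs
  intro h0
  have h1 : one R.V ∈ R.gr (𝟙_ C) (-1 + 1) := R.one_mem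
  exact one_ne_zero' R.V (R.inj1 hT (he.deg hZ (by omega)) h1 h0)

/-- A t-exact realisation is faithful on the heart. -/
theorem faithful_hrt [IsTriangulated C] {M N : C} (hM : Hrt t M) (hN : Hrt t N) (f : M ⟶ N)
    (hf : R.V.map f = 0) : f = 0 := by
  apply eq_zero_of_nm
  by_contra h
  refine ap_ne_zero ht he hu hid (nm f) (ht.hrt hN (dual_hrt ht hu hM)) h ?_
  exact (R.ap_unit_eq_zero _).1 (R.nm_zero f hf)

lemma hrt_zero [IsTriangulated C] {M : C} (hM : Hrt t M) (h : R.gr M 0 = ⊥) : IsZero M := by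
  rw [IsZero.iff_id_eq_zero]
  apply faithful_hrt ht he hu hid hM hM _
  rw [GReal.map_eq_zero_iff]
  intro x
  rw [R.ap_id]
  apply R.eq_zero_of_bot
  intro i
  by_cases hi : i = 0
  · rw [hi, h]
  · exact he.deg hM hi

lemma hrt_zero' [IsTriangulated C] {M : C} {n : ℤ} (h1 : t.IsLE M n) (h2 : t.IsGE M n)
    (h : R.gr M n = ⊥) : IsZero M := by
  refine isZero_of_shift n (hrt_zero ht he hu hid ⟨t.isLE_shift M n n 0, t.isGE_shift M n n 0⟩ ?_)
  rw [R.bot_shift n, zero_add, h]

variable (hle : ∀ X : C, (∀ n : ℤ, t.le n X) → IsZero X)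
  (hge : ∀ X : C, (∀ n : ℤ, t.ge n X) → IsZero X)

include hle hge

/-- A t-exact realisation is conservative. -/
theorem conservative' [IsTriangulated C] {X : C} (hX : ∀ i : ℤ, R.gr X i = ⊥) :
    IsZero X := by
  obtain ⟨A, B, hA, hB, f, g, h, hT⟩ := t.exists_triangle X 0 1 rfl
  have hA1 : t.IsLE A 0 := ⟨hA⟩
  have hB1 : t.IsGE B 1 := ⟨hB⟩
  have hAz : ∀ i : ℤ, R.gr A i = ⊥ := by
    intro i
    by_cases hi : i ≤ 0
    · have := R.bot1 hT (n := i - 1) (hX _) (he.isGE hB1 _ (by omega))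
      rwa [show i - 1 + 1 = i by ring] at this
    · exact he.isLE hA1 i (by omega)
  have hBz : ∀ i : ℤ, R.gr B i = ⊥ := fun i => R.bot3 hT (hX i) (hAz _)
  have hAn : ∀ n : ℕ, t.IsLE A (-n) := by
    intro n
    induction n with
    | zero => simpa using hA1
    | succ n ih =>
      obtain ⟨A', A'', hA', hA'', f', g', h', hT'⟩ := t.exists_triangle A (-(n + 1 : ℕ)) (-n)
        (by push_cast; omega)
      have h1 : t.IsLE A' (-(n + 1 : ℕ)) := ⟨hA'⟩
      have h2 : t.IsGE A'' (-n) := ⟨hA''⟩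
      have h3 : t.IsLE A'' (-n) := isLE3 hT' (t.isLE_of_le A' (-(n + 1 : ℕ)) (-n + 1)
        (by push_cast; omega)) ih
      have h4 : R.gr A' (-n + 1 : ℤ) = ⊥ := he.isLE h1 _ (by push_cast; omega)
      have h5 := hrt_zero' ht he hu hid h3 h2 (R.bot3 hT' (hAz _) h4)
      have h6 := isIso1_of_isZero3 hT' h5
      exact @TStructure.isLE_of_iso _ _ _ _ _ _ _ t _ _ (asIso f') _ h1
  have hBn : ∀ n : ℕ, t.IsGE B (n + 1) := by
    intro n
    induction n with
    | zero => simpa using hB1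
    | succ n ih =>
      obtain ⟨B', B'', hB', hB'', f', g', h', hT'⟩ := t.exists_triangle B (n + 1) (n + 2)
        (by omega)
      have h1 : t.IsLE B' (n + 1) := ⟨hB'⟩
      have h2 : t.IsGE B'' (n + 2) := ⟨hB''⟩
      have h3 : t.IsGE B' (n + 1) := isGE1 hT' ih (t.isGE_of_ge B'' (n + 1 - 1) (n + 2)
        (by omega))
      have h4 : R.gr B'' n = ⊥ := he.isGE h2 _ (by omega)
      have h5 := hrt_zero' ht he hu hid h1 h3 (R.bot1 hT' (hBz _) h4)
      have h6 := isIso2_of_isZero1 hT' h5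
      have h7 := @TStructure.isGE_of_iso _ _ _ _ _ _ _ t _ _ (asIso g').symm _ h2
      have h8 : ((n + 1 : ℕ) : ℤ) + 1 = n + 2 := by push_cast; ring
      rw [h8]
      exact h7
  have hA2 : IsZero A := hle A fun n => (t.isLE_of_le A (-(n.natAbs : ℤ)) n (by omega)).le
  have hB2 : IsZero B := hge B fun n => (t.isGE_of_ge B n ((n.natAbs : ℤ) + 1) (by omega)).ge
  exact isZero2 hT hA2 hB2

/-- The aisle is detected by a t-exact realisation. -/
theorem isLE_of_V [IsTriangulated C] {X : C} {n : ℤ} (hX : R.Le X n) : t.IsLE X n := by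
  obtain ⟨A, B, hA, hB, f, g, h, hT⟩ := t.exists_triangle X n (n + 1) rfl
  have hA1 : t.IsLE A n := ⟨hA⟩
  have hB1 : t.IsGE B (n + 1) := ⟨hB⟩
  have hBz : IsZero B := by
    apply conservative' ht he hu hid hle hge
    intro i
    by_cases hi : i < n + 1
    · exact he.isGE hB1 i hi
    · exact R.bot3 hT (hX i (by omega)) (he.isLE hA1 _ (by omega))
  have h6 := isIso1_of_isZero3 hT hBz
  exact @TStructure.isLE_of_iso _ _ _ _ _ _ _ t _ _ (asIso f) _ hA1

/-- The coaisle is detected by a t-exact realisation. -/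
theorem isGE_of_V [IsTriangulated C] {X : C} {n : ℤ} (hX : R.Ge X n) : t.IsGE X n := by
  obtain ⟨A, B, hA, hB, f, g, h, hT⟩ := t.exists_triangle X (n - 1) n (by omega)
  have hA1 : t.IsLE A (n - 1) := ⟨hA⟩
  have hB1 : t.IsGE B n := ⟨hB⟩
  have hAz : IsZero A := by
    apply conservative' ht he hu hid hle hge
    intro i
    by_cases hi : n - 1 < i
    · exact he.isLE hA1 i hi
    · have := R.bot1 hT (n := i - 1) (hX _ (by omega)) (he.isGE hB1 _ (by omega))
      rwa [show i - 1 + 1 = i by ring] at this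
  have h6 := isIso2_of_isZero1 hT hAz
  exact @TStructure.isGE_of_iso _ _ _ _ _ _ _ t _ _ (asIso g).symm _ hB1

omit [TensorTriangulated C] [MonoidalPreadditive C] [RightRigidCategory C] ht he hu hid hle hge in
/-- The total cohomology is bounded. -/
lemma GReal.bdd (R : GReal C E) (X : C) : ∃ N : ℕ, ∀ i : ℤ, N < i.natAbs → R.gr X i = ⊥ := by
  classical
  have hfin : {i : ℤ | R.gr X i ≠ ⊥}.Finite := by
    have := (R.internal X).submodule_iSupIndep
    exact WellFoundedGT.finite_ne_bot_of_iSupIndep this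
  obtain ⟨N, hN⟩ := (hfin.image Int.natAbs).bddAbove
  refine ⟨N, fun i hi => ?_⟩
  by_contra h
  have := hN ⟨i, h, rfl⟩
  omega

/-- Boundedness. -/
theorem bounded_of_V [IsTriangulated C] (X : C) : ∃ N : ℕ, t.IsLE X N ∧ t.IsGE X (-N) := by
  obtain ⟨N, hN⟩ := R.bdd X
  exact ⟨N, isLE_of_V ht he hu hid hle hge fun i hi => hN i (by omega),
    isGE_of_V ht he hu hid hle hge fun i hi => hN i (by omega)⟩

end

end Pool.Agent.R920
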