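import Pool.Agent.R920.GR.Basic

/-!
# Products in graded realisations
-/

set_option autoImplicit false
set_option linter.unusedSectionVars false
set_option backward.isDefEq.respectTransparency false
set_option backward.defeqAttrib.useBackward true

open CategoryTheory Limits MonoidalCategory Pretriangulated Triangulated TensorProduct
open Pool.Agent.Y116.MT (TensorTriangulated rotD)

namespace Pool.Agent.R920

universe v u w

open Functor.LaxMonoidal

section

variable {C : Type u} [Category.{v} C] [MonoidalCategory C] {E : Type w} [Field E]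
  (V : C ⥤ ModuleCat.{w} E) [V.LaxMonoidal]

lemma mul_add' {X Y : C} (x : V.obj X) (y y' : V.obj Y) : mul V x (y + y') = mul V x y + mul V x y' := by
  simp [mul, TensorProduct.tmul_add]

lemma add_mul' {X Y : C} (x x' : V.obj X) (y : V.obj Y) : mul V (x + x') y = mul V x y + mul V x' y := by
  simp [mul, TensorProduct.add_tmul]

lemma mul_smul' {X Y : C} (c : E) (x : V.obj X) (y : V.obj Y) : mul V x (c • y) = c • mul V x y := by
  simp [mul, TensorProduct.tmul_smul]

lemma smul_mul' {X Y : C} (c : E) (x : V.obj X) (y : V.obj Y) : mul V (c • x) y = c • mul V x y := by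
  simp [mul, ← TensorProduct.smul_tmul']

lemma mul_zero' {X Y : C} (x : V.obj X) : mul V x (0 : V.obj Y) = 0 := by
  simp [mul]

lemma zero_mul' {X Y : C} (y : V.obj Y) : mul V (0 : V.obj X) y = 0 := by
  simp [mul]

lemma mul_neg' {X Y : C} (x : V.obj X) (y : V.obj Y) : mul V x (-y) = -mul V x y := by
  simp [mul, TensorProduct.tmul_neg]

lemma neg_mul' {X Y : C} (x : V.obj X) (y : V.obj Y) : mul V (-x) y = -mul V x y := by
  simp [mul, TensorProduct.neg_tmul]

lemma map_whiskerRight_mul {X X' : C} (f : X ⟶ X') (Y : C) (x : V.obj X) (y : V.obj Y) :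
    (V.map (f ▷ Y)).hom (mul V x y) = mul V ((V.map f).hom x) y := by
  have h := LinearMap.congr_fun (congrArg ModuleCat.Hom.hom (μ_natural_left (F := V) f Y))
    (x ⊗ₜ[E] y : V.obj X ⊗[E] V.obj Y)
  exact h.symm

lemma map_whiskerLeft_mul (X : C) {Y Y' : C} (g : Y ⟶ Y') (x : V.obj X) (y : V.obj Y) :
    (V.map (X ◁ g)).hom (mul V x y) = mul V x ((V.map g).hom y) := by
  have h := LinearMap.congr_fun (congrArg ModuleCat.Hom.hom (μ_natural_right (F := V) X g))
    (x ⊗ₜ[E] y : V.obj X ⊗[E] V.obj Y)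
  exact h.symm

lemma map_assoc_mul {X Y Z : C} (x : V.obj X) (y : V.obj Y) (z : V.obj Z) :
    (V.map (α_ X Y Z).hom).hom (mul V (mul V x y) z) = mul V x (mul V y z) := by
  have h := LinearMap.congr_fun (congrArg ModuleCat.Hom.hom
    (Functor.LaxMonoidal.associativity (F := V) X Y Z))
    ((x ⊗ₜ[E] y) ⊗ₜ[E] z : (V.obj X ⊗[E] V.obj Y) ⊗[E] V.obj Z)
  exact h

lemma map_assoc_inv_mul {X Y Z : C} (x : V.obj X) (y : V.obj Y) (z : V.obj Z) :
    (V.map (α_ X Y Z).inv).hom (mul V x (mul V y z)) = mul V (mul V x y) z := by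
  rw [← map_assoc_mul]
  have h : ∀ a, (V.map (α_ X Y Z).inv).hom ((V.map (α_ X Y Z).hom).hom a) = a := by
    intro a
    have h1 := LinearMap.congr_fun (congrArg ModuleCat.Hom.hom (V.map_comp (α_ X Y Z).hom (α_ X Y Z).inv)) a
    rw [Iso.hom_inv_id, V.map_id] at h1
    exact h1.symm
  exact h _

lemma map_left_mul {X : C} (x : V.obj X) : (V.map (λ_ X).hom).hom (mul V (one V) x) = x := by
  have h := LinearMap.congr_fun (congrArg ModuleCat.Hom.hom
    (Functor.LaxMonoidal.left_unitality V X)) ((1 : E) ⊗ₜ[E] x : E ⊗[E] V.obj X)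
  have h2 : (λ_ (V.obj X)).hom.hom ((1 : E) ⊗ₜ[E] x : E ⊗[E] V.obj X) = x := by
    change (TensorProduct.lid E (V.obj X)) ((1 : E) ⊗ₜ[E] x) = x
    simp
  rw [h2] at h
  exact h.symm

lemma map_right_mul {X : C} (x : V.obj X) : (V.map (ρ_ X).hom).hom (mul V x (one V)) = x := by
  have h := LinearMap.congr_fun (congrArg ModuleCat.Hom.hom
    (Functor.LaxMonoidal.right_unitality V X)) (x ⊗ₜ[E] (1 : E) : V.obj X ⊗[E] E)
  have h2 : (ρ_ (V.obj X)).hom.hom (x ⊗ₜ[E] (1 : E) : V.obj X ⊗[E] E) = x := by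
    change (TensorProduct.rid E (V.obj X)) (x ⊗ₜ[E] (1 : E)) = x
    simp
  rw [h2] at h
  exact h.symm

end

section

variable {C : Type u} [Category.{v} C] [MonoidalCategory C] {E : Type w} [Field E]
  (V : C ⥤ ModuleCat.{w} E) [V.Monoidal]

/-- The product as a linear equivalence. -/
noncomputable def muE (X Y : C) : V.obj X ⊗[E] V.obj Y ≃ₗ[E] V.obj (X ⊗ Y) :=
  (Functor.Monoidal.μIso V X Y).toLinearEquiv

lemma muE_tmul {X Y : C} (x : V.obj X) (y : V.obj Y) : muE V X Y (x ⊗ₜ y) = mul V x y := rfl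

/-- The unit comparison as a linear equivalence. -/
noncomputable def epE : E ≃ₗ[E] V.obj (𝟙_ C) := (Functor.Monoidal.εIso V).toLinearEquiv

lemma epE_one : epE V (1 : E) = one V := rfl

lemma one_ne_zero' : one V ≠ 0 := by
  rw [← epE_one, Ne, LinearEquiv.map_eq_zero_iff]
  exact one_ne_zero

lemma eq_smul_one (x : V.obj (𝟙_ C)) : ∃ c : E, x = c • one V := by
  refine ⟨(epE V).symm x, ?_⟩
  rw [← epE_one, ← map_smul, smul_eq_mul, mul_one, LinearEquiv.apply_symm_apply]

lemma mul_eq_zero' {X Y : C} {x : V.obj X} {y : V.obj Y} (h : mul V x y = 0) : x = 0 ∨ y = 0 := by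
  rw [← muE_tmul, LinearEquiv.map_eq_zero_iff] at h
  by_contra hcon
  push Not at hcon
  obtain ⟨f, hf⟩ : ∃ f : Module.Dual E (V.obj X), f x ≠ 0 := by
    by_contra h1
    push Not at h1
    exact hcon.1 ((Module.forall_dual_apply_eq_zero_iff E x).1 h1)
  obtain ⟨g, hg⟩ : ∃ g : Module.Dual E (V.obj Y), g y ≠ 0 := by
    by_contra h1
    push Not at h1
    exact hcon.2 ((Module.forall_dual_apply_eq_zero_iff E y).1 h1)
  have h2 := congrArg (TensorProduct.lid E E) (congrArg (TensorProduct.map f g) h)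
  simp only [TensorProduct.map_tmul, TensorProduct.lid_tmul, smul_eq_mul, map_zero,
    mul_eq_zero] at h2
  rcases h2 with h2 | h2
  · exact hf h2
  · exact hg h2

end

section

variable {C : Type u} [Category.{v} C] [Preadditive C] [HasZeroObject C] [HasShift C ℤ]
  [∀ n : ℤ, (shiftFunctor C n).Additive] [Pretriangulated C] [MonoidalCategory C]
  [SymmetricCategory C] {E : Type w} [Field E] (R : GReal C E)

namespace GReal

lemma ap_wr {X X' : C} (f : X ⟶ X') (Y : C) (x : R.V.obj X) (y : R.V.obj Y) :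
    R.ap (f ▷ Y) (mul R.V x y) = mul R.V (R.ap f x) y := map_whiskerRight_mul _ _ _ _ _

lemma ap_wl (X : C) {Y Y' : C} (g : Y ⟶ Y') (x : R.V.obj X) (y : R.V.obj Y) :
    R.ap (X ◁ g) (mul R.V x y) = mul R.V x (R.ap g y) := map_whiskerLeft_mul _ _ _ _ _

lemma ap_assoc {X Y Z : C} (x : R.V.obj X) (y : R.V.obj Y) (z : R.V.obj Z) :
    R.ap (α_ X Y Z).hom (mul R.V (mul R.V x y) z) = mul R.V x (mul R.V y z) :=
  map_assoc_mul _ _ _ _

lemma ap_assoc_inv {X Y Z : C} (x : R.V.obj X) (y : R.V.obj Y) (z : R.V.obj Z) :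
    R.ap (α_ X Y Z).inv (mul R.V x (mul R.V y z)) = mul R.V (mul R.V x y) z :=
  map_assoc_inv_mul _ _ _ _

lemma ap_left {X : C} (x : R.V.obj X) : R.ap (λ_ X).hom (mul R.V (one R.V) x) = x :=
  map_left_mul _ _

lemma ap_right {X : C} (x : R.V.obj X) : R.ap (ρ_ X).hom (mul R.V x (one R.V)) = x :=
  map_right_mul _ _

lemma ap_left_inv {X : C} (x : R.V.obj X) : R.ap (λ_ X).inv x = mul R.V (one R.V) x := by
  conv_lhs => rw [← R.ap_left x]
  rw [ap_iso_hom_inv]

lemma ap_right_inv {X : C} (x : R.V.obj X) : R.ap (ρ_ X).inv x = mul R.V x (one R.V) := by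
  conv_lhs => rw [← R.ap_right x]
  rw [ap_iso_hom_inv]

lemma ap_braid {X Y : C} {m n : ℤ} {x : R.V.obj X} {y : R.V.obj Y} (hx : x ∈ R.gr X m)
    (hy : y ∈ R.gr Y n) :
    R.ap (β_ X Y).hom (mul R.V x y) = (m * n).negOnePow • mul R.V y x := R.braid hx hy

/-- Induction on products of homogeneous elements. -/
lemma mul_induction {X Y : C} {p : R.V.obj (X ⊗ Y) → Prop} (z : R.V.obj (X ⊗ Y))
    (h0 : ∀ (m n : ℤ) (x : R.V.obj X) (y : R.V.obj Y), x ∈ R.gr X m → y ∈ R.gr Y n →
      p (mul R.V x y))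
    (hz : p 0) (ha : ∀ y z, p y → p z → p (y + z)) : p z := by
  have h1 : ∀ t : R.V.obj X ⊗[E] R.V.obj Y, p (muE R.V X Y t) := by
    intro t
    induction t using TensorProduct.induction_on with
    | zero => rw [map_zero]; exact hz
    | add a b ha' hb' => rw [map_add]; exact ha _ _ ha' hb'
    | tmul x y =>
      rw [muE_tmul]
      refine R.hom_induction (p := fun x => p (mul R.V x y)) x ?_ ?_ ?_
      · intro i x hx
        refine R.hom_induction (p := fun y => p (mul R.V x y)) y ?_ ?_ ?_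
        · intro j y hy
          exact h0 _ _ _ _ hx hy
        · rw [mul_zero']; exact hz
        · intro a b h1 h2
          rw [mul_add']; exact ha _ _ h1 h2
      · rw [zero_mul']; exact hz
      · intro a b h1 h2
        rw [add_mul']; exact ha _ _ h1 h2
  have := h1 ((muE R.V X Y).symm z)
  rwa [LinearEquiv.apply_symm_apply] at this

/-- Vanishing of a homogeneous part of a tensor product. -/
lemma bot_tensor {X Y : C} {n : ℤ}
    (h : ∀ a b : ℤ, a + b = n → R.gr X a = ⊥ ∨ R.gr Y b = ⊥) : R.gr (X ⊗ Y) n = ⊥ := by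
  rw [eq_bot_iff]
  intro z hz
  have h1 : R.pr (X ⊗ Y) n z = 0 := by
    refine R.mul_induction (p := fun z => R.pr (X ⊗ Y) n z = 0) z ?_ ?_ ?_
    · intro a b x y hx hy
      by_cases hab : a + b = n
      · rcases h a b hab with h2 | h2
        · rw [h2, Submodule.mem_bot] at hx
          rw [hx, zero_mul', map_zero]
        · rw [h2, Submodule.mem_bot] at hy
          rw [hy, mul_zero', map_zero]
      · exact R.pr_of_mem_ne (R.mul_mem hx hy) hab
    · simp
    · intro y z h1 h2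
      rw [map_add, h1, h2, add_zero]
  rw [R.pr_of_mem hz] at h1
  simp [h1]

lemma Le.tensor {X Y : C} {a b : ℤ} (hX : R.Le X a) (hY : R.Le Y b) : R.Le (X ⊗ Y) (a + b) := by
  intro n hn
  apply R.bot_tensor
  intro i j hij
  by_cases h : a < i
  · exact Or.inl (hX i h)
  · exact Or.inr (hY j (by omega))

lemma Ge.tensor {X Y : C} {a b : ℤ} (hX : R.Ge X a) (hY : R.Ge Y b) : R.Ge (X ⊗ Y) (a + b) := by
  intro n hn
  apply R.bot_tensor
  intro i j hij
  by_cases h : i < a
  · exact Or.inl (hX i h)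
  · exact Or.inr (hY j (by omega))

lemma gr_unit {n : ℤ} (hn : n ≠ 0) : R.gr (𝟙_ C) n = ⊥ := by
  rw [eq_bot_iff]
  intro x hx
  obtain ⟨c, rfl⟩ := eq_smul_one R.V x
  have h1 := (R.gr (𝟙_ C) 0).smul_mem c R.one_mem
  simp [R.eq_zero_of_mem_ne hx h1 hn]

/-- The action of a morphism out of the unit is determined by the image of the unit. -/
lemma ap_unit_eq_zero {X : C} (s : 𝟙_ C ⟶ X) : R.V.map s = 0 ↔ R.ap s (one R.V) = 0 := by
  constructor
  · intro h
    exact (R.map_eq_zero_iff s).1 h _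
  · intro h
    rw [map_eq_zero_iff]
    intro x
    obtain ⟨c, rfl⟩ := eq_smul_one R.V x
    rw [map_smul, h, smul_zero]

lemma map_wr_zero {X X' : C} (f : X ⟶ X') (hf : R.V.map f = 0) (Y : C) : R.V.map (f ▷ Y) = 0 := by
  rw [map_eq_zero_iff] at hf ⊢
  intro z
  refine R.mul_induction (p := fun z => R.ap (f ▷ Y) z = 0) z ?_ ?_ ?_
  · intro m n x y _ _
    rw [ap_wr, hf, zero_mul']
  · simp
  · intro a b h1 h2
    rw [map_add, h1, h2, add_zero]

lemma map_wl_zero (X : C) {Y Y' : C} (f : Y ⟶ Y') (hf : R.V.map f = 0) : R.V.map (X ◁ f) = 0 := by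
  rw [map_eq_zero_iff] at hf ⊢
  intro z
  refine R.mul_induction (p := fun z => R.ap (X ◁ f) z = 0) z ?_ ?_ ?_
  · intro m n x y _ _
    rw [ap_wl, hf, mul_zero']
  · simp
  · intro a b h1 h2
    rw [map_add, h1, h2, add_zero]

include R in
lemma not_isZero_unit : ¬ IsZero (𝟙_ C) := fun h => by
  have h1 := R.bot_of_isZero h 0
  have h2 := R.one_mem
  rw [h1, Submodule.mem_bot] at h2
  exact one_ne_zero' R.V h2

end GReal

end

end Pool.Agent.R920
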