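import Pool.Agent.R920.GR.Peel

/-!
# Consequences of the existence of a motivic t-structure
-/

set_option autoImplicit false
set_option linter.unusedSectionVars false
set_option backward.isDefEq.respectTransparency false
set_option backward.defeqAttrib.useBackward true

open CategoryTheory Limits MonoidalCategory Pretriangulated Triangulated TensorProduct
open Pool.Agent.Y116.MT

namespace Pool.Agent.R920

universe v u w

section

variable {C : Type u} [Category.{v} C] [Preadditive C] [HasZeroObject C] [HasShift C ℤ]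
  [∀ n : ℤ, (shiftFunctor C n).Additive] [Pretriangulated C] [MonoidalCategory C]
  [SymmetricCategory C] {E : Type w} [Field E] (R : GReal C E)

namespace GReal

lemma map_zero_of_iso {X Y X' Y' : C} (e : X ≅ X') (e' : Y ≅ Y') (f : X ⟶ Y) (f' : X' ⟶ Y')
    (h : e.hom ≫ f' = f ≫ e'.hom) (hf : R.V.map f = 0) : R.V.map f' = 0 := by
  have h1 : f' = e.inv ≫ f ≫ e'.hom := by rw [← h, Iso.inv_hom_id_assoc]
  rw [h1, R.V.map_comp, R.V.map_comp, hf, zero_comp, comp_zero]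

lemma map_shift_one_zero {X Y : C} (f : X ⟶ Y) :
    R.V.map f = 0 ↔ R.V.map (f⟦(1 : ℤ)⟧') = 0 := by
  rw [map_eq_zero_iff, map_eq_zero_iff]
  constructor
  · intro h x
    apply (R.sh Y).injective
    rw [map_zero]
    exact (R.sh_natural f x).trans (h _)
  · intro h x
    have h1 := R.sh_natural f ((R.sh X).symm x)
    rw [LinearEquiv.apply_symm_apply] at h1
    have h2 : (R.V.map (f⟦(1 : ℤ)⟧')).hom ((R.sh X).symm x) = 0 := h _
    rw [h2, map_zero] at h1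
    exact h1.symm

lemma map_shift_nat_zero {X Y : C} (f : X ⟶ Y) (k : ℕ) :
    R.V.map f = 0 ↔ R.V.map (f⟦(k : ℤ)⟧') = 0 := by
  induction k with
  | zero =>
    have e := shiftFunctorZero' C ((0 : ℕ) : ℤ) (by simp)
    constructor
    · exact R.map_zero_of_iso (e.app X).symm (e.app Y).symm f _ (e.inv.naturality f).symm
    · exact R.map_zero_of_iso (e.app X) (e.app Y) _ f (e.hom.naturality f).symm
  | succ k ih =>
    rw [ih, map_shift_one_zero]
    have e := shiftFunctorAdd' C (k : ℤ) 1 ((k + 1 : ℕ) : ℤ) (by push_cast; ring)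
    constructor
    · exact R.map_zero_of_iso (e.app X).symm (e.app Y).symm _ _ (e.inv.naturality f).symm
    · exact R.map_zero_of_iso (e.app X) (e.app Y) _ _ (e.hom.naturality f).symm

lemma map_shift_zero {X Y : C} (f : X ⟶ Y) (k : ℤ) (h : R.V.map f = 0) :
    R.V.map (f⟦k⟧') = 0 := by
  obtain ⟨m, rfl | rfl⟩ := Int.eq_nat_or_neg k
  · exact (R.map_shift_nat_zero f m).1 h
  · rw [R.map_shift_nat_zero (f⟦(-(m : ℤ))⟧') m]
    have e := (shiftFunctorCompIsoId C (-(m : ℤ)) (m : ℤ) (by ring)).symm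
    exact R.map_zero_of_iso (e.app X) (e.app Y) f _ (e.hom.naturality f).symm h

end GReal

lemma comm_pow {A X : C} (i : A ⟶ X) (a : End A) (ξ : End X)
    (h : i ≫ (ξ : X ⟶ X) = (a : A ⟶ A) ≫ i) (n : ℕ) :
    i ≫ ((ξ ^ n : End X) : X ⟶ X) = ((a ^ n : End A) : A ⟶ A) ≫ i := by
  induction n with
  | zero =>
    rw [pow_zero, pow_zero]
    exact (Category.comp_id _).trans (Category.id_comp _).symm
  | succ n ih =>
    rw [pow_succ, pow_succ]
    have h1 : ((ξ ^ n * ξ : End X) : X ⟶ X) = (ξ : X ⟶ X) ≫ ((ξ ^ n : End X) : X ⟶ X) := rfl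
    have h2 : ((a ^ n * a : End A) : A ⟶ A) = (a : A ⟶ A) ≫ ((a ^ n : End A) : A ⟶ A) := rfl
    rw [h1, h2, ← Category.assoc, h, Category.assoc, ih, Category.assoc]

/-- Nilpotence of an endomorphism of a triangle. -/
lemma nilp_tri {A X B : C} {i : A ⟶ X} {g : X ⟶ B} {d : B ⟶ A⟦(1 : ℤ)⟧}
    (hT : Triangle.mk i g d ∈ distTriang C) (a : End A) (ξ : End X) (b : End B)
    (h1 : i ≫ (ξ : X ⟶ X) = (a : A ⟶ A) ≫ i) (h2 : g ≫ (b : B ⟶ B) = (ξ : X ⟶ X) ≫ g)
    (ha : IsNilpotent a) (hb : IsNilpotent b) : IsNilpotent ξ := by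
  obtain ⟨p, hp⟩ := ha
  obtain ⟨q, hq⟩ := hb
  refine ⟨p + q, ?_⟩
  have h3 := comm_pow i a ξ h1 p
  have h4 := comm_pow g ξ b h2 q
  rw [hp] at h3
  rw [hq] at h4
  have h5 : i ≫ ((ξ ^ p : End X) : X ⟶ X) = 0 := h3.trans zero_comp
  have h6 : ((ξ ^ q : End X) : X ⟶ X) ≫ g = 0 := h4.symm.trans comp_zero
  obtain ⟨l, hl⟩ := ce2 hT _ h6
  rw [pow_add]
  have h7 : ((ξ ^ p * ξ ^ q : End X) : X ⟶ X) =
    ((ξ ^ q : End X) : X ⟶ X) ≫ ((ξ ^ p : End X) : X ⟶ X) := rfl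
  rw [h7, hl, Category.assoc, h5, comp_zero]

end

section

variable {C : Type u} [Category.{v} C] [Preadditive C] [HasZeroObject C] [HasShift C ℤ]
  [∀ n : ℤ, (shiftFunctor C n).Additive] [Pretriangulated C] [MonoidalCategory C]
  [SymmetricCategory C] {Λ : Type*} {E : Λ → Type w} [∀ l, Field (E l)]

/-- Untwisting a direct summand of `Q ⊗ T k`. -/
lemma spl_untwist {R : ∀ l, GReal C (E l)} {T : ℤ → C}
    (hTd : ∀ (l : Λ) (k i : ℤ), i ≠ -2 * k → (R l).gr (T k) i = ⊥)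
    (hTi : ∀ k : ℤ, Nonempty (T k ⊗ T (-k) ≅ 𝟙_ C)) {Q D : C} {k n : ℤ}
    (i : D ⟶ Q ⊗ T k) (r : Q ⊗ T k ⟶ D) (hir : i ≫ r = 𝟙 D)
    (hD : ∀ l m, m ≠ n → (R l).gr D m = ⊥)
    (hr : ∀ l, ∀ x ∈ (R l).gr (Q ⊗ T k) n, (R l).ap r x = 0 → x = 0) :
    Spl R Q (n + 2 * k) := by
  obtain ⟨φ⟩ := hTi k
  let Φ : (Q ⊗ T k) ⊗ T (-k) ≅ Q := α_ _ _ _ ≪≫ whiskerLeftIso Q φ ≪≫ ρ_ Q
  have hd : ∀ l m, m ≠ 2 * k → (R l).gr (T (-k)) m = ⊥ := fun l m hm => hTd l (-k) m (by omega)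
  refine ⟨D ⊗ T (-k), (i ▷ T (-k)) ≫ Φ.hom, Φ.inv ≫ (r ▷ T (-k)), ?_, fun l m hm => ?_,
    fun l x hx h0 => ?_⟩
  · rw [Category.assoc, Iso.hom_inv_id_assoc, ← comp_whiskerRight, hir, id_whiskerRight]
  · exact (R l).bot_tensor_conc (hd l) (hD l _ (by omega))
  · rw [GReal.ap_comp] at h0
    have hy := (R l).map_mem Φ.inv hx
    have h1 : ∀ z ∈ (R l).gr (Q ⊗ T k) n, (R l).ap i ((R l).ap r z) = z := by
      intro z hz
      have h2 : (R l).ap i ((R l).ap r z) - z ∈ (R l).gr (Q ⊗ T k) n :=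
        Submodule.sub_mem _ ((R l).map_mem i ((R l).map_mem r hz)) hz
      have h3 := hr l _ h2 (by
        rw [map_sub, ← GReal.ap_comp, hir, GReal.ap_id, sub_self])
      exact sub_eq_zero.1 h3
    have h4 := (R l).vanish_on_gr (hd l)
      ((R l).ap (i ▷ T (-k)) ∘ₗ (R l).ap (r ▷ T (-k)) - LinearMap.id) ?_ hy
    · simp only [LinearMap.sub_apply, LinearMap.comp_apply, LinearMap.id_apply] at h4
      change (R l).ap (i ▷ T (-k)) ((R l).ap (r ▷ T (-k)) ((R l).ap Φ.inv x)) -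
        (R l).ap Φ.inv x = 0 at h4
      rw [h0, map_zero, zero_sub, neg_eq_zero] at h4
      have h5 : (R l).ap Φ.hom ((R l).ap Φ.inv x) = x := (R l).ap_iso_inv_hom Φ x
      rw [h4, map_zero] at h5
      exact h5.symm
    · intro z hz t _
      simp only [LinearMap.sub_apply, LinearMap.comp_apply, LinearMap.id_apply]
      rw [GReal.ap_wr, GReal.ap_wr, h1 z (by
        convert hz using 2
        ring), sub_self]

end

section

variable {C : Type u} [Category.{v} C] [Preadditive C] [HasZeroObject C] [HasShift C ℤ]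
  [∀ n : ℤ, (shiftFunctor C n).Additive] [Pretriangulated C] [MonoidalCategory C]
  [SymmetricCategory C] [RightRigidCategory C] {Λ : Type*} {E : Λ → Type w} [∀ l, Field (E l)]

/-- Three consequences of the existence of a motivic t-structure. -/
structure Good (R : ∀ l, GReal C (E l)) (Chow : ObjectProperty C) : Prop where
  inj (l : Λ) (M : C) (s : 𝟙_ C ⟶ M) : (R l).Ge M 0 → (R l).V.map s = 0 → s = 0
  nil (l : Λ) (M : C) (ξ : M ⟶ M) : (R l).V.map ξ = 0 → IsNilpotent (End.of ξ)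
  num (l : Λ) (X : C) : Chow X → ∀ s : 𝟙_ C ⟶ X, (R l).V.map s ≠ 0 → ∃ r : X ⟶ 𝟙_ C, s ≫ r ≠ 0

/-- The three properties of Chow motives which characterise the existence of a motivic
t-structure: homologically trivial endomorphisms are nilpotent; homological and numerical
equivalence coincide; and for a Chow motive `X` with cohomology in degree `b` only, the morphisms
`𝟙 ⟶ X⟦n⟧` are detected by the realisation for `n ≤ b`. -/
structure Crit {R : ∀ l, GReal C (E l)} (M : ChowMotives R) : Prop where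
  nil (l : Λ) (X : C) : M.Chow X → ∀ ξ : X ⟶ X, (R l).V.map ξ = 0 → IsNilpotent (End.of ξ)
  num (l : Λ) (X : C) : M.Chow X → ∀ s : 𝟙_ C ⟶ X, (R l).V.map s ≠ 0 →
    ∃ r : X ⟶ 𝟙_ C, s ≫ r ≠ 0
  van (l : Λ) (X : C) : M.Chow X → ∀ b : ℤ, (∀ l i, i ≠ b → (R l).gr X i = ⊥) →
    ∀ n ≤ b, ∀ s : 𝟙_ C ⟶ X⟦n⟧, (R l).V.map s = 0 → s = 0

lemma Good.crit {R : ∀ l, GReal C (E l)} {M : ChowMotives R} (hg : Good R M.Chow) : Crit M where
  nil l X _ := hg.nil l X
  num := hg.num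
  van l X hX b hb n hn s hs := by
    refine hg.inj l _ s (fun i hi => ?_) hs
    rw [(R l).bot_shift n]
    exact hb l _ (by omega)

end

section

variable {C : Type u} [Category.{v} C] [Preadditive C] [HasZeroObject C] [HasShift C ℤ]
  [∀ n : ℤ, (shiftFunctor C n).Additive] [Pretriangulated C] [IsTriangulated C]
  [MonoidalCategory C] [SymmetricCategory C] [TensorTriangulated C] [MonoidalPreadditive C]
  [RightRigidCategory C] [Linear ℚ C]
  {Λ : Type*} {E : Λ → Type w} [∀ l, Field (E l)] {t : TStructure C} {R : ∀ l, GReal C (E l)}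

section

variable (hm : IsMotivic t R)

include hm

lemma IsMotivic.tc : TensorCompat t := ⟨hm.tensor_le, hm.tensor_ge⟩

lemma IsMotivic.ex (l : Λ) : Ex t (R l) := ⟨hm.exact_le l, hm.exact_ge l⟩

lemma IsMotivic.hu : Hrt t (𝟙_ C) := unit_hrt hm.tc hm.nondeg_le hm.nondeg_ge

variable (hid : ∀ e : 𝟙_ C ⟶ 𝟙_ C, e ≫ e = e → e = 0 ∨ e = 𝟙 _)

include hid

lemma IsMotivic.le_of_V (l : Λ) {X : C} {n : ℤ} (hX : (R l).Le X n) : t.IsLE X n :=
  isLE_of_V hm.tc (hm.ex l) hm.hu hid hm.nondeg_le hm.nondeg_ge hX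

lemma IsMotivic.ge_of_V (l : Λ) {X : C} {n : ℤ} (hX : (R l).Ge X n) : t.IsGE X n :=
  isGE_of_V hm.tc (hm.ex l) hm.hu hid hm.nondeg_le hm.nondeg_ge hX

lemma IsMotivic.cons (l : Λ) (X : C) (hX : ∀ i, (R l).gr X i = ⊥) : IsZero X :=
  conservative' hm.tc (hm.ex l) hm.hu hid hm.nondeg_le hm.nondeg_ge hX

lemma IsMotivic.faithful (l : Λ) {X Y : C} {n : ℤ} (hX : t.IsLE X n) (hX' : t.IsGE X n)
    (hY : t.IsLE Y n) (hY' : t.IsGE Y n) (f : X ⟶ Y) (hf : (R l).V.map f = 0) : f = 0 := by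
  have h1 := faithful_hrt hm.tc (hm.ex l) hm.hu hid
    (M := X⟦n⟧) (N := Y⟦n⟧) ⟨t.isLE_shift X n n 0, t.isGE_shift X n n 0⟩
    ⟨t.isLE_shift Y n n 0, t.isGE_shift Y n n 0⟩ (f⟦n⟧') ((R l).map_shift_zero f n hf)
  exact (shiftFunctor C n).map_injective (by rw [h1, CategoryTheory.Functor.map_zero])

lemma IsMotivic.inj (l : Λ) (M : C) (s : 𝟙_ C ⟶ M) (hM : (R l).Ge M 0)
    (hs : (R l).V.map s = 0) : s = 0 := by
  have h0 := hm.ge_of_V hid l hM
  obtain ⟨A, B, hA, hB, f, g, h, hT⟩ := t.exists_triangle M 0 1 rfl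
  have hA1 : t.IsLE A 0 := ⟨hA⟩
  have hB1 : t.IsGE B 1 := ⟨hB⟩
  have hA2 : t.IsGE A 0 := isGE1 hT h0 (t.isGE_of_ge B (0 - 1) 1)
  obtain ⟨s', hs'⟩ := ce2 hT s (@TStructure.zero_of_isLE_of_isGE _ _ _ _ _ _ _ t _ _ _ 0 1
    (by omega) hm.hu.1 hB1)
  have h1 : (R l).ap s' (one (R l).V) = 0 := by
    have h2 : (R l).ap s' (one (R l).V) ∈ (R l).gr A (-1 + 1) := (R l).map_mem s' (R l).one_mem
    refine (R l).inj1 hT ((hm.ex l).isGE hB1 _ (by omega)) h2 ?_
    rw [← GReal.ap_comp, ← hs']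
    exact ((R l).map_eq_zero_iff s).1 hs _
  have h3 : s' = 0 := by
    by_contra hne
    exact ap_ne_zero hm.tc (hm.ex l) hm.hu hid s' ⟨hA1, hA2⟩ hne h1
  rw [hs', h3, zero_comp]

lemma IsMotivic.nil_aux (l : Λ) (n : ℕ) : ∀ (X : C) (a b : ℤ), b - a ≤ n → t.IsGE X a →
    t.IsLE X b → ∀ ξ : X ⟶ X, (R l).V.map ξ = 0 → IsNilpotent (End.of ξ) := by
  induction n with
  | zero =>
    intro X a b hab h1 h2 ξ hξ
    have h3 : t.IsLE X a := t.isLE_of_le X b a (by omega)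
    have h4 := hm.faithful hid l h3 h1 h3 h1 ξ hξ
    exact ⟨1, by rw [pow_one]; exact h4⟩
  | succ n ih =>
    intro X a b hab h1 h2 ξ hξ
    obtain ⟨A, B, hA, hB, i, g, d, hT⟩ := t.exists_triangle X a (a + 1) rfl
    have hA1 : t.IsLE A a := ⟨hA⟩
    have hB1 : t.IsGE B (a + 1) := ⟨hB⟩
    have hA2 : t.IsGE A a := isGE1 hT h1 (t.isGE_of_ge B (a - 1) (a + 1))
    by_cases hab' : b ≤ a
    · have h3 : t.IsLE X a := t.isLE_of_le X b a hab'
      have h4 := hm.faithful hid l h3 h1 h3 h1 ξ hξ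
      exact ⟨1, by rw [pow_one]; exact h4⟩
    have hB2 : t.IsLE B b := isLE3 hT (t.isLE_of_le A a (b + 1) (by omega)) h2
    obtain ⟨ξA, hξA⟩ := ce2 hT (i ≫ ξ) (t.zero_of_isLE_of_isGE _ a (a + 1) (by omega) hA1 hB1)
    obtain ⟨ξB, hξB⟩ := ye2 hT (ξ ≫ g) (by
      rw [← Category.assoc, hξA, Category.assoc, comp12 hT, comp_zero])
    have hξ' := ((R l).map_eq_zero_iff ξ).1 hξ
    have h5 : (R l).V.map ξA = 0 := by
      rw [GReal.map_eq_zero_iff]
      intro x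
      have hx : x ∈ (R l).gr A a := (R l).mem_of_conc (fun j hj => by
        rcases lt_or_gt_of_ne hj with h | h
        · exact (hm.ex l).isGE hA2 j h
        · exact (hm.ex l).isLE hA1 j h) x
      have hx' : (R l).ap ξA x ∈ (R l).gr A (a - 1 + 1) := by
        rw [sub_add_cancel]
        exact (R l).map_mem ξA hx
      refine (R l).inj1 hT ((hm.ex l).isGE hB1 _ (by omega)) hx' ?_
      rw [← GReal.ap_comp, ← hξA, GReal.ap_comp, hξ']
    have h6 : (R l).V.map ξB = 0 := by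
      rw [GReal.map_eq_zero_iff]
      intro z
      refine (R l).hom_induction (p := fun z => (R l).ap ξB z = 0) z ?_ ?_ ?_
      · intro j z hz
        by_cases hj : j < a + 1
        · rw [(hm.ex l).isGE hB1 j hj, Submodule.mem_bot] at hz
          rw [hz, map_zero]
        · obtain ⟨y, _, rfl⟩ := (R l).surj2 hT ((hm.ex l).isLE hA1 _ (by omega)) hz
          rw [← GReal.ap_comp, ← hξB, GReal.ap_comp, hξ', map_zero]
      · simp
      · intro y z hy hz
        rw [map_add, hy, hz, add_zero]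
    have h7 := ih A a a (by omega) hA2 hA1 ξA h5
    have h8 := ih B (a + 1) b (by omega) hB1 hB2 ξB h6
    exact nilp_tri hT ξA ξ ξB hξA hξB.symm h7 h8

lemma IsMotivic.nil (l : Λ) (X : C) (ξ : X ⟶ X) (hξ : (R l).V.map ξ = 0) :
    IsNilpotent (End.of ξ) := by
  obtain ⟨N, h1, h2⟩ := bounded_of_V hm.tc (hm.ex l) hm.hu hid hm.nondeg_le hm.nondeg_ge X
  exact hm.nil_aux hid l (2 * N) X (-N) N (by push_cast; omega) h2 h1 ξ hξ

variable (M : ChowMotives R) [Nonempty Λ]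

/-- The extreme parts of a Chow motive satisfying hard Lefschetz split off. -/
lemma IsMotivic.split_ends (Q : C) (e : ℤ) (k : ℕ) (hQ : HL R M.T Q e)
    (hle : ∀ l, (R l).Le Q (e + k)) (hge : ∀ l, (R l).Ge Q (e - k)) :
    Spl R Q (e - k) ∧ Spl R Q (e + k) := by
  obtain ⟨l0⟩ := ‹Nonempty Λ›
  obtain ⟨L, hL⟩ := hQ.lef k
  have hTd : ∀ l m, m ≠ -2 * (k : ℤ) → (R l).gr (M.T k) m = ⊥ := fun l m hm => M.tate_deg l k m hm
  have hQ1 : t.IsGE Q (e - k) := hm.ge_of_V hid l0 (hge l0)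
  have hQT : t.IsLE (Q ⊗ M.T k) (e - k) := hm.le_of_V hid l0 (fun i hi =>
    (R l0).bot_tensor_conc (hTd l0) (hle l0 _ (by omega)))
  obtain ⟨A, B, hA, hB, i, p, d, hT⟩ := t.exists_triangle Q (e - k) (e - k + 1) rfl
  have hA1 : t.IsLE A (e - k) := ⟨hA⟩
  have hB1 : t.IsGE B (e - k + 1) := ⟨hB⟩
  have hA2 : t.IsGE A (e - k) := isGE1 hT hQ1 (t.isGE_of_ge B _ (e - k + 1))
  obtain ⟨A', B', hA', hB', i', g, d', hT'⟩ := t.exists_triangle (Q ⊗ M.T k) (e - k - 1) (e - k)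
    (by omega)
  have hA1' : t.IsLE A' (e - k - 1) := ⟨hA'⟩
  have hB1' : t.IsGE B' (e - k) := ⟨hB'⟩
  have hB2' : t.IsLE B' (e - k) := isLE3 hT' (t.isLE_of_le A' (e - k - 1) (e - k + 1)) hQT
  have hAd : ∀ l, ∀ n, n ≠ e - k → (R l).gr A n = ⊥ := by
    intro l n hn
    rcases lt_or_gt_of_ne hn with h | h
    · exact (hm.ex l).isGE hA2 n h
    · exact (hm.ex l).isLE hA1 n h
  have hBd : ∀ l, ∀ n, n ≠ e - k → (R l).gr B' n = ⊥ := by
    intro l n hn
    rcases lt_or_gt_of_ne hn with h | h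
    · exact (hm.ex l).isGE hB1' n h
    · exact (hm.ex l).isLE hB2' n h
  have hsA : ∀ l, ∀ x ∈ (R l).gr Q (e - k), ∃ y ∈ (R l).gr A (e - k), (R l).ap i y = x :=
    fun l x hx => (R l).surj1 hT ((hm.ex l).isGE hB1 _ (by omega)) hx
  have hiB : ∀ l, ∀ x ∈ (R l).gr (Q ⊗ M.T k) (e - k), (R l).ap g x = 0 → x = 0 :=
    fun l x hx h0 => (R l).inj2 hT' ((hm.ex l).isLE hA1' _ (by omega)) hx h0
  have hc : IsIso (i ≫ L ≫ g) := by
    refine (R l0).isIso_of_bij (hm.cons hid l0) _ (fun n x hx h0 => ?_) (fun n y hy => ?_)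
    · by_cases hn : n = e - k
      · subst hn
        rw [GReal.ap_comp, GReal.ap_comp] at h0
        have h1 := hiB l0 _ ((R l0).map_mem L ((R l0).map_mem i hx)) h0
        have h2 := (hL l0).1 _ ((R l0).map_mem i hx) h1
        have hx' : x ∈ (R l0).gr A (e - k - 1 + 1) := by rwa [sub_add_cancel]
        exact (R l0).inj1 hT ((hm.ex l0).isGE hB1 _ (by omega)) hx' h2
      · rwa [hAd l0 n hn, Submodule.mem_bot] at hx
    · by_cases hn : n = e - k
      · subst hn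
        obtain ⟨z, hz, rfl⟩ := (R l0).surj2 hT' ((hm.ex l0).isLE hA1' _ (by omega)) hy
        obtain ⟨w, hw, rfl⟩ := (hL l0).2 _ hz
        obtain ⟨x, hx, rfl⟩ := hsA l0 _ hw
        exact ⟨x, hx, by rw [GReal.ap_comp, GReal.ap_comp]⟩
      · rw [hBd l0 n hn, Submodule.mem_bot] at hy
        exact ⟨0, Submodule.zero_mem _, by rw [hy, map_zero]⟩
  constructor
  · refine ⟨A, i, L ≫ g ≫ inv (i ≫ L ≫ g), ?_, hAd, fun l x hx h0 => ?_⟩
    · have := IsIso.hom_inv_id (i ≫ L ≫ g)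
      simpa only [Category.assoc] using this
    · obtain ⟨y, hy, rfl⟩ := hsA l x hx
      rw [← GReal.ap_comp] at h0
      have h1 : i ≫ L ≫ g ≫ inv (i ≫ L ≫ g) = 𝟙 A := by
        have := IsIso.hom_inv_id (i ≫ L ≫ g)
        simpa only [Category.assoc] using this
      rw [h1, GReal.ap_id] at h0
      rw [h0, map_zero]
  · have h1 := spl_untwist (R := R) (T := M.T) M.tate_deg M.tate_inv (Q := Q) (k := k)
      (n := e - k) (inv (i ≫ L ≫ g) ≫ i ≫ L) g (by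
        have := IsIso.inv_hom_id (i ≫ L ≫ g)
        simpa only [Category.assoc] using this) hBd hiB
    rwa [show e - (k : ℤ) + 2 * k = e + k by ring] at h1

/-- All parts of the cohomology of a Chow motive satisfying hard Lefschetz split off. -/
lemma IsMotivic.split (Q : C) (e : ℤ) (hC : M.Chow Q) (hQ : HL R M.T Q e) (b : ℤ) :
    Spl R Q b := by
  obtain ⟨l0⟩ := ‹Nonempty Λ›
  have : Nonempty Λ := ⟨l0⟩
  obtain ⟨N, hN⟩ := hQ.bdd
  refine peel M.tate_deg M.Chow M.retract (fun A B m n _ _ h1 h2 hmn f => ?_)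
    (fun Q e k _ h2 h3 h4 => (hm.split_ends hid M Q e k h2 h3 h4).1)
    (fun Q e k _ h2 h3 h4 => (hm.split_ends hid M Q e k h2 h3 h4).2) N Q e hC hQ
    (fun l => (hN l).1) (fun l => (hN l).2) b
  exact t.zero_of_isLE_of_isGE f m n hmn (hm.le_of_V hid l0 (fun i hi => h1 l0 i (by omega)))
    (hm.ge_of_V hid l0 (fun i hi => h2 l0 i (by omega)))

lemma IsMotivic.num (l : Λ) (X : C) (hX : M.Chow X) (s : 𝟙_ C ⟶ X) (hs : (R l).V.map s ≠ 0) :
    ∃ r : X ⟶ 𝟙_ C, s ≫ r ≠ 0 := by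
  obtain ⟨Q, i, r, e, hir, hQ, hHL⟩ := M.lefschetz hX
  obtain ⟨A, iA, rA, hA, hAd, hAi⟩ := hm.split hid M Q e hQ hHL 0
  have hAh : Hrt t A := by
    constructor
    · exact hm.le_of_V hid l fun n hn => hAd l n (by omega)
    · exact hm.ge_of_V hid l fun n hn => hAd l n (by omega)
  have hAC : M.Chow A := M.retract iA rA hA hQ
  have h1C : M.Chow (𝟙_ C) := by
    obtain ⟨φ⟩ := M.tate_inv 0
    exact M.retract φ.inv φ.hom φ.inv_hom_id (M.tensor (M.tate 0) (M.tate (-0)))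
  have hs' : s ≫ i ≫ rA ≠ 0 := by
    intro h0
    apply hs
    rw [GReal.ap_unit_eq_zero]
    have h1 : (R l).ap rA ((R l).ap i ((R l).ap s (one (R l).V))) = 0 := by
      rw [← GReal.ap_comp, ← GReal.ap_comp, h0, GReal.ap_zero]
    have h2 := hAi l _ ((R l).map_mem i ((R l).map_mem s (R l).one_mem)) h1
    have h3 : (R l).ap r ((R l).ap i ((R l).ap s (one (R l).V))) =
        (R l).ap s (one (R l).V) := by
      rw [← GReal.ap_comp, hir, GReal.ap_id]
    rw [← h3]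
    change (R l).ap i ((R l).ap s (one (R l).V)) = 0 at h2
    rw [h2, map_zero]
  obtain ⟨r', hr'⟩ := hrt_pairing hm.tc (hm.ex l) hm.hu hid hAh M.Chow h1C
    (fun X hX => M.tensor hX hAC) (fun X hX m hm' f => M.weight hX h1C m hm' f) _ hs'
  exact ⟨i ≫ rA ≫ r', by simpa only [Category.assoc] using hr'⟩

/-- A motivic t-structure implies the three properties. -/
theorem IsMotivic.good : Good R M.Chow :=
  ⟨hm.inj hid, hm.nil hid, hm.num hid M⟩

end

end

end Pool.Agent.R920
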