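import Mathlib

/-!
# Von Neumann regularity from a non-degenerate rational supertrace form
-/

set_option autoImplicit false
set_option linter.unusedSectionVars false

namespace Pool.Agent.R920

section

variable {A : Type*} [Ring A] [Algebra ℚ A] {E : Type*} [Field E] [Algebra ℚ E]
  {M : Type*} [AddCommGroup M] [Module E M] [Module.Finite E M]
  (ρ : A →+* Module.End E M) (τ : A →ₗ[ℚ] ℚ) (ε : Module.End E M)
  (hε : ∀ a, Commute ε (ρ a))
  (hτ : ∀ a, LinearMap.trace E M (ε * ρ a) = algebraMap ℚ E (τ a))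
  (hnd : ∀ a, a ≠ 0 → ∃ b, τ (a * b) ≠ 0)

include hτ hnd

lemma finite_of_supertrace : Module.Finite ℚ A := by
  classical
  obtain ⟨s, hs, hspan⟩ := (Submodule.fg_span_iff_fg_span_finset_subset
    (R := E) (Set.range ρ)).1 (IsNoetherian.noetherian _)
  choose g hg using fun x : s => hs x.2
  let f : A →ₗ[ℚ] (s → ℚ) := LinearMap.pi fun x => τ ∘ₗ LinearMap.mulRight ℚ (g x)
  have hf : Function.Injective f := by
    rw [injective_iff_map_eq_zero]
    intro a ha
    by_contra hne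
    obtain ⟨b, hb⟩ := hnd a hne
    apply hb
    let T : Module.End E M →ₗ[E] E := LinearMap.trace E M ∘ₗ LinearMap.mulLeft E (ε * ρ a)
    have h1 : ρ b ∈ Submodule.span E (Set.range ρ) := Submodule.subset_span ⟨b, rfl⟩
    rw [hspan] at h1
    have h2 : Submodule.span E (s : Set (Module.End E M)) ≤ LinearMap.ker T := by
      rw [Submodule.span_le]
      intro x hx
      have h3 := congrFun ha ⟨x, hx⟩
      have h4 : τ (a * g ⟨x, hx⟩) = 0 := h3
      have h5 : ρ (g ⟨x, hx⟩) = x := hg ⟨x, hx⟩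
      have h6 := hτ (a * g ⟨x, hx⟩)
      rw [h4, map_zero, map_mul ρ, h5, ← mul_assoc] at h6
      exact h6
    have h3 : T (ρ b) = 0 := h2 h1
    have h4 := hτ (a * b)
    rw [map_mul ρ, ← mul_assoc] at h4
    have h5 : algebraMap ℚ E (τ (a * b)) = 0 := h4.symm.trans h3
    exact (map_eq_zero _).1 h5
  exact Module.Finite.of_injective f hf

include hε in
theorem regular_of_supertrace (a : A) : ∃ b, a * b * a = a := by
  have h1 : Module.Finite ℚ A := finite_of_supertrace ρ τ ε hτ hnd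
  have h2 : IsArtinianRing A := IsArtinianRing.of_finite ℚ A
  have h3 : Ring.jacobson A = ⊥ := by
    rw [eq_bot_iff]
    intro x hx
    rw [Submodule.mem_bot]
    by_contra hne
    obtain ⟨b, hb⟩ := hnd x hne
    apply hb
    have h4 : x * b ∈ Ring.jacobson A := Ideal.mul_mem_right _ _ hx
    obtain ⟨n, hn⟩ : IsNilpotent (Ring.jacobson A) := IsSemiprimaryRing.isNilpotent
    have h5 : (x * b) ^ n = 0 := by
      have := Ideal.pow_mem_pow h4 n
      rwa [hn] at this
    have h6 : IsNilpotent (LinearMap.trace E M (ε * ρ (x * b))) := by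
      apply LinearMap.isNilpotent_trace_of_isNilpotent
      exact ⟨n, by rw [(hε (x * b)).mul_pow, ← map_pow, h5, map_zero, mul_zero]⟩
    have h7 := h6.eq_zero
    rw [hτ] at h7
    exact (map_eq_zero _).1 h7
  have h4 : IsSemisimpleRing A := IsArtinianRing.isSemisimpleRing_iff_jacobson.2 h3
  obtain ⟨N, hN⟩ := exists_isCompl (Submodule.span A ({a} : Set A))
  have h5 : (1 : A) ∈ Submodule.span A ({a} : Set A) ⊔ N := by
    rw [hN.sup_eq_top]
    trivial
  obtain ⟨x, hx, y, hy, hxy⟩ := Submodule.mem_sup.1 h5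
  obtain ⟨b, rfl⟩ := Submodule.mem_span_singleton.1 hx
  refine ⟨b, ?_⟩
  have h6 : a * y ∈ N := N.smul_mem a hy
  have h7 : a * y = a - a * b * a := by
    have : y = 1 - b * a := by rw [← hxy]; simp
    rw [this, mul_sub, mul_one, mul_assoc]
  have h8 : a * y ∈ Submodule.span A ({a} : Set A) := by
    rw [h7]
    exact Submodule.sub_mem _ (Submodule.mem_span_singleton_self a)
      (Submodule.mem_span_singleton.2 ⟨a * b, rfl⟩)
  have h9 : a * y = 0 := by
    have := hN.disjoint.le_bot ⟨h8, h6⟩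
    simpa using this
  rw [h7, sub_eq_zero] at h9
  exact h9.symm

end

section

variable {A : Type*} [Ring A] [Algebra ℚ A] {E : Type*} [Field E] [Algebra ℚ E]
  {M : Type*} [AddCommGroup M] [Module E M] [Module.Finite E M]

/-- Regularity modulo the kernel of a representation. -/
theorem regular_mod (ρ₀ : A →+* Module.End E M) (ε : Module.End E M)
    (hε : ∀ a, Commute ε (ρ₀ a))
    (hτ : ∀ a, ∃ q : ℚ, LinearMap.trace E M (ε * ρ₀ a) = algebraMap ℚ E q)
    (hnd : ∀ a, ρ₀ a ≠ 0 → ∃ b, LinearMap.trace E M (ε * (ρ₀ a * ρ₀ b)) ≠ 0) (a : A) :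
    ∃ b, ρ₀ (a * b * a) = ρ₀ a := by
  let _ : Algebra ℚ (Module.End E M) := Algebra.compHom _ (algebraMap ℚ E)
  let ρ : A →ₐ[ℚ] Module.End E M := RingHom.toRatAlgHom ρ₀
  let B := ρ.range
  let T : B →ₗ[ℚ] E :=
    { toFun := fun x => LinearMap.trace E M (ε * x.1)
      map_add' := fun x y => by
        simp [mul_add]
      map_smul' := fun q x => by
        have h1 : ε * ((q • x : B) : Module.End E M) = (algebraMap ℚ E q) • (ε * x.1) := by
          have h2 : ((q • x : B) : Module.End E M) = (algebraMap ℚ E q) • x.1 := rfl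
          rw [h2, mul_smul_comm]
        rw [h1, map_smul, RingHom.id_apply, Algebra.smul_def q, smul_eq_mul] }
  have hT : ∀ x : B, T x ∈ (Algebra.linearMap ℚ E).range := by
    rintro ⟨x, y, rfl⟩
    obtain ⟨q, hq⟩ := hτ y
    exact ⟨q, hq.symm⟩
  let e : ℚ ≃ₗ[ℚ] (Algebra.linearMap ℚ E).range :=
    LinearEquiv.ofInjective (Algebra.linearMap ℚ E) (algebraMap ℚ E).injective
  let τ : B →ₗ[ℚ] ℚ := e.symm.toLinearMap ∘ₗ T.codRestrict _ hT
  have hτ' : ∀ x : B, LinearMap.trace E M (ε * B.val.toRingHom x) = algebraMap ℚ E (τ x) := by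
    intro x
    have h1 : (e (τ x) : E) = T x := by simp [τ]
    exact h1.symm
  obtain ⟨⟨b, c, rfl⟩, hb⟩ := regular_of_supertrace (A := B) B.val.toRingHom τ ε (by
    rintro ⟨x, y, rfl⟩
    exact hε y) hτ' (by
    rintro ⟨x, y, rfl⟩ hx
    have hy : ρ y ≠ 0 := by
      intro h0
      apply hx
      ext1
      exact h0
    obtain ⟨b, hb⟩ := hnd y hy
    refine ⟨⟨ρ b, b, rfl⟩, fun h0 => hb ?_⟩
    have h1 := hτ' (⟨ρ y, y, rfl⟩ * ⟨ρ b, b, rfl⟩)
    have h2 : τ (⟨ρ y, y, rfl⟩ * ⟨ρ b, b, rfl⟩) = 0 := h0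
    rw [h2, map_zero] at h1
    exact h1) ⟨ρ a, a, rfl⟩
  refine ⟨c, ?_⟩
  have h2 := congrArg Subtype.val hb
  rw [map_mul ρ₀, map_mul ρ₀]
  exact h2

end

end Pool.Agent.R920
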