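import Mathlib

/-!
# Iterated extensions
-/

set_option autoImplicit false
set_option linter.unusedSectionVars false
set_option backward.isDefEq.respectTransparency false
set_option backward.defeqAttrib.useBackward true

open CategoryTheory Limits Pretriangulated Triangulated ObjectProperty

namespace Pool.Agent.R920

universe v u

section

variable {C : Type u} [Category.{v} C] [Preadditive C] [HasZeroObject C] [HasShift C ℤ]
  [∀ n : ℤ, (shiftFunctor C n).Additive] [Pretriangulated C]

/-- The zero objects. -/
def zer (C : Type u) [Category.{v} C] : ObjectProperty C := fun X => IsZero X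

instance : (zer C).IsClosedUnderIsomorphisms := ⟨fun e h => IsZero.of_iso h e.symm⟩

instance : (zer C).ContainsZero := ⟨⟨_, isZero_zero C, isZero_zero C⟩⟩

/-- The objects obtained by `n` extensions from the objects of `P`. -/
def tow (P : ObjectProperty C) : ℕ → ObjectProperty C
  | 0 => zer C
  | n + 1 => extensionProduct P (tow P n)

instance (P : ObjectProperty C) (n : ℕ) : (tow P n).IsClosedUnderIsomorphisms := by
  cases n with
  | zero => exact inferInstanceAs (zer C).IsClosedUnderIsomorphisms
  | succ n => exact inferInstanceAs (extensionProduct P (tow P n)).IsClosedUnderIsomorphisms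

lemma ext_zero_left (P : ObjectProperty C) [P.IsClosedUnderIsomorphisms] :
    extensionProduct (zer C) P ≤ P := by
  intro X ⟨Y, Z, f, g, h, hT, hY, hZ⟩
  have h1 : IsIso g := (Triangle.isZero₁_iff_isIso₂ _ hT).1 hY
  exact P.prop_of_iso (asIso g).symm hZ

lemma le_ext_zero_left (P : ObjectProperty C) :
    P ≤ extensionProduct (zer C) P := by
  exact le_extensionProduct_right _

lemma ext_zero_right (P : ObjectProperty C) [P.IsClosedUnderIsomorphisms] :
    extensionProduct P (zer C) ≤ P := by
  intro X ⟨Y, Z, f, g, h, hT, hY, hZ⟩
  have h1 : IsIso f := (Triangle.isZero₃_iff_isIso₁ _ hT).1 hZ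
  exact P.prop_of_iso (asIso f) hY

lemma le_ext_zero_right (P : ObjectProperty C) :
    P ≤ extensionProduct P (zer C) := by
  exact le_extensionProduct_left _

variable [IsTriangulated C]

lemma tow_mul (P : ObjectProperty C) (a b : ℕ) :
    extensionProduct (tow P a) (tow P b) ≤ tow P (a + b) := by
  induction a with
  | zero => rw [zero_add]; exact ext_zero_left _
  | succ a ih =>
    have h1 : tow P (a + 1 + b) = extensionProduct P (tow P (a + b)) := by
      rw [Nat.add_right_comm]; rfl
    have h2 : tow P (a + 1) = extensionProduct P (tow P a) := rfl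
    rw [h1, h2, extensionProduct_assoc]
    exact monotone_extensionProduct_right _ ih

variable {N P : ObjectProperty C} [N.IsClosedUnderIsomorphisms] [P.IsClosedUnderIsomorphisms]
  (h : extensionProduct P N ≤ extensionProduct N P)

include h

lemma swap_one (b : ℕ) : extensionProduct P (tow N b) ≤ extensionProduct (tow N b) P := by
  induction b with
  | zero => exact (ext_zero_right P).trans (le_ext_zero_left P)
  | succ b ih =>
    have h2 : tow N (b + 1) = extensionProduct N (tow N b) := rfl
    rw [h2, ← extensionProduct_assoc, extensionProduct_assoc N]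
    refine (monotone_extensionProduct_left _ h).trans ?_
    rw [extensionProduct_assoc]
    exact monotone_extensionProduct_right _ ih

lemma swap_all (a b : ℕ) :
    extensionProduct (tow P a) (tow N b) ≤ extensionProduct (tow N b) (tow P a) := by
  induction a with
  | zero => exact (ext_zero_left _).trans (le_ext_zero_right _)
  | succ a ih =>
    have h2 : tow P (a + 1) = extensionProduct P (tow P a) := rfl
    rw [h2, extensionProduct_assoc]
    refine (monotone_extensionProduct_right _ ih).trans ?_
    rw [← extensionProduct_assoc, ← extensionProduct_assoc]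
    exact monotone_extensionProduct_left _ (swap_one h b)

/-- Products of sorted towers are sorted towers. -/
lemma sorted_mul (a b c d : ℕ) :
    extensionProduct (extensionProduct (tow N a) (tow P b)) (extensionProduct (tow N c) (tow P d)) ≤
      extensionProduct (tow N (a + c)) (tow P (b + d)) := by
  rw [extensionProduct_assoc, ← extensionProduct_assoc (tow P b)]
  refine (monotone_extensionProduct_right _
    (monotone_extensionProduct_left _ (swap_all h b c))).trans ?_
  rw [extensionProduct_assoc, ← extensionProduct_assoc (tow N a)]
  refine (monotone_extensionProduct_left _ (tow_mul N a c)).trans ?_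
  exact monotone_extensionProduct_right _ (tow_mul P b d)

/-- Sorting a tower. -/
lemma sort_tow (U : ObjectProperty C) (hU : ∀ X, U X → N X ∨ P X) (n : ℕ) (X : C)
    (hX : tow U n X) : ∃ a b : ℕ, extensionProduct (tow N a) (tow P b) X := by
  induction n generalizing X with
  | zero =>
    refine ⟨0, 0, ?_⟩
    exact le_ext_zero_left (tow P 0) X hX
  | succ n ih =>
    obtain ⟨Y, Z, f, g, k, hT, hY, hZ⟩ := hX
    obtain ⟨c, d, hcd⟩ := ih Z hZ
    have h1 : ∃ a b : ℕ, extensionProduct (tow N a) (tow P b) Y := by
      rcases hU Y hY with h1 | h1
      · refine ⟨1, 0, ?_⟩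
        exact le_ext_zero_right (tow N 1) Y (le_ext_zero_right N Y h1)
      · refine ⟨0, 1, ?_⟩
        exact le_ext_zero_left (tow P 1) Y (le_ext_zero_right P Y h1)
    obtain ⟨a, b, hab⟩ := h1
    exact ⟨a + c, b + d, sorted_mul h a b c d X ⟨Y, Z, f, g, k, hT, hab, hcd⟩⟩

end

end Pool.Agent.R920
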