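import Pool.Agent.R920.GR.PartOne
import Pool.Agent.R920.GR.Reg
import Pool.Agent.R920.GR.Tower

/-!
# Construction of the motivic t-structure: splittings
-/

set_option autoImplicit false
set_option linter.unusedSectionVars false
set_option backward.isDefEq.respectTransparency false
set_option backward.defeqAttrib.useBackward true

open CategoryTheory Limits MonoidalCategory Pretriangulated Triangulated TensorProduct
open Pool.Agent.Y116.MT

namespace Pool.Agent.R920

universe v u w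

section

variable {C : Type u} [Category.{v} C] [Preadditive C] [HasZeroObject C] [HasShift C ℤ]
  [∀ n : ℤ, (shiftFunctor C n).Additive] [Pretriangulated C]

/-- A direct sum decomposition gives a distinguished triangle. -/
lemma split_dist {A Q Z : C} {i : A ⟶ Q} {r : Q ⟶ A} {j : Z ⟶ Q} {q : Q ⟶ Z}
    (h1 : i ≫ r = 𝟙 A) (h2 : j ≫ q = 𝟙 Z) (h3 : i ≫ q = 0) (h4 : j ≫ r = 0)
    (h5 : r ≫ i + q ≫ j = 𝟙 Q) : Triangle.mk i q 0 ∈ distTriang C := by
  refine isomorphic_distinguished _ (binaryBiproductTriangle_distinguished A Z) _ ?_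
  let e : Q ≅ A ⊞ Z :=
    { hom := biprod.lift r q
      inv := biprod.desc i j
      hom_inv_id := by rw [biprod.lift_desc, h5]
      inv_hom_id := by
        apply biprod.hom_ext'
        · apply biprod.hom_ext <;> simp [h1, h3]
        · apply biprod.hom_ext <;> simp [h2, h4] }
  refine Triangle.isoMk _ _ (Iso.refl _) e (Iso.refl _) ?_ ?_ ?_
  · apply biprod.hom_ext <;> simp [e, h1, h3]
  · simp [e]
  · simp

end

section

variable {C : Type u} [Category.{v} C] [Preadditive C] [HasZeroObject C] [HasShift C ℤ]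
  [∀ n : ℤ, (shiftFunctor C n).Additive] [Pretriangulated C] [MonoidalCategory C]
  [SymmetricCategory C] {E : Type w} [Field E] (R : GReal C E)

namespace GReal

/-- The representation of the endomorphism ring on the cohomology. -/
noncomputable def rho (X : C) : End X →+* Module.End E (R.V.obj X) where
  toFun f := R.ap (f : X ⟶ X)
  map_one' := by
    ext x
    exact R.ap_id X x
  map_mul' f g := by
    ext x
    exact R.ap_comp (g : X ⟶ X) (f : X ⟶ X) x
  map_zero' := by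
    ext x
    exact R.ap_zero x
  map_add' f g := by
    ext x
    exact R.ap_add (f : X ⟶ X) (g : X ⟶ X) x

lemma ap_qsmul [Linear ℚ C] [CharZero E] {X Y : C} (q : ℚ) (f : X ⟶ Y) (x : R.V.obj X) :
    R.ap (q • f) x = (q : E) • R.ap f x := by
  have h1 : (q.den : ℤ) • (q • f) = q.num • f := by
    rw [← Int.cast_smul_eq_zsmul ℚ, ← Int.cast_smul_eq_zsmul ℚ q.num, smul_smul]
    congr 1
    push_cast
    rw [mul_comm]
    exact Rat.mul_den_eq_num q
  have h2 : R.ap ((q.den : ℤ) • (q • f)) x = R.ap (q.num • f) x := by rw [h1]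
  rw [ap_zsmul, ap_zsmul, ← Int.cast_smul_eq_zsmul E, ← Int.cast_smul_eq_zsmul E q.num] at h2
  have h3 : ((q.den : ℤ) : E) ≠ 0 := by
    push_cast
    exact_mod_cast q.den_ne_zero
  have h4 : (q : E) = ((q.den : ℤ) : E)⁻¹ * ((q.num : ℤ) : E) := by
    rw [Rat.cast_def, div_eq_inv_mul]
    push_cast
    rfl
  rw [h4, mul_smul, ← h2, smul_smul, inv_mul_cancel₀ h3, one_smul]

lemma map_shift_zero_iff {X Y : C} (f : X ⟶ Y) (k : ℤ) :
    R.V.map (f⟦k⟧') = 0 ↔ R.V.map f = 0 := by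
  refine ⟨fun h => ?_, R.map_shift_zero f k⟩
  have h1 := R.map_shift_zero (f⟦k⟧') (-k) h
  have e := (shiftFunctorCompIsoId C k (-k) (by ring))
  exact R.map_zero_of_iso (e.app X) (e.app Y) _ f (e.hom.naturality f).symm h1

variable [RightRigidCategory C]

/-- The supertrace of an endomorphism with rational trace. -/
lemma strace_eq [Linear ℚ C] [CharZero E] {X : C} (a : X ⟶ X) (q : ℚ) (h : tr a = q • 𝟙 _) :
    LinearMap.trace E (R.V.obj X) (R.par X * R.rho X a) = (q : E) := by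
  have h1 := R.ap_tr a
  rw [h, ap_qsmul, ap_id] at h1
  exact (smul_left_injective E (one_ne_zero' R.V) h1).symm

lemma par_commute (X : C) (a : End X) : Commute (R.par X) (R.rho X a) := by
  ext x
  exact R.par_natural (a : X ⟶ X) x

end GReal

end

section

variable {C : Type u} [Category.{v} C] [Preadditive C] [HasZeroObject C] [HasShift C ℤ]
  [∀ n : ℤ, (shiftFunctor C n).Additive] [Pretriangulated C]
  [MonoidalCategory C] [SymmetricCategory C] [TensorTriangulated C] [MonoidalPreadditive C]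
  [RightRigidCategory C] [Linear ℚ C]
  {Λ : Type*} {E : Λ → Type w} [∀ l, Field (E l)] [∀ l, CharZero (E l)] {R : ∀ l, GReal C (E l)}

namespace Crit

variable (M : ChowMotives R) (hg : Crit M)

include hg in
/-- Morphisms between shifts of Chow motives with cohomology in one degree. -/
lemma hom_eq_zero (l : Λ) {X Y : C} {c c' d d' : ℤ} (hX : M.Chow (X⟦c⟧)) (hY : M.Chow (Y⟦c'⟧))
    (hdX : ∀ l i, i ≠ d → (R l).gr X i = ⊥) (hdY : ∀ l i, i ≠ d' → (R l).gr Y i = ⊥)
    (hd : d ≤ d') (f : X ⟶ Y) (hf : (R l).V.map f = 0) : f = 0 := by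
  have e : Y⟦c⟧ ≅ (Y⟦c'⟧)⟦c - c'⟧ := (shiftFunctorAdd' C c' (c - c') c (by ring)).app Y
  have h0 : ∀ l i, i ≠ (d' - c') - (d - c) → (R l).gr (Y⟦c'⟧ ⊗ ((X⟦c⟧)ᘁ : C)) i = ⊥ := by
    intro l i hi
    apply (R l).bot_tensor
    intro m n hmn
    by_cases hm : m = d' - c'
    · right
      apply (R l).bot_dual
      rw [(R l).bot_shift c]
      exact hdX l _ (by omega)
    · left
      rw [(R l).bot_shift c']
      exact hdY l _ (by omega)
  have h1 := hg.van l _ (M.tensor hY (M.dual hX)) _ h0 (c - c') (by omega)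
    (nm (f⟦c⟧' ≫ e.hom) ≫ (lShift (Y⟦c'⟧) ((X⟦c⟧)ᘁ) (c - c')).hom) (by
      rw [CategoryTheory.Functor.map_comp, (R l).nm_zero, zero_comp]
      rw [CategoryTheory.Functor.map_comp, (R l).map_shift_zero f c hf, zero_comp])
  have h2 : nm (f⟦c⟧' ≫ e.hom) = 0 := by
    rwa [← cancel_mono (lShift (Y⟦c'⟧) ((X⟦c⟧)ᘁ) (c - c')).hom, zero_comp]
  have h3 := eq_zero_of_nm _ h2
  have h4 : f⟦c⟧' = 0 := by rwa [← cancel_mono e.hom, zero_comp]
  exact (shiftFunctor C c).map_injective (by rw [h4, CategoryTheory.Functor.map_zero])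

include hg in
lemma hom_eq_zero' (l : Λ) {X Y : C} {c c' d d' : ℤ} (hX : M.Chow (X⟦c⟧)) (hY : M.Chow (Y⟦c'⟧))
    (hdX : ∀ l i, i ≠ d → (R l).gr X i = ⊥) (hdY : ∀ l i, i ≠ d' → (R l).gr Y i = ⊥)
    (hd : d < d') (f : X ⟶ Y) : f = 0 := by
  apply hg.hom_eq_zero M l hX hY hdX hdY hd.le f
  rw [GReal.map_eq_zero_iff]
  intro x
  have h1 := (R l).map_mem f ((R l).mem_of_conc (hdX l) x)
  rw [hdY l d (by omega), Submodule.mem_bot] at h1
  exact h1

omit [MonoidalPreadditive C] [Linear ℚ C] [∀ l, CharZero (E l)] [TensorTriangulated C] in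
lemma chow_zero {X : C} : M.Chow (X⟦(0 : ℤ)⟧) ↔ M.Chow X := by
  have e : X⟦(0 : ℤ)⟧ ≅ X := (shiftFunctorZero C ℤ).app X
  exact ⟨M.retract e.inv e.hom e.inv_hom_id, M.retract e.hom e.inv e.hom_inv_id⟩

variable (hE : ∀ e : 𝟙_ C ⟶ 𝟙_ C, ∃ q : ℚ, e = q • 𝟙 (𝟙_ C))

include hg hE

/-- Non-degeneracy of the trace pairing. -/
lemma nondeg (l : Λ) {X : C} (hX : M.Chow X) (a : X ⟶ X) (ha : (R l).V.map a ≠ 0) :
    ∃ (b : X ⟶ X) (q : ℚ), q ≠ 0 ∧ tr (a ≫ b) = q • 𝟙 _ := by
  have h1 : (R l).V.map (nm a) ≠ 0 := fun h => ha ((R l).zero_of_nm a h)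
  obtain ⟨r, hr⟩ := hg.num l _ (M.tensor hX (M.dual hX)) (nm a) h1
  obtain ⟨b, hb⟩ := exists_tr r
  obtain ⟨q, hq⟩ := hE (tr (a ≫ b))
  refine ⟨b, q, ?_, hq⟩
  rintro rfl
  rw [zero_smul] at hq
  rw [hb, hq] at hr
  exact hr rfl

/-- Homological triviality is independent of `l`. -/
lemma indep (l l' : Λ) {X : C} (hX : M.Chow X) (a : X ⟶ X) (ha : (R l).V.map a = 0) :
    (R l').V.map a = 0 := by
  by_contra h
  obtain ⟨b, q, hq, hb⟩ := hg.nondeg M hE l' hX a h
  have h1 := (R l).strace_eq (a ≫ b) q hb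
  have h2 : (R l).rho X (a ≫ b : X ⟶ X) = 0 := by
    ext x
    change (R l).ap (a ≫ b) x = 0
    rw [GReal.ap_comp, ((R l).map_eq_zero_iff a).1 ha, map_zero]
  rw [h2, mul_zero, map_zero] at h1
  exact hq (by exact_mod_cast h1.symm)

/-- Regularity of the endomorphism ring modulo homological equivalence. -/
lemma reg_end [Nonempty Λ] {X : C} (hX : M.Chow X) (a : X ⟶ X) :
    ∃ b : X ⟶ X, ∀ l, (R l).V.map (a ≫ b ≫ a - a) = 0 := by
  obtain ⟨l0⟩ := ‹Nonempty Λ›
  obtain ⟨b, hb⟩ := regular_mod ((R l0).rho X) ((R l0).par X) ((R l0).par_commute X) (by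
    intro a
    obtain ⟨q, hq⟩ := hE (tr (a : X ⟶ X))
    refine ⟨q, ?_⟩
    rw [(R l0).strace_eq (a : X ⟶ X) q hq]
    simp) (by
    intro a ha
    have h1 : (R l0).V.map (a : X ⟶ X) ≠ 0 := by
      intro h0
      apply ha
      ext x
      exact ((R l0).map_eq_zero_iff _).1 h0 x
    obtain ⟨b, q, hq, hb⟩ := hg.nondeg M hE l0 hX a h1
    refine ⟨b, ?_⟩
    have h2 := (R l0).strace_eq ((a : X ⟶ X) ≫ b) q hb
    have h3 : (R l0).rho X ((a : X ⟶ X) ≫ b : X ⟶ X) =
      (R l0).rho X b * (R l0).rho X a := (R l0).rho X |>.map_mul b a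
    rw [h3, ← mul_assoc, LinearMap.trace_mul_comm, ← mul_assoc,
      ← ((R l0).par_commute X a).eq, mul_assoc] at h2
    rw [h2]
    exact_mod_cast hq) (a : End X)
  refine ⟨b, fun l => hg.indep M hE l0 l hX _ ?_⟩
  rw [GReal.map_eq_zero_iff]
  intro x
  rw [GReal.ap_sub, sub_eq_zero]
  exact LinearMap.congr_fun hb x

/-- Regularity for morphisms of Chow motives. -/
lemma reg_hom [Nonempty Λ] {X Y : C} (hX : M.Chow X) (hY : M.Chow Y) (f : X ⟶ Y) :
    ∃ g : Y ⟶ X, ∀ l, (R l).V.map (f ≫ g ≫ f - f) = 0 := by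
  let a : X ⊞ Y ⟶ X ⊞ Y := biprod.fst ≫ f ≫ biprod.inr
  obtain ⟨b, hb⟩ := hg.reg_end M hE (M.sum hX hY) a
  refine ⟨biprod.inr ≫ b ≫ biprod.fst, fun l => ?_⟩
  have h1 : f ≫ (biprod.inr ≫ b ≫ biprod.fst) ≫ f - f = (biprod.inl : X ⟶ X ⊞ Y) ≫
      (a ≫ b ≫ a - a) ≫ (biprod.snd : X ⊞ Y ⟶ Y) := by
    simp [a, Preadditive.sub_comp, Preadditive.comp_sub]
  rw [h1, CategoryTheory.Functor.map_comp, CategoryTheory.Functor.map_comp, hb l, zero_comp,
    comp_zero]

omit [TensorTriangulated C] [MonoidalPreadditive C] [∀ l, CharZero (E l)] hE in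
/-- Splitting the projector on a homogeneous part of the cohomology. -/
lemma lift_spl [IsIdempotentComplete C] [Nonempty Λ] {Q : C} (hQC : M.Chow Q) (e0 : Q ⟶ Q)
    (n : ℤ)
    (h1 : ∀ l, ∀ x ∈ (R l).gr Q n, (R l).ap e0 x = x)
    (h2 : ∀ l, ∀ m, m ≠ n → ∀ x ∈ (R l).gr Q m, (R l).ap e0 x = 0) : Spl R Q n := by
  obtain ⟨l0⟩ := ‹Nonempty Λ›
  let Φ : End Q →+* ((l : Λ) → Module.End (E l) ((R l).V.obj Q)) :=
    Pi.ringHom (fun l => (R l).rho Q)
  have hΦ : ∀ x ∈ RingHom.ker Φ, IsNilpotent x := by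
    intro x hx
    rw [RingHom.mem_ker] at hx
    apply hg.nil l0 Q hQC x
    rw [GReal.map_eq_zero_iff]
    intro y
    have := congrFun hx l0
    exact LinearMap.congr_fun this y
  have hidem : ∀ l, ∀ x, (R l).ap e0 ((R l).ap e0 x) = (R l).ap e0 x := by
    intro l x
    refine (R l).hom_induction
      (p := fun x => (R l).ap e0 ((R l).ap e0 x) = (R l).ap e0 x) x ?_ ?_ ?_
    · intro m x hx
      by_cases hm : m = n
      · subst hm
        rw [h1 l x hx, h1 l x hx]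
      · rw [h2 l m hm x hx, map_zero]
    · simp
    · intro y z hy hz
      simp only [map_add, hy, hz]
  obtain ⟨e', he', hΦe⟩ := exists_isIdempotentElem_eq_of_ker_isNilpotent Φ hΦ (Φ e0) ⟨e0, rfl⟩ (by
    funext l
    ext x
    exact hidem l x)
  have hap : ∀ l x, (R l).ap (e' : Q ⟶ Q) x = (R l).ap e0 x := fun l x =>
    LinearMap.congr_fun (congrFun hΦe l) x
  obtain ⟨A, i, r, hir, hri⟩ := IsIdempotentComplete.idempotents_split Q (e' : Q ⟶ Q) he'
  have hi : ∀ l x, (R l).ap e0 ((R l).ap i x) = (R l).ap i x := by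
    intro l x
    rw [← hap, ← GReal.ap_comp, ← hri, reassoc_of% hir]
  have hr' : ∀ l x, (R l).ap r ((R l).ap i x) = x := by
    intro l x
    rw [← GReal.ap_comp, hir, GReal.ap_id]
  refine ⟨A, i, r, hir, fun l m hm => ?_, fun l x hx h0 => ?_⟩
  · rw [eq_bot_iff]
    intro x hx
    have h3 := h2 l m hm _ ((R l).map_mem i hx)
    change (R l).ap e0 ((R l).ap i x) = 0 at h3
    rw [hi] at h3
    rw [← hr' l x, h3, map_zero]
    exact Submodule.zero_mem _
  · rw [← h1 l x hx, ← hap, ← hri, GReal.ap_comp, h0, map_zero]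

/-- The extreme parts split off. -/
lemma split_ends [IsIdempotentComplete C] [Nonempty Λ] (Q : C) (e : ℤ) (k : ℕ) (hC : M.Chow Q)
    (hQ : HL R M.T Q e) (hle : ∀ l, (R l).Le Q (e + k)) (hge : ∀ l, (R l).Ge Q (e - k)) :
    Spl R Q (e - k) ∧ Spl R Q (e + k) := by
  obtain ⟨L, hL⟩ := hQ.lef k
  have hTd : ∀ l m, m ≠ -2 * (k : ℤ) → (R l).gr (M.T k) m = ⊥ := fun l m hm => M.tate_deg l k m hm
  have hQT : ∀ l, (R l).Le (Q ⊗ M.T k) (e - k) := fun l i hi =>
    (R l).bot_tensor_conc (hTd l) (hle l _ (by omega))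
  obtain ⟨y, hy⟩ := hg.reg_hom M hE hC (M.tensor hC (M.tate k)) L
  have hy' : ∀ l x, (R l).ap L ((R l).ap y ((R l).ap L x)) = (R l).ap L x := by
    intro l x
    have h1 := ((R l).map_eq_zero_iff _).1 (hy l) x
    rw [GReal.ap_sub, sub_eq_zero, GReal.ap_comp, GReal.ap_comp] at h1
    exact h1
  constructor
  · refine hg.lift_spl M hC (L ≫ y) (e - k) (fun l x hx => ?_) (fun l m hm x hx => ?_)
    · rw [GReal.ap_comp]
      have h1 : (R l).ap y ((R l).ap L x) - x ∈ (R l).gr Q (e - k) :=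
        Submodule.sub_mem _ ((R l).map_mem y ((R l).map_mem L hx)) hx
      have h2 := (hL l).1 _ h1 (by rw [map_sub, hy', sub_self])
      exact sub_eq_zero.1 h2
    · rw [GReal.ap_comp]
      rcases lt_or_gt_of_ne hm with h | h
      · rw [hge l m h, Submodule.mem_bot] at hx
        rw [hx, map_zero, map_zero]
      · have h1 := (R l).map_mem L hx
        rw [hQT l m h, Submodule.mem_bot] at h1
        change (R l).ap L x = 0 at h1
        rw [h1, map_zero]
  · obtain ⟨D, i, r, hir, hD, hr⟩ := hg.lift_spl M (Q := Q ⊗ M.T k)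
      (M.tensor hC (M.tate k)) (y ≫ L) (e - k)
      (fun l x hx => by
        obtain ⟨z, hz, rfl⟩ := (hL l).2 x hx
        rw [GReal.ap_comp]
        exact hy' l z) (fun l m hm x hx => by
        rw [GReal.ap_comp]
        rcases lt_or_gt_of_ne hm with h | h
        · have h1 := (R l).map_mem y hx
          rw [hge l m h, Submodule.mem_bot] at h1
          change (R l).ap y x = 0 at h1
          rw [h1, map_zero]
        · rw [hQT l m h, Submodule.mem_bot] at hx
          rw [hx, map_zero, map_zero])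
    have h1 := spl_untwist (R := R) (T := M.T) M.tate_deg M.tate_inv (Q := Q) (k := k)
      (n := e - k) i r hir hD hr
    rwa [show e - (k : ℤ) + 2 * k = e + k by ring] at h1

lemma split_HL [IsIdempotentComplete C] [Nonempty Λ] (Q : C) (e : ℤ) (hC : M.Chow Q)
    (hQ : HL R M.T Q e) (b : ℤ) : Spl R Q b := by
  obtain ⟨l0⟩ := ‹Nonempty Λ›
  have : Nonempty Λ := ⟨l0⟩
  obtain ⟨N, hN⟩ := hQ.bdd
  exact peel M.tate_deg M.Chow M.retract (fun A B m n hA hB h1 h2 hmn f =>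
      hg.hom_eq_zero' M l0 ((chow_zero M).2 hA) ((chow_zero M).2 hB) h1 h2 hmn f)
    (fun Q e k h1 h2 h3 h4 => (hg.split_ends M hE Q e k h1 h2 h3 h4).1)
    (fun Q e k h1 h2 h3 h4 => (hg.split_ends M hE Q e k h1 h2 h3 h4).2) N Q e hC hQ
    (fun l => (hN l).1) (fun l => (hN l).2) b

/-- All parts of the cohomology of a Chow motive split off. -/
lemma split_chow [IsIdempotentComplete C] [Nonempty Λ] (X : C) (hX : M.Chow X) (b : ℤ) :
    Spl R X b := by
  obtain ⟨Q, i, r, e, hir, hQ, hHL⟩ := M.lefschetz hX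
  obtain ⟨A, iA, rA, hA, hAd, hAi⟩ := hg.split_HL M hE Q e hQ hHL b
  have hfix : ∀ l, ∀ x ∈ (R l).gr Q b, (R l).ap iA ((R l).ap rA x) = x := by
    intro l x hx
    have h2 : (R l).ap iA ((R l).ap rA x) - x ∈ (R l).gr Q b :=
      Submodule.sub_mem _ ((R l).map_mem iA ((R l).map_mem rA hx)) hx
    have h3 := hAi l _ h2 (by rw [map_sub, ← GReal.ap_comp, hA, GReal.ap_id, sub_self])
    exact sub_eq_zero.1 h3
  refine hg.lift_spl M hX (i ≫ (rA ≫ iA) ≫ r) b (fun l x hx => ?_) (fun l m hm x hx => ?_)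
  · rw [GReal.ap_comp, GReal.ap_comp, GReal.ap_comp, hfix l _ ((R l).map_mem i hx)]
    rw [← GReal.ap_comp, hir, GReal.ap_id]
  · rw [GReal.ap_comp, GReal.ap_comp, GReal.ap_comp]
    have h1 := (R l).map_mem rA ((R l).map_mem i hx)
    rw [hAd l m hm, Submodule.mem_bot] at h1
    change (R l).ap rA ((R l).ap i x) = 0 at h1
    rw [h1, map_zero, map_zero]

end Crit

end

end Pool.Agent.R920
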