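import Pool.Agent.R920.GR.Chow

/-!
# Splitting off the cohomology of an object satisfying hard Lefschetz
-/

set_option autoImplicit false
set_option linter.unusedSectionVars false
set_option backward.isDefEq.respectTransparency false
set_option backward.defeqAttrib.useBackward true

open CategoryTheory Limits MonoidalCategory Pretriangulated Triangulated TensorProduct
open Pool.Agent.Y116.MT

namespace Pool.Agent.R920

universe v u w

section

variable {C : Type u} [Category.{v} C] [Preadditive C] [HasZeroObject C] [HasShift C ℤ]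
  [∀ n : ℤ, (shiftFunctor C n).Additive] [Pretriangulated C]

/-- Complement of a retract. -/
lemma exists_complement {A Q : C} (i : A ⟶ Q) (r : Q ⟶ A) (h : i ≫ r = 𝟙 A) :
    ∃ (Z : C) (j : Z ⟶ Q) (q : Q ⟶ Z), j ≫ q = 𝟙 Z ∧ i ≫ q = 0 ∧ j ≫ r = 0 ∧
      r ≫ i + q ≫ j = 𝟙 Q := by
  obtain ⟨Z, q, d, hT⟩ := distinguished_cocone_triangle i
  have hd : d = 0 := by
    have h1 : d ≫ i⟦(1 : ℤ)⟧' = 0 := comp31 hT
    have h2 : d ≫ i⟦(1 : ℤ)⟧' ≫ r⟦(1 : ℤ)⟧' = d := by
      rw [← CategoryTheory.Functor.map_comp, h, CategoryTheory.Functor.map_id, Category.comp_id]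
    rw [← h2, reassoc_of% h1, zero_comp]
  obtain ⟨l, hl⟩ := split3' hT hd
  obtain ⟨j, hj⟩ := ye2 hT (𝟙 Q - r ≫ i) (by
    rw [Preadditive.comp_sub, Category.comp_id, reassoc_of% h, sub_self])
  have hq : ∀ {W : C} (a b : Z ⟶ W), q ≫ a = q ≫ b → a = b := by
    intro W a b hab
    rw [← Category.id_comp a, ← Category.id_comp b, ← hl, Category.assoc, hab, Category.assoc]
  have hiq : i ≫ q = 0 := comp12 hT
  refine ⟨Z, j, q, ?_, hiq, ?_, ?_⟩
  · apply hq
    rw [← Category.assoc, ← hj, Preadditive.sub_comp, Category.id_comp, Category.assoc, hiq,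
      comp_zero, sub_zero, Category.comp_id]
  · apply hq
    rw [← Category.assoc, ← hj, Preadditive.sub_comp, Category.id_comp, Category.assoc, h,
      Category.comp_id, sub_self, comp_zero]
  · rw [← hj]
    abel

end

section

variable {C : Type u} [Category.{v} C] [Preadditive C] [HasZeroObject C] [HasShift C ℤ]
  [∀ n : ℤ, (shiftFunctor C n).Additive] [Pretriangulated C] [MonoidalCategory C]
  [SymmetricCategory C] {E : Type w} [Field E] (R : GReal C E)

namespace GReal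

/-- A linear map which vanishes on the homogeneous products vanishes on the homogeneous part. -/
lemma vanish_on_gr {X Y : C} {n c : ℤ} (hY : ∀ i, i ≠ c → R.gr Y i = ⊥) {M : Type*}
    [AddCommGroup M] [Module E M] (F : R.V.obj (X ⊗ Y) →ₗ[E] M)
    (h : ∀ x ∈ R.gr X (n - c), ∀ y ∈ R.gr Y c, F (mul R.V x y) = 0) {z : R.V.obj (X ⊗ Y)}
    (hz : z ∈ R.gr (X ⊗ Y) n) : F z = 0 := by
  have h1 : F (R.pr (X ⊗ Y) n z) = 0 := by
    refine R.mul_induction (p := fun z => F (R.pr (X ⊗ Y) n z) = 0) z ?_ ?_ ?_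
    · intro a b x y hx hy
      by_cases hb : b = c
      · subst hb
        by_cases hab : a + b = n
        · obtain rfl : a = n - b := by omega
          rw [R.pr_of_mem (by simpa using R.mul_mem hx hy)]
          exact h x hx y hy
        · rw [R.pr_of_mem_ne (R.mul_mem hx hy) hab, map_zero]
      · rw [hY b hb, Submodule.mem_bot] at hy
        rw [hy, mul_zero', map_zero, map_zero]
    · simp
    · intro y z h1 h2
      rw [map_add, map_add, h1, h2, add_zero]
  rwa [R.pr_of_mem hz] at h1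

lemma bot_tensor_conc {X Y : C} {n c : ℤ} (hY : ∀ i, i ≠ c → R.gr Y i = ⊥)
    (h : R.gr X (n - c) = ⊥) : R.gr (X ⊗ Y) n = ⊥ := by
  apply R.bot_tensor
  intro a b hab
  by_cases hb : b = c
  · left
    obtain rfl : a = n - c := by omega
    exact h
  · exact Or.inr (hY b hb)

/-- A morphism is an isomorphism if it is one in the realisation, for a conservative
realisation. -/
lemma isIso_of_bij (hcons : ∀ X : C, (∀ i, R.gr X i = ⊥) → IsZero X) {X Y : C} (f : X ⟶ Y)
    (hinj : ∀ n, ∀ x ∈ R.gr X n, R.ap f x = 0 → x = 0)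
    (hsurj : ∀ n, ∀ y ∈ R.gr Y n, ∃ x ∈ R.gr X n, R.ap f x = y) : IsIso f := by
  obtain ⟨Z, g, h, hT⟩ := distinguished_cocone_triangle f
  refine isIso1_of_isZero3 hT (hcons Z fun n => ?_)
  rw [eq_bot_iff]
  intro z hz
  have h1 : R.ap h z = 0 := by
    have h2 : R.ap (f⟦(1 : ℤ)⟧') (R.ap h z) = 0 := by
      rw [← ap_comp, comp31 hT, ap_zero]
    have h3 := R.sh_natural f (R.ap h z)
    change R.sh Y (R.ap (f⟦(1 : ℤ)⟧') (R.ap h z)) = _ at h3
    rw [h2, map_zero] at h3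
    have h4 : R.sh X (R.ap h z) ∈ R.gr X (n + 1) := (R.sh_mem X n _).1 (R.map_mem h hz)
    have h5 := hinj _ _ h4 h3.symm
    exact (R.sh X).map_eq_zero_iff.1 h5
  obtain ⟨y, hy, rfl⟩ := R.ex3 hT hz h1
  obtain ⟨x, hx, rfl⟩ := hsurj n y hy
  rw [← ap_comp, comp12 hT, ap_zero]
  exact Submodule.zero_mem _

end GReal

variable {R}

/-- The homogeneous part of degree `b` of `x` is determined by the complement. -/
lemma retract_ap {A Q Z : C} {i : A ⟶ Q} {r : Q ⟶ A} {j : Z ⟶ Q} {q : Q ⟶ Z}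
    (h : r ≫ i + q ≫ j = 𝟙 Q) {b : ℤ} (hA : R.gr A b = ⊥) {x : R.V.obj Q} (hx : x ∈ R.gr Q b) :
    R.ap j (R.ap q x) = x := by
  have h1 := R.map_mem r hx
  rw [hA, Submodule.mem_bot] at h1
  have h2 : R.ap (r ≫ i + q ≫ j) x = x := by rw [h, R.ap_id]
  rw [R.ap_add, R.ap_comp, R.ap_comp] at h2
  change R.ap i (R.ap r x) + _ = x at h2
  have h3 : R.ap r x = 0 := h1
  rw [h3, map_zero, zero_add] at h2
  exact h2

end

section

variable {C : Type u} [Category.{v} C] [Preadditive C] [HasZeroObject C] [HasShift C ℤ]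
  [∀ n : ℤ, (shiftFunctor C n).Additive] [Pretriangulated C] [MonoidalCategory C]
  [SymmetricCategory C] {Λ : Type*} {E : Λ → Type w} [∀ l, Field (E l)]
  (R : ∀ l, GReal C (E l))

/-- The part of degree `b` of the cohomology of `Q` is the cohomology of a direct summand. -/
def Spl (Q : C) (b : ℤ) : Prop :=
  ∃ (A : C) (i : A ⟶ Q) (r : Q ⟶ A), i ≫ r = 𝟙 A ∧ (∀ l, ∀ n, n ≠ b → (R l).gr A n = ⊥) ∧
    ∀ l, ∀ x ∈ (R l).gr Q b, (R l).ap r x = 0 → x = 0

variable {R} {T : ℤ → C}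

/-- The middle part of an object satisfying hard Lefschetz satisfies hard Lefschetz. -/
lemma HL.mid (hTd : ∀ (l : Λ) (k i : ℤ), i ≠ -2 * k → (R l).gr (T k) i = ⊥) {Q Q' : C} {e : ℤ}
    (h : HL R T Q e) (i : Q' ⟶ Q) (r : Q ⟶ Q') (hir : i ≫ r = 𝟙 Q') (k : ℕ)
    (hle : ∀ l, (R l).Le Q' (e + k)) (hge : ∀ l, (R l).Ge Q' (e - k))
    (hid : ∀ l (b : ℤ), e - k ≤ b → b ≤ e + k → ∀ x ∈ (R l).gr Q b, (R l).ap i ((R l).ap r x) = x) :
    HL R T Q' e := by
  refine ⟨⟨k, fun l => ⟨hle l, hge l⟩⟩, fun j => ?_⟩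
  obtain ⟨L, hL⟩ := h.lef j
  refine ⟨i ≫ L ≫ (r ▷ T j), fun l => ?_⟩
  have hd : ∀ n, n ≠ -2 * (j : ℤ) → (R l).gr (T j) n = ⊥ := fun n hn => hTd l j n hn
  have hri : ∀ x : (R l).V.obj Q', (R l).ap r ((R l).ap i x) = x := by
    intro x
    rw [← GReal.ap_comp, hir, GReal.ap_id]
  by_cases hj : k < j
  · have h1 : (R l).gr Q' (e - j) = ⊥ := hge l _ (by omega)
    have h2 : (R l).gr (Q' ⊗ T j) (e - j) = ⊥ := by
      apply (R l).bot_tensor_conc hd
      exact hle l _ (by omega)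
    refine ⟨fun x hx _ => ?_, fun y hy => ?_⟩
    · rwa [h1, Submodule.mem_bot] at hx
    · rw [h2, Submodule.mem_bot] at hy
      exact ⟨0, Submodule.zero_mem _, by rw [hy, map_zero]⟩
  · push Not at hj
    have hW : ∀ y ∈ (R l).gr (Q ⊗ T j) (e - j),
        (R l).ap (i ▷ T j) ((R l).ap (r ▷ T j) y) = y := by
      intro y hy
      have h3 := (R l).vanish_on_gr (X := Q) (Y := T j) hd
        ((R l).ap (i ▷ T j) ∘ₗ (R l).ap (r ▷ T j) - LinearMap.id) (n := e - j) ?_ hy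
      · simpa [sub_eq_zero] using h3
      · intro x hx t _
        simp only [LinearMap.sub_apply, LinearMap.comp_apply, LinearMap.id_apply]
        rw [GReal.ap_wr, GReal.ap_wr, hid l (e + j) (by omega) (by omega) x (by
          convert hx using 2
          ring), sub_self]
    refine ⟨fun x hx h0 => ?_, fun y hy => ?_⟩
    · rw [GReal.ap_comp, GReal.ap_comp] at h0
      have h4 := hW _ ((R l).map_mem L ((R l).map_mem i hx))
      change (R l).ap (i ▷ T j) ((R l).ap (r ▷ T j) ((R l).ap L ((R l).ap i x))) = _ at h4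
      rw [h0, map_zero] at h4
      have h5 := (hL l).1 _ ((R l).map_mem i hx) h4.symm
      rw [← hri x]
      change (R l).ap i x = 0 at h5
      rw [h5, map_zero]
    · obtain ⟨x, hx, h6⟩ := (hL l).2 _ ((R l).map_mem (i ▷ T j) hy)
      refine ⟨(R l).ap r x, (R l).map_mem r hx, ?_⟩
      rw [GReal.ap_comp, GReal.ap_comp, hid l (e - j) (by omega) (by omega) x hx, h6,
        ← GReal.ap, ← GReal.ap_comp, ← comp_whiskerRight, hir, id_whiskerRight, GReal.ap_id]

/-- If the extreme parts split off, all parts split off. -/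
theorem peel (hTd : ∀ (l : Λ) (k i : ℤ), i ≠ -2 * k → (R l).gr (T k) i = ⊥)
    (Chow : ObjectProperty C)
    (hret : ∀ {X Y : C} (i : Y ⟶ X) (r : X ⟶ Y), i ≫ r = 𝟙 Y → Chow X → Chow Y)
    (horth : ∀ (A B : C) (m n : ℤ), Chow A → Chow B → (∀ l i, i ≠ m → (R l).gr A i = ⊥) →
      (∀ l i, i ≠ n → (R l).gr B i = ⊥) → m < n → ∀ f : A ⟶ B, f = 0)
    (hbot : ∀ (Q : C) (e : ℤ) (k : ℕ), Chow Q → HL R T Q e → (∀ l, (R l).Le Q (e + k)) →
      (∀ l, (R l).Ge Q (e - k)) → Spl R Q (e - k))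
    (htop : ∀ (Q : C) (e : ℤ) (k : ℕ), Chow Q → HL R T Q e → (∀ l, (R l).Le Q (e + k)) →
      (∀ l, (R l).Ge Q (e - k)) → Spl R Q (e + k))
    (k : ℕ) : ∀ (Q : C) (e : ℤ), Chow Q → HL R T Q e → (∀ l, (R l).Le Q (e + k)) →
      (∀ l, (R l).Ge Q (e - k)) → ∀ b : ℤ, Spl R Q b := by
  induction k with
  | zero =>
    intro Q e hQ hHL hle hge b
    by_cases hb : b = e
    · subst hb
      refine ⟨Q, 𝟙 Q, 𝟙 Q, Category.comp_id _, fun l n hn => ?_, fun l x _ h0 => ?_⟩
      · rcases lt_or_gt_of_ne hn with h1 | h1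
        · exact hge l n (by simpa using h1)
        · exact hle l n (by simpa using h1)
      · rwa [GReal.ap_id] at h0
    · obtain ⟨O, hO⟩ := HasZeroObject.zero (C := C)
      refine ⟨O, 0, 0, hO.eq_of_src _ _, fun l n _ =>
        (R l).bot_of_isZero hO n, fun l x hx _ => ?_⟩
      have h1 : (R l).gr Q b = ⊥ := by
        rcases lt_or_gt_of_ne hb with h1 | h1
        · exact hge l b (by simpa using h1)
        · exact hle l b (by simpa using h1)
      rwa [h1, Submodule.mem_bot] at hx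
  | succ k ih =>
    intro Q e hQ hHL hle hge b
    obtain ⟨A, iA, rA, hA, hAd, hAi⟩ := hbot Q e (k + 1) hQ hHL hle hge
    obtain ⟨D, iD, rD, hD, hDd, hDi⟩ := htop Q e (k + 1) hQ hHL hle hge
    by_cases hb1 : b = e - (k + 1 : ℕ)
    · rw [hb1]
      exact ⟨A, iA, rA, hA, hAd, hAi⟩
    by_cases hb2 : b = e + (k + 1 : ℕ)
    · rw [hb2]
      exact ⟨D, iD, rD, hD, hDd, hDi⟩
    obtain ⟨Q1, j1, q1, h11, h12, h13, h14⟩ := exists_complement iA rA hA
    have hAD : iA ≫ rD = 0 :=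
      horth A D (e - (k + 1 : ℕ)) (e + (k + 1 : ℕ)) (hret _ _ hA hQ) (hret _ _ hD hQ) hAd hDd
        (by push_cast; omega) _
    have hD1 : (iD ≫ q1) ≫ (j1 ≫ rD) = 𝟙 D := by
      have h1 : q1 ≫ j1 = 𝟙 Q - rA ≫ iA := by rw [← h14]; abel
      rw [Category.assoc, reassoc_of% h1, Preadditive.sub_comp, Category.id_comp,
        Category.assoc, hAD, comp_zero, sub_zero, hD]
    obtain ⟨Q2, j2, q2, h21, h22, h23, h24⟩ := exists_complement _ _ hD1
    have hir : (j2 ≫ j1) ≫ (q1 ≫ q2) = 𝟙 Q2 := by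
      rw [Category.assoc, reassoc_of% h11, h21]
    have hQ1b : ∀ l, (R l).gr Q1 (e - (k + 1 : ℕ)) = ⊥ := by
      intro l
      rw [eq_bot_iff]
      intro x hx
      have h1 : (R l).ap rA ((R l).ap j1 x) = 0 := by rw [← GReal.ap_comp, h13, GReal.ap_zero]
      have h2 := hAi l _ ((R l).map_mem j1 hx) h1
      have h3 : (R l).ap q1 ((R l).ap j1 x) = x := by rw [← GReal.ap_comp, h11, GReal.ap_id]
      change (R l).ap j1 x = 0 at h2
      rw [h2, map_zero] at h3
      rw [← h3]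
      exact Submodule.zero_mem _
    have hQ2t : ∀ l, (R l).gr Q2 (e + (k + 1 : ℕ)) = ⊥ := by
      intro l
      rw [eq_bot_iff]
      intro x hx
      have h1 : (R l).ap rD ((R l).ap j1 ((R l).ap j2 x)) = 0 := by
        rw [← GReal.ap_comp, ← GReal.ap_comp, h23, GReal.ap_zero]
      have h2 := hDi l _ ((R l).map_mem j1 ((R l).map_mem j2 hx)) h1
      have h3 : (R l).ap (q1 ≫ q2) ((R l).ap (j2 ≫ j1) x) = x := by
        rw [← GReal.ap_comp, hir, GReal.ap_id]
      rw [GReal.ap_comp] at h3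
      change (R l).ap j1 ((R l).ap j2 x) = 0 at h2
      rw [GReal.ap_comp, h2, map_zero, map_zero] at h3
      rw [← h3]
      exact Submodule.zero_mem _
    have hQ2b : ∀ l, (R l).gr Q2 (e - (k + 1 : ℕ)) = ⊥ := fun l =>
      (R l).bot_of_retract j2 q2 h21 (hQ1b l)
    have hid : ∀ l (b : ℤ), b ≠ e - (k + 1 : ℕ) → b ≠ e + (k + 1 : ℕ) → ∀ x ∈ (R l).gr Q b,
        (R l).ap (j2 ≫ j1) ((R l).ap (q1 ≫ q2) x) = x := by
      intro l b h1 h2 x hx
      rw [GReal.ap_comp, GReal.ap_comp]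
      have h3 := (R l).map_mem q1 hx
      have h4 := retract_ap (R := R l) h24 (hDd l b h2) h3
      change (R l).ap j2 ((R l).ap q2 ((R l).ap q1 x)) = (R l).ap q1 x at h4
      rw [h4]
      exact retract_ap (R := R l) h14 (hAd l b h1) hx
    have hle2 : ∀ l, (R l).Le Q2 (e + k) := by
      intro l n hn
      by_cases h1 : n = e + (k + 1 : ℕ)
      · rw [h1]; exact hQ2t l
      · exact (R l).bot_of_retract _ _ hir (hle l n (by push_cast at h1 ⊢; omega))
    have hge2 : ∀ l, (R l).Ge Q2 (e - k) := by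
      intro l n hn
      by_cases h1 : n = e - (k + 1 : ℕ)
      · rw [h1]; exact hQ2b l
      · exact (R l).bot_of_retract _ _ hir (hge l n (by push_cast at h1 ⊢; omega))
    have hHL2 : HL R T Q2 e := by
      apply hHL.mid hTd _ _ hir k hle2 hge2
      intro l b h1 h2 x hx
      exact hid l b (by push_cast; omega) (by push_cast; omega) x hx
    obtain ⟨A', i', r', h', hd', hi'⟩ := ih Q2 e (hret _ _ hir hQ) hHL2 hle2 hge2 b
    refine ⟨A', i' ≫ (j2 ≫ j1), (q1 ≫ q2) ≫ r', ?_, hd', fun l x hx h0 => ?_⟩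
    · calc (i' ≫ (j2 ≫ j1)) ≫ ((q1 ≫ q2) ≫ r') = i' ≫ ((j2 ≫ j1) ≫ (q1 ≫ q2)) ≫ r' := by
            simp only [Category.assoc]
        _ = 𝟙 _ := by rw [hir, Category.id_comp, h']
    · rw [GReal.ap_comp] at h0
      have h1 := hi' l _ ((R l).map_mem (q1 ≫ q2) hx) h0
      have h2 := hid l b hb1 hb2 x hx
      change (R l).ap (q1 ≫ q2) x = 0 at h1
      rw [h1, map_zero] at h2
      exact h2.symm

end

end Pool.Agent.R920
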