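import Pool.Agent.R920.GR.PartTwo

/-!
# Construction of the motivic t-structure: slices and truncations
-/

set_option autoImplicit false
set_option linter.unusedSectionVars false
set_option backward.isDefEq.respectTransparency false
set_option backward.defeqAttrib.useBackward true

open CategoryTheory Limits MonoidalCategory Pretriangulated Triangulated TensorProduct
open Pool.Agent.Y116.MT ObjectProperty

namespace Pool.Agent.R920

universe v u w

section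

variable {C : Type u} [Category.{v} C] [Preadditive C] [HasZeroObject C] [HasShift C ℤ]
  [∀ n : ℤ, (shiftFunctor C n).Additive] [Pretriangulated C] [IsTriangulated C]
  [IsIdempotentComplete C]

/-- The octahedron which exchanges the two terms of an extension with regular connecting map. -/
lemma octa {A X B : C} {f : A ⟶ X} {g : X ⟶ B} {h : B ⟶ A⟦(1 : ℤ)⟧}
    (hT : Triangle.mk f g h ∈ distTriang C) (k : A⟦(1 : ℤ)⟧ ⟶ B) (hk : h ≫ k ≫ h = h)
    (S₁ S₂ : ObjectProperty C)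
    (h₁ : ∀ (K : C) (i : K ⟶ B) (r : B ⟶ K), i ≫ r = 𝟙 K → S₁ ((K⟦(1 : ℤ)⟧)⟦(-1 : ℤ)⟧))
    (h₂ : ∀ (D : C) (i : D ⟶ A⟦(1 : ℤ)⟧) (r : A⟦(1 : ℤ)⟧ ⟶ D), i ≫ r = 𝟙 D → S₂ (D⟦(-1 : ℤ)⟧)) :
    extensionProduct S₁ S₂ X := by
  obtain ⟨I, i, p, hip, hpi⟩ := IsIdempotentComplete.idempotents_split B (h ≫ k) (by
    rw [Category.assoc, ← Category.assoc k, ← Category.assoc h, hk])
  obtain ⟨K, jK, qK, h11, h12, h13, h14⟩ := exists_complement i p hip
  have hT1 : Triangle.mk jK p 0 ∈ distTriang C := split_dist h11 hip h13 h12 (by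
    rw [add_comm]; exact h14)
  have hfac : p ≫ (i ≫ h) = h := by
    rw [← Category.assoc, hpi, Category.assoc, hk]
  have hmono : (i ≫ h) ≫ (k ≫ p) = 𝟙 I := by
    calc (i ≫ h) ≫ (k ≫ p) = i ≫ (h ≫ k) ≫ p := by simp only [Category.assoc]
      _ = (i ≫ p) ≫ (i ≫ p) := by rw [← hpi]; simp only [Category.assoc]
      _ = 𝟙 I := by rw [hip, Category.comp_id]
  obtain ⟨D, jD, qD, h21, h22, h23, h24⟩ := exists_complement _ _ hmono
  have hT2 : Triangle.mk (i ≫ h) qD 0 ∈ distTriang C := split_dist hmono h21 h22 h23 h24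
  have hO := someOctahedron hfac (rotD hT1) hT2 (rotD (rotD hT))
  have hS := Triangle.shift_distinguished _ hO.mem (-1)
  have hX : extensionProduct S₁ S₂ ((X⟦(1 : ℤ)⟧)⟦(-1 : ℤ)⟧) :=
    ⟨(K⟦(1 : ℤ)⟧)⟦(-1 : ℤ)⟧, D⟦(-1 : ℤ)⟧, _, _, _, hS, h₁ K jK qK h11, h₂ D jD qD h21⟩
  exact prop_of_iso _ ((shiftFunctorCompIsoId C (1 : ℤ) (-1) (by ring)).app X) hX

omit [IsTriangulated C] [IsIdempotentComplete C] in
lemma tow_mono {P Q : ObjectProperty C} (h : P ≤ Q) (n : ℕ) : tow P n ≤ tow Q n := by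
  induction n with
  | zero => exact le_rfl
  | succ n ih =>
    exact (monotone_extensionProduct_left _ h).trans (monotone_extensionProduct_right _ ih)

omit [IsTriangulated C] [IsIdempotentComplete C] in
lemma tow_shift {P Q : ObjectProperty C} (a : ℤ) (h : ∀ X, P X → Q (X⟦a⟧)) (n : ℕ) :
    ∀ X, tow P n X → tow Q n (X⟦a⟧) := by
  induction n with
  | zero => exact fun X hk => (shiftFunctor C a).map_isZero hk
  | succ k ih =>
    rintro X ⟨A, Z, f, g, d, hT, hA, hZ⟩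
    exact ⟨_, _, _, _, _, Triangle.shift_distinguished _ hT a, h _ hA, ih _ hZ⟩

omit [IsTriangulated C] [IsIdempotentComplete C] in
/-- Dévissage of the vanishing of morphisms. -/
lemma tow_hom_zero {P Q : ObjectProperty C} (h : ∀ X Y, P X → Q Y → ∀ f : X ⟶ Y, f = 0)
    (a b : ℕ) : ∀ X Y : C, tow P a X → tow Q b Y → ∀ f : X ⟶ Y, f = 0 := by
  have key : ∀ X Y : C, P X → tow Q b Y → ∀ f : X ⟶ Y, f = 0 := by
    induction b with
    | zero => exact fun X Y _ hY f => IsZero.eq_of_tgt hY _ _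
    | succ b ih =>
      rintro X Y hX ⟨A, Z, i, q, d, hT, hA, hZ⟩ f
      obtain ⟨l, rfl⟩ := ce2 hT f (ih X Z hX hZ _)
      rw [h X A hX hA l, zero_comp]
  induction a with
  | zero => exact fun X Y hX _ f => IsZero.eq_of_src hX _ _
  | succ a ih =>
    rintro X Y ⟨A, Z, i, q, d, hT, hA, hZ⟩ hY f
    obtain ⟨l, rfl⟩ := ye2 hT f (key A Y hA hY _)
    rw [ih Z Y hZ hY l, comp_zero]

end

section

variable {C : Type u} [Category.{v} C] [Preadditive C] [HasZeroObject C] [HasShift C ℤ]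
  [∀ n : ℤ, (shiftFunctor C n).Additive] [Pretriangulated C] [IsTriangulated C]
  [MonoidalCategory C] [SymmetricCategory C] [TensorTriangulated C] [MonoidalPreadditive C]
  [RightRigidCategory C] [Linear ℚ C] [IsIdempotentComplete C]
  {Λ : Type*} [Nonempty Λ] {E : Λ → Type w} [∀ l, Field (E l)] [∀ l, CharZero (E l)]
  {R : ∀ l, GReal C (E l)}

/-- The shifts of Chow motives whose cohomology is concentrated in degree `d`. -/
def Sl (M : ChowMotives R) (d : ℤ) : ObjectProperty C := fun X =>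
  (∃ c : ℤ, M.Chow (X⟦c⟧)) ∧ ∀ l n, n ≠ d → (R l).gr X n = ⊥

variable (M : ChowMotives R)

lemma Sl.retract {d : ℤ} {X Y : C} (i : Y ⟶ X) (r : X ⟶ Y) (h : i ≫ r = 𝟙 Y)
    (hX : Sl M d X) : Sl M d Y := by
  obtain ⟨⟨c, hc⟩, hd⟩ := hX
  refine ⟨⟨c, M.retract (i⟦c⟧') (r⟦c⟧') ?_ hc⟩, fun l n hn => (R l).bot_of_retract i r h (hd l n hn)⟩
  rw [← CategoryTheory.Functor.map_comp, h, CategoryTheory.Functor.map_id]

instance (d : ℤ) : (Sl M d).IsClosedUnderIsomorphisms :=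
  ⟨fun e h => Sl.retract M e.inv e.hom e.inv_hom_id h⟩

lemma Sl.shift {d : ℤ} {X : C} (n m : ℤ) (hm : m + n = d) (hX : Sl M d X) : Sl M m (X⟦n⟧) := by
  obtain ⟨⟨c, hc⟩, hd⟩ := hX
  refine ⟨⟨c - n, ?_⟩, fun l k hk => ?_⟩
  · have e : X⟦c⟧ ≅ (X⟦n⟧)⟦c - n⟧ := (shiftFunctorAdd' C n (c - n) c (by ring)).app X
    exact M.retract e.inv e.hom e.inv_hom_id hc
  · rw [(R l).bot_shift n]
    exact hd l _ (by omega)

/-- The tensor product of slices. -/
lemma Sl.tensor {d d' : ℤ} {X Y : C} (hX : Sl M d X) (hY : Sl M d' Y) :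
    Sl M (d + d') (X ⊗ Y) := by
  obtain ⟨⟨c, hc⟩, hd⟩ := hX
  obtain ⟨⟨c', hc'⟩, hd'⟩ := hY
  refine ⟨⟨c + c', ?_⟩, fun l n hn => ?_⟩
  · exact M.retract (lrShift X Y c c').inv (lrShift X Y c c').hom (Iso.inv_hom_id _)
      (M.tensor hc hc')
  · apply (R l).bot_tensor
    intro a b hab
    by_cases ha : a = d
    · exact Or.inr (hd' l b (by omega))
    · exact Or.inl (hd l a ha)

/-- The shifts of Chow motives with cohomology in one degree, which belongs to `D`. -/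
def SlS (D : Set ℤ) : ObjectProperty C := fun X => ∃ d ∈ D, Sl M d X

instance (D : Set ℤ) : (SlS M D).IsClosedUnderIsomorphisms :=
  ⟨fun e ⟨d, hd, h⟩ => ⟨d, hd, (Sl M d).prop_of_iso e h⟩⟩

lemma SlS.mono {D D' : Set ℤ} (h : D ⊆ D') : SlS M D ≤ SlS M D' :=
  fun _ ⟨d, hd, hX⟩ => ⟨d, h hd, hX⟩

lemma tow_le (k : ℕ) {n : ℤ} : ∀ X : C, tow (SlS M (Set.Iic n)) k X → ∀ l, (R l).Le X n := by
  induction k with
  | zero => exact fun X hX l i _ => (R l).bot_of_isZero hX i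
  | succ k ih =>
    rintro X ⟨A, Z, f, g, h, hT, ⟨d, hd, hA⟩, hZ⟩ l i hi
    have hd' : d ≤ n := hd
    exact (R l).bot2 hT (hA.2 l i (by omega)) (ih Z hZ l i hi)

lemma tow_ge (k : ℕ) {n : ℤ} : ∀ X : C, tow (SlS M (Set.Ici n)) k X → ∀ l, (R l).Ge X n := by
  induction k with
  | zero => exact fun X hX l i _ => (R l).bot_of_isZero hX i
  | succ k ih =>
    rintro X ⟨A, Z, f, g, h, hT, ⟨d, hd, hA⟩, hZ⟩ l i hi
    have hd' : n ≤ d := hd
    exact (R l).bot2 hT (hA.2 l i (by omega)) (ih Z hZ l i hi)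

/-- The tensor product of towers. -/
lemma tow_tensor {D₁ D₂ D₃ : Set ℤ} (hD : ∀ a ∈ D₁, ∀ b ∈ D₂, a + b ∈ D₃) (m n : ℕ) :
    ∀ X Y : C, tow (SlS M D₁) m X → tow (SlS M D₂) n Y → ∃ k, tow (SlS M D₃) k (X ⊗ Y) := by
  have key : ∀ X Y : C, SlS M D₁ X → tow (SlS M D₂) n Y → tow (SlS M D₃) n (X ⊗ Y) := by
    induction n with
    | zero => exact fun X Y _ hY => isZero_tensor_right hY X
    | succ n ih =>
      rintro X Y hX ⟨A, Z, i, q, d, hT, ⟨b, hb, hA⟩, hZ⟩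
      have h1 := ih X Z hX hZ
      obtain ⟨a, ha, hX⟩ := hX
      exact ⟨_, _, _, _, _, tensor_dist X hT, ⟨a + b, hD a ha b hb, Sl.tensor M hX hA⟩, h1⟩
  induction m with
  | zero => exact fun X Y hX _ => ⟨0, isZero_tensor_left hX Y⟩
  | succ m ih =>
    rintro X Y ⟨A, Z, i, q, d, hT, hA, hZ⟩ hY
    obtain ⟨k, hk⟩ := ih Z Y hZ hY
    have h1 := key A Y hA hY
    have h2 : tow (SlS M D₃) (n + k) (Y ⊗ X) :=
      tow_mul _ n k _ ⟨_, _, _, _, _, tensor_dist Y hT,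
        (tow (SlS M D₃) n).prop_of_iso (β_ A Y) h1, (tow (SlS M D₃) k).prop_of_iso (β_ Z Y) hk⟩
    exact ⟨n + k, (tow (SlS M D₃) (n + k)).prop_of_iso (β_ Y X) h2⟩

/-- Towers are bounded. -/
lemma tow_bdd (k : ℕ) : ∀ X : C, tow (SlS M Set.univ) k X →
    ∃ m n : ℤ, tow (SlS M (Set.Ici m)) k X ∧ tow (SlS M (Set.Iic n)) k X := by
  induction k with
  | zero => exact fun X hX => ⟨0, 0, hX, hX⟩
  | succ k ih =>
    rintro X ⟨A, Z, i, q, d, hT, ⟨b, _, hA⟩, hZ⟩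
    obtain ⟨m, n, h1, h2⟩ := ih Z hZ
    refine ⟨min b m, max b n, ⟨A, Z, i, q, d, hT, ⟨b, Set.mem_Ici.2 (min_le_left _ _), hA⟩, ?_⟩,
      ⟨A, Z, i, q, d, hT, ⟨b, Set.mem_Iic.2 (le_max_left _ _), hA⟩, ?_⟩⟩
    · exact tow_mono (SlS.mono M (Set.Ici_subset_Ici.2 (min_le_right _ _))) k Z h1
    · exact tow_mono (SlS.mono M (Set.Iic_subset_Iic.2 (le_max_right _ _))) k Z h2

variable (hg : Crit M) (hE : ∀ e : 𝟙_ C ⟶ 𝟙_ C, ∃ q : ℚ, e = q • 𝟙 (𝟙_ C))

include hg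

/-- There are no morphisms from a slice to a slice of higher degree. -/
lemma Sl.hom_zero {d d' : ℤ} {X Y : C} (hX : Sl M d X) (hY : Sl M d' Y) (h : d < d')
    (f : X ⟶ Y) : f = 0 := by
  obtain ⟨l0⟩ := ‹Nonempty Λ›
  obtain ⟨c, hc⟩ := hX.1
  obtain ⟨c', hc'⟩ := hY.1
  exact hg.hom_eq_zero' M l0 hc hc' hX.2 hY.2 h f

include hE

/-- Morphisms between slices of the same degree are regular. -/
lemma Sl.reg {d : ℤ} {X Y : C} (hX : Sl M d X) (hY : Sl M d Y) (f : X ⟶ Y) :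
    ∃ g : Y ⟶ X, f ≫ g ≫ f = f := by
  obtain ⟨l0⟩ := ‹Nonempty Λ›
  have : Nonempty Λ := ⟨l0⟩
  obtain ⟨c, hc⟩ := hX.1
  obtain ⟨c', hc'⟩ := hY.1
  by_cases hcc : c = c'
  · subst hcc
    obtain ⟨y, hy⟩ := hg.reg_hom M hE hc hc' (f⟦c⟧')
    obtain ⟨g, rfl⟩ := (shiftFunctor C c).map_surjective y
    refine ⟨g, ?_⟩
    rw [← sub_eq_zero]
    apply hg.hom_eq_zero M l0 hc hc' hX.2 hY.2 le_rfl
    rw [← (R l0).map_shift_zero_iff _ c]
    have h1 := hy l0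
    rwa [← CategoryTheory.Functor.map_comp, ← CategoryTheory.Functor.map_comp,
      ← CategoryTheory.Functor.map_sub] at h1
  · refine ⟨0, ?_⟩
    rw [zero_comp, comp_zero]
    symm
    apply hg.hom_eq_zero M l0 hc hc' hX.2 hY.2 le_rfl
    rw [← (R l0).map_shift_zero_iff _ c]
    have e : Y⟦c⟧ ≅ (Y⟦c'⟧)⟦c - c'⟧ := (shiftFunctorAdd' C c' (c - c') c (by ring)).app Y
    have h1 := M.pure (M.tensor hc' (M.dual hc)) (c - c') (by omega)
      (nm (f⟦c⟧' ≫ e.hom) ≫ (lShift (Y⟦c'⟧) ((X⟦c⟧)ᘁ) (c - c')).hom) l0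
    have h2 : (R l0).V.map (nm (f⟦c⟧' ≫ e.hom)) = 0 := by
      unfold GReal.Kills at h1
      rw [CategoryTheory.Functor.map_comp] at h1
      rwa [← cancel_mono ((R l0).V.map (lShift (Y⟦c'⟧) ((X⟦c⟧)ᘁ) (c - c')).hom), zero_comp]
    have h3 := (R l0).zero_of_nm _ h2
    rw [CategoryTheory.Functor.map_comp] at h3
    rwa [← cancel_mono ((R l0).V.map e.hom), zero_comp]

/-- The commutation of slices. -/
lemma Sl.swap {D₁ D₂ : Set ℤ} (hD : ∀ a ∈ D₁, ∀ b ∈ D₂, b < a) :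
    extensionProduct (SlS M D₁) (SlS M D₂) ≤ extensionProduct (SlS M D₂) (SlS M D₁) := by
  rintro X ⟨A, B, f, g, h, hT, ⟨d, hd, hA⟩, ⟨d', hd', hB⟩⟩
  have hdd := hD d hd d' hd'
  have hA1 : Sl M (d - 1) (A⟦(1 : ℤ)⟧) := Sl.shift M 1 (d - 1) (by ring) hA
  have hreg : ∃ k : A⟦(1 : ℤ)⟧ ⟶ B, h ≫ k ≫ h = h := by
    by_cases h1 : d' = d - 1
    · subst h1
      exact Sl.reg M hg hE hB hA1 h
    · refine ⟨0, ?_⟩
      rw [Sl.hom_zero M hg hB hA1 (by omega) h, zero_comp]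
  obtain ⟨k, hk⟩ := hreg
  refine octa hT k hk _ _ (fun K i r hir => ⟨d', hd', ?_⟩) (fun D i r hir => ⟨d, hd, ?_⟩)
  · exact Sl.shift M (-1) d' (by ring) (Sl.shift M 1 (d' - 1) (by ring) (Sl.retract M i r hir hB))
  · exact Sl.shift M (-1) d (by ring) (Sl.retract M i r hir hA1)

/-- Chow motives are iterated extensions of slices. -/
lemma tow_chow (k : ℕ) : ∀ (X : C) (m n : ℤ), n - m + 1 ≤ k → M.Chow X → (∀ l, (R l).Ge X m) →
    (∀ l, (R l).Le X n) → tow (SlS M Set.univ) k X := by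
  obtain ⟨l0⟩ := ‹Nonempty Λ›
  have : Nonempty Λ := ⟨l0⟩
  induction k with
  | zero =>
    intro X m n hmn hX hge hle
    have h0 : ∀ l i, (R l).gr X i = ⊥ := by
      intro l i
      by_cases hi : i < m
      · exact hge l i hi
      · exact hle l i (by push_cast at hmn; omega)
    change IsZero X
    rw [IsZero.iff_id_eq_zero]
    exact hg.hom_eq_zero' M l0 ((Crit.chow_zero M).2 hX) ((Crit.chow_zero M).2 hX) (d := 0) (d' := 1)
      (fun l i _ => h0 l i) (fun l i _ => h0 l i) (by norm_num) _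
  | succ k ih =>
    intro X m n hmn hX hge hle
    obtain ⟨A, i, r, hir, hA, hr⟩ := hg.split_chow M hE X hX m
    obtain ⟨Z, j, q, h1, h2, h3, h4⟩ := exists_complement i r hir
    have hZC : M.Chow Z := M.retract j q h1 hX
    have hZge : ∀ l, (R l).Ge Z (m + 1) := by
      intro l b hb
      by_cases hbm : b < m
      · exact (R l).bot_of_retract j q h1 (hge l b hbm)
      · obtain rfl : b = m := by omega
        rw [eq_bot_iff]
        intro x hx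
        have h5 : (R l).ap r ((R l).ap j x) = 0 := by rw [← GReal.ap_comp, h3, GReal.ap_zero]
        have h6 := hr l _ ((R l).map_mem j hx) h5
        change (R l).ap j x = 0 at h6
        have h7 : (R l).ap q ((R l).ap j x) = x := by rw [← GReal.ap_comp, h1, GReal.ap_id]
        rw [← h7, h6, map_zero]
        exact Submodule.zero_mem _
    have hZle : ∀ l, (R l).Le Z n := fun l b hb => (R l).bot_of_retract j q h1 (hle l b hb)
    have hZ := ih Z (m + 1) n (by push_cast at hmn; omega) hZC hZge hZle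
    have hAC : SlS M Set.univ A := by
      refine ⟨m, Set.mem_univ _, ⟨0, ?_⟩, hA⟩
      exact (Crit.chow_zero M).2 (M.retract i r hir hX)
    exact ⟨A, Z, i, q, 0, split_dist hir h1 h2 h3 h4, hAC, hZ⟩

/-- Every object is an iterated extension of slices. -/
lemma tow_all (X : C) : ∃ k, tow (SlS M Set.univ) k X := by
  refine M.generate (fun X => ∃ k, tow (SlS M Set.univ) k X) ?_ ?_ ?_ ?_ ?_ X
  · rintro X Y ⟨e⟩ ⟨k, hk⟩
    exact ⟨k, (tow (SlS M Set.univ) k).prop_of_iso e hk⟩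
  · rintro X ⟨k, hk⟩
    exact ⟨k, tow_shift 1 (fun X ⟨d, _, hX⟩ => ⟨d - 1, Set.mem_univ _,
      Sl.shift M 1 (d - 1) (by ring) hX⟩) k X hk⟩
  · rintro X ⟨k, hk⟩
    exact ⟨k, tow_shift (-1) (fun X ⟨d, _, hX⟩ => ⟨d + 1, Set.mem_univ _,
      Sl.shift M (-1) (d + 1) (by ring) hX⟩) k X hk⟩
  · rintro T hT ⟨a, ha⟩ ⟨b, hb⟩
    exact ⟨a + b, tow_mul _ a b _ ⟨_, _, _, _, _, hT, ha, hb⟩⟩
  · intro X hX
    obtain ⟨Q, i, r, e, hir, hQ, hHL⟩ := M.lefschetz hX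
    obtain ⟨N, hN⟩ := hHL.bdd
    exact ⟨(2 * N + 1), tow_chow M hg hE (2 * N + 1) X (e - N) (e + N) (by push_cast; omega) hX
      (fun l b hb => (R l).bot_of_retract i r hir ((hN l).2 b hb))
      (fun l b hb => (R l).bot_of_retract i r hir ((hN l).1 b hb))⟩

/-- The motivic t-structure. -/
noncomputable def tM : TStructure C where
  le n := fun X => ∃ k, tow (SlS M (Set.Iic n)) k X
  ge n := fun X => ∃ k, tow (SlS M (Set.Ici n)) k X
  le_isClosedUnderIsomorphisms n := ⟨fun e ⟨k, hk⟩ => ⟨k, (tow (SlS M _) k).prop_of_iso e hk⟩⟩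
  ge_isClosedUnderIsomorphisms n := ⟨fun e ⟨k, hk⟩ => ⟨k, (tow (SlS M _) k).prop_of_iso e hk⟩⟩
  le_shift := by
    rintro n a n' h X ⟨k, hk⟩
    refine ⟨k, tow_shift a (fun X ⟨d, hd, hX⟩ => ⟨d - a, ?_, Sl.shift M a (d - a) (by ring) hX⟩)
      k X hk⟩
    rw [Set.mem_Iic] at hd ⊢
    omega
  ge_shift := by
    rintro n a n' h X ⟨k, hk⟩
    refine ⟨k, tow_shift a (fun X ⟨d, hd, hX⟩ => ⟨d - a, ?_, Sl.shift M a (d - a) (by ring) hX⟩)
      k X hk⟩
    rw [Set.mem_Ici] at hd ⊢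
    omega
  zero' := by
    rintro X Y f ⟨k, hk⟩ ⟨k', hk'⟩
    refine tow_hom_zero (fun X Y ⟨d, hd, hX⟩ ⟨d', hd', hY⟩ f => ?_) k k' X Y hk hk' f
    rw [Set.mem_Iic] at hd
    rw [Set.mem_Ici] at hd'
    exact Sl.hom_zero M hg hX hY (by omega) f
  le_zero_le := fun X ⟨k, hk⟩ => ⟨k, tow_mono (SlS.mono M (Set.Iic_subset_Iic.2 (by norm_num)))
    k X hk⟩
  ge_one_le := fun X ⟨k, hk⟩ => ⟨k, tow_mono (SlS.mono M (Set.Ici_subset_Ici.2 (by norm_num)))
    k X hk⟩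
  exists_triangle_zero_one := by
    intro X
    obtain ⟨k, hk⟩ := tow_all M hg hE X
    obtain ⟨a, b, A, B, f, g, h, hT, hA, hB⟩ := sort_tow (N := SlS M (Set.Iic 0))
      (P := SlS M (Set.Ici 1)) (Sl.swap M hg hE (by
        intro a ha b hb
        rw [Set.mem_Ici] at ha
        rw [Set.mem_Iic] at hb
        omega)) (SlS M Set.univ) (by
        rintro X ⟨d, _, hd⟩
        by_cases h : d ≤ 0
        · exact Or.inl ⟨d, h, hd⟩
        · exact Or.inr ⟨d, by rw [Set.mem_Ici]; omega, hd⟩) k X hk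
    exact ⟨A, B, ⟨a, hA⟩, ⟨b, hB⟩, f, g, h, hT⟩

lemma tM_nondeg_le (X : C) (h : ∀ n : ℤ, (tM M hg hE).le n X) : IsZero X := by
  obtain ⟨k, hk⟩ := tow_all M hg hE X
  obtain ⟨m, n, h1, h2⟩ := tow_bdd M k X hk
  obtain ⟨k', hk'⟩ := h (m - 1)
  rw [IsZero.iff_id_eq_zero]
  refine tow_hom_zero (fun X Y ⟨d, hd, hX⟩ ⟨d', hd', hY⟩ f => ?_) k' k X X hk' h1 _
  rw [Set.mem_Iic] at hd
  rw [Set.mem_Ici] at hd'
  exact Sl.hom_zero M hg hX hY (by omega) f

lemma tM_nondeg_ge (X : C) (h : ∀ n : ℤ, (tM M hg hE).ge n X) : IsZero X := by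
  obtain ⟨k, hk⟩ := tow_all M hg hE X
  obtain ⟨m, n, h1, h2⟩ := tow_bdd M k X hk
  obtain ⟨k', hk'⟩ := h (n + 1)
  rw [IsZero.iff_id_eq_zero]
  refine tow_hom_zero (fun X Y ⟨d, hd, hX⟩ ⟨d', hd', hY⟩ f => ?_) k k' X X h2 hk' _
  rw [Set.mem_Iic] at hd
  rw [Set.mem_Ici] at hd'
  exact Sl.hom_zero M hg hX hY (by omega) f

lemma tM_tensor_le (X Y : C) (hX : (tM M hg hE).le 0 X) (hY : (tM M hg hE).le 0 Y) :
    (tM M hg hE).le 0 (X ⊗ Y) := by
  obtain ⟨k, hk⟩ := hX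
  obtain ⟨k', hk'⟩ := hY
  exact tow_tensor M (fun a ha b hb => by rw [Set.mem_Iic] at ha hb ⊢; omega) k k' X Y hk hk'

lemma tM_tensor_ge (X Y : C) (hX : (tM M hg hE).ge 0 X) (hY : (tM M hg hE).ge 0 Y) :
    (tM M hg hE).ge 0 (X ⊗ Y) := by
  obtain ⟨k, hk⟩ := hX
  obtain ⟨k', hk'⟩ := hY
  exact tow_tensor M (fun a ha b hb => by rw [Set.mem_Ici] at ha hb ⊢; omega) k k' X Y hk hk'

end

section

variable {C : Type u} [Category.{v} C] [Preadditive C] [HasZeroObject C] [HasShift C ℤ]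
  [∀ n : ℤ, (shiftFunctor C n).Additive] [Pretriangulated C]
  [MonoidalCategory C] [SymmetricCategory C] [RightRigidCategory C]
  {Λ : Type*} {E : Λ → Type w} [∀ l, Field (E l)] {R : ∀ l, GReal C (E l)}

/-- The same Chow motives, with one realisation. -/
def ChowMotives.single (M : ChowMotives R) (l : Λ) :
    ChowMotives (Λ := Unit) (E := fun _ => E l) (fun _ => R l) where
  Chow := M.Chow
  T := M.T
  retract := M.retract
  tensor := M.tensor
  dual := M.dual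
  sum := M.sum
  tate := M.tate
  tate_inv := M.tate_inv
  tate_deg _ := M.tate_deg l
  weight := M.weight
  pure hX n hn s _ := M.pure hX n hn s l
  betti _ _ _ _ := rfl
  lefschetz hX := by
    obtain ⟨Q, i, r, e, h1, h2, h3⟩ := M.lefschetz hX
    refine ⟨Q, i, r, e, h1, h2, ?_, fun k => ?_⟩
    · obtain ⟨N, hN⟩ := h3.bdd
      exact ⟨N, fun _ => hN l⟩
    · obtain ⟨L, hL⟩ := h3.lef k
      exact ⟨L, fun _ => hL l⟩
  generate := M.generate

end

section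

variable {C : Type u} [Category.{v} C] [Preadditive C] [HasZeroObject C] [HasShift C ℤ]
  [∀ n : ℤ, (shiftFunctor C n).Additive] [Pretriangulated C] [IsTriangulated C]
  [MonoidalCategory C] [SymmetricCategory C] [TensorTriangulated C] [MonoidalPreadditive C]
  [RightRigidCategory C] [Linear ℚ C] [IsIdempotentComplete C]
  {Λ : Type*} {E : Λ → Type w} [∀ l, Field (E l)] [∀ l, CharZero (E l)]
  {R : ∀ l, GReal C (E l)}

lemma Sl.of_single (M : ChowMotives R) (l : Λ) {d : ℤ} {X : C} (h : Sl (M.single l) d X) :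
    Sl M d X := by
  obtain ⟨⟨c, hc⟩, hd⟩ := h
  refine ⟨⟨c, hc⟩, fun l' n hn => ?_⟩
  have h1 : (R l).gr (X⟦c⟧) (n - c) = ⊥ := by
    rw [(R l).bot_shift c, sub_add_cancel]
    exact hd () n hn
  have h2 := M.betti hc l' l (n - c)
  unfold GReal.bet at h2
  rw [h1, finrank_bot] at h2
  have h3 : (R l').gr (X⟦c⟧) (n - c) = ⊥ := Submodule.finrank_eq_zero.1 h2
  rwa [(R l').bot_shift c, sub_add_cancel] at h3

/-- If the three properties of Chow motives hold for one `l`, there is a motivic t-structure for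
all `l`. -/
theorem Crit.exists_t (M : ChowMotives R) (l : Λ) (hg : Crit (M.single l))
    (hE : ∀ e : 𝟙_ C ⟶ 𝟙_ C, ∃ q : ℚ, e = q • 𝟙 (𝟙_ C)) : ∃ t : TStructure C, IsMotivic t R := by
  refine ⟨tM (M.single l) hg hE, tM_nondeg_le _ hg hE, tM_nondeg_ge _ hg hE,
    tM_tensor_le _ hg hE, tM_tensor_ge _ hg hE, ?_, ?_⟩
  · rintro l' X ⟨k, hk⟩
    have h1 : SlS (M.single l) (Set.Iic 0) ≤ SlS M (Set.Iic 0) :=
      fun X ⟨d, hd, hX⟩ => ⟨d, hd, Sl.of_single M l hX⟩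
    have : Nonempty Λ := ⟨l⟩
    exact tow_le M k X (tow_mono h1 k X hk) l'
  · rintro l' X ⟨k, hk⟩
    have h1 : SlS (M.single l) (Set.Ici 0) ≤ SlS M (Set.Ici 0) :=
      fun X ⟨d, hd, hX⟩ => ⟨d, hd, Sl.of_single M l hX⟩
    have : Nonempty Λ := ⟨l⟩
    exact tow_ge M k X (tow_mono h1 k X hk) l'

omit [HasZeroObject C] [HasShift C ℤ] [∀ n : ℤ, (shiftFunctor C n).Additive] [Pretriangulated C]
  [IsTriangulated C] [SymmetricCategory C] [TensorTriangulated C] [MonoidalPreadditive C]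
  [RightRigidCategory C] [IsIdempotentComplete C] in
/-- Idempotents of a ring of endomorphisms which is `ℚ` are trivial. -/
lemma hid_of_hE (hE : ∀ e : 𝟙_ C ⟶ 𝟙_ C, ∃ q : ℚ, e = q • 𝟙 (𝟙_ C)) :
    ∀ e : 𝟙_ C ⟶ 𝟙_ C, e ≫ e = e → e = 0 ∨ e = 𝟙 _ := by
  intro e he
  obtain ⟨q, rfl⟩ := hE e
  rw [Linear.smul_comp, Linear.comp_smul, Category.comp_id, smul_smul] at he
  by_cases h : q = 0
  · left
    rw [h, zero_smul]
  · right
    have h1 : q⁻¹ • ((q * q) • 𝟙 (𝟙_ C)) = q⁻¹ • (q • 𝟙 (𝟙_ C)) := by rw [he]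
    rwa [smul_smul, smul_smul, ← mul_assoc, inv_mul_cancel₀ h, one_mul, one_smul] at h1

/-- The criterion for the existence of a motivic t-structure. -/
theorem exists_t_iff (M : ChowMotives R) (l : Λ)
    (hE : ∀ e : 𝟙_ C ⟶ 𝟙_ C, ∃ q : ℚ, e = q • 𝟙 (𝟙_ C)) :
    (∃ t : TStructure C, IsMotivic t R) ↔ Crit (M.single l) := by
  constructor
  · rintro ⟨t, ht⟩
    have h1 : IsMotivic (Λ := Unit) (E := fun _ => E l) t (fun _ => R l) :=
      ⟨ht.nondeg_le, ht.nondeg_ge, ht.tensor_le, ht.tensor_ge, fun _ => ht.exact_le l,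
        fun _ => ht.exact_ge l⟩
    exact (h1.good (hid_of_hE hE) (M.single l)).crit
  · exact fun h => h.exists_t M l hE

/-- A t-structure which is motivic for one `l` is motivic for all `l`. -/
theorem motivic_of_single (M : ChowMotives R) (hE : ∀ e : 𝟙_ C ⟶ 𝟙_ C, ∃ q : ℚ, e = q • 𝟙 (𝟙_ C))
    (l : Λ) {t : TStructure C}
    (ht : IsMotivic (Λ := Unit) (E := fun _ => E l) t (fun _ => R l)) : IsMotivic t R := by
  obtain ⟨t', ht'⟩ := (ht.good (hid_of_hE hE) (M.single l)).crit.exists_t M l hE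
  refine ⟨ht.nondeg_le, ht.nondeg_ge, ht.tensor_le, ht.tensor_ge, fun l' X hX => ?_,
    fun l' X hX => ?_⟩
  · have h1 : t'.IsLE X 0 := ht'.le_of_V (hid_of_hE hE) l (ht.exact_le () X hX)
    exact ht'.exact_le l' X h1.le
  · have h1 : t'.IsGE X 0 := ht'.ge_of_V (hid_of_hE hE) l (ht.exact_ge () X hX)
    exact ht'.exact_ge l' X h1.ge

end

end Pool.Agent.R920
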